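import Mathlib
import Pool.Agent.Y793.Stm

/-!
Statements (NOT results) of the bricks of the project on `G ≀ A_n` over `ℚ` for EVERY finite group `G`
(owner helper17, problem MP_dadaab_nt).
-/

set_option autoImplicit false

namespace Pool.Agent.K3h17

open Polynomial Pool.Agent.H391R2 Pool.Agent.Y793

/-- The variable `x` of `K(x)` as an element of `Ω`. -/
noncomputable def xx (K Ω : Type) [Field K] [Field Ω] [Algebra (RatFunc K) Ω] : Ω :=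
  algebraMap (RatFunc K) Ω RatFunc.X

/-! ### Brick E: parity by linear algebra -/

/-- EVN. -/
def St_evn : Prop :=
  ∀ (N : Type) [Field N] [CharZero N] (m d : ℕ), Even m → 0 < d →
    ∀ (σ : N ≃+* N) (S : N[X]) (T : N) (g : N[X]) (D : Fin m → N[X]) (a : Fin m → Fin m → N[X]),
    S.natDegree = d → g ^ 2 = ∏ p, D p → (∀ p, D p ≠ 0) → (∀ p q, a p q = a q p) →
    (∀ p q, (D p * D q * a p q).natDegree < d) →
    ∀ (s : Fin d → N), Function.Injective s → (∀ j, S.eval (s j) = T) →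
    (∀ j p, (D p).eval (s j) ≠ 0) →
    ∀ (x : Fin (m * d) → N), Function.Injective x → (∀ i, S.eval (x i) ≠ T) →
    (∀ i p, (D p).eval (x i) ≠ 0) →
    ∀ (e : Fin (m * d) → Fin m → N) (h : Fin (m * d) → N), (∀ i, h i ≠ 0) →
    (∀ i p, (T - S.eval (x i)) * e i p =
      (D p).eval (x i) * ∑ q, (a p q).eval (x i) * e i q) →
    (∀ i, (derivative S).eval (x i) * ∑ p, e i p ^ 2 / (D p).eval (x i) +
      ∑ p, ∑ q, (derivative (D p)).eval (x i) / (D p).eval (x i) * e i p *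
        (a p q).eval (x i) * e i q +
      ∑ p, ∑ q, (derivative (a p q)).eval (x i) * e i p * e i q = h i ^ 2) →
    S.map (σ : N →+* N) = S → σ T = T → g.map (σ : N →+* N) = g →
    (∀ p, (D p).map (σ : N →+* N) = D p) → (∀ p q, (a p q).map (σ : N →+* N) = a p q) →
    ∀ π : Equiv.Perm (Fin (m * d)), (∀ i, σ (x i) = x (π i)) →
    (∀ i p, σ (e i p) = e (π i) p) → (∀ i, σ (h i) = h (π i)) → Equiv.Perm.sign π = 1

/-! ### Brick G: group theory -/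

/-- GRP. -/
def St_grp : Prop :=
  ∀ (G : Type) [Group G] [Finite G] (n s : ℕ), 9 ≤ n → s ^ 4 + 4 < n → ∀ H : Subgroup (Wr G n),
    (∀ k l k' l' : Fin n, k ≠ l → k' ≠ l' → ∀ g h : G, ∃ w ∈ H,
      w.right k = k' ∧ w.right l = l' ∧ w.left k' = g ∧ w.left l' = h) →
    ∀ x ∈ H, x.right ≠ 1 → {i : Fin n | x.right i ≠ i ∨ x.left i ≠ 1}.ncard ≤ s →
    ∀ w : Wr G n, ∏ i, Abelianization.of (w.left i) = 1 → Equiv.Perm.sign w.right = 1 → w ∈ H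

/-! ### Brick T: lifting an embedding by Taylor series -/

/-- LIFT. -/
def St_lift : Prop :=
  ∀ (Ω k J : Type) [Field Ω] [Field k] [CharZero k] [Fintype J] (δ : Derivation ℤ Ω Ω)
    (Φ : Ω →+* k) (c : J → PowerSeries k) (h : J → Ω) (T : k),
    ∑ j, PowerSeries.constantCoeff (c j) * Φ (h j) = T →
    ∑ j, PowerSeries.constantCoeff (c j) * Φ (δ (h j)) ≠ 0 →
    ∃ Ψ : Ω →+* PowerSeries k, (∀ z, PowerSeries.constantCoeff (Ψ z) = Φ z) ∧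
      (∀ z, δ z = 0 → Ψ z = PowerSeries.C (Φ z)) ∧ ∑ j, c j * Ψ (h j) = PowerSeries.C T

/-! ### Brick D: differential algebra -/

/-- DER. -/
def St_der : Prop :=
  ∀ (K Ω : Type) [Field K] [CharZero K] [Field Ω] [Algebra (RatFunc K) Ω] [Algebra K Ω]
    [IsScalarTower K (RatFunc K) Ω] [FiniteDimensional (RatFunc K) Ω] [IsGalois (RatFunc K) Ω],
    ∃ δ : Derivation K Ω Ω, δ (xx K Ω) = 1 ∧
      (∀ (γ : Ω ≃ₐ[RatFunc K] Ω) (z : Ω), δ (γ z) = γ (δ z)) ∧ ∀ z, δ z = 0 → IsAlgebraic K z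

/-- CYC: a cyclic vector. -/
def St_cyc : Prop :=
  ∀ (F Ω : Type) [Field F] [CharZero F] [Field Ω] [Algebra F Ω] [FiniteDimensional F Ω]
    [IsGalois F Ω] (δ : Derivation ℤ Ω Ω),
    (∀ a : F, δ (algebraMap F Ω a) ∈ Set.range (algebraMap F Ω)) →
    (∀ (γ : Ω ≃ₐ[F] Ω) (z : Ω), δ (γ z) = γ (δ z)) →
    (∀ z : Ω, δ z = 0 → z ∈ Set.range (algebraMap F Ω)) →
    ∀ P : Subgroup (Ω ≃ₐ[F] Ω), ∃ y : Ω, (∀ γ, γ y = y ↔ γ ∈ P) ∧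
      ∀ z : Ω, (∀ γ ∈ P, γ z = z) →
        ∃ c : ℕ → F, z = ∑ j ∈ Finset.range P.index, algebraMap F Ω (c j) * (δ^[j] y)

/-- `z = ∑ Δ w_r e_r` with polynomials `w_r` of degree at most `B`. -/
def Dv {K Ω : Type} [Field K] [Field Ω] [Algebra (RatFunc K) Ω] [Algebra K Ω] {m : ℕ}
    (e : Fin m → Ω) (Δ : K[X]) (B : ℕ) (z : Ω) : Prop :=
  ∃ w : Fin m → K[X], (∀ r, (w r).natDegree ≤ B) ∧
    z = ∑ r, aeval (xx K Ω) (Δ * w r) * e r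

/-- FAM. -/
def St_fam : Prop :=
  ∀ (K Ω : Type) [Field K] [CharZero K] [Field Ω] [Algebra (RatFunc K) Ω] [Algebra K Ω]
    [IsScalarTower K (RatFunc K) Ω] [FiniteDimensional (RatFunc K) Ω] [IsGalois (RatFunc K) Ω],
    (∀ y : Ω, IsAlgebraic K y → y ∈ Set.range (algebraMap K Ω)) →
    ∀ (δ : Derivation K Ω Ω), δ (xx K Ω) = 1 →
    (∀ (γ : Ω ≃ₐ[RatFunc K] Ω) (z : Ω), δ (γ z) = γ (δ z)) →
    ∀ (P : Subgroup (Ω ≃ₐ[RatFunc K] Ω)) (m : ℕ) (e : Fin m → Ω),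
    (∀ r, ∀ γ ∈ P, γ (e r) = e r) →
    (∀ z : Ω, (∀ γ ∈ P, γ z = z) →
      ∃ c : Fin m → RatFunc K, z = ∑ r, algebraMap (RatFunc K) Ω (c r) * e r) →
    ∀ Δ : K[X], Δ ≠ 0 →
    ∃ (y : Ω) (p : K[X]) (H : Ω) (C k₀ : ℕ), (∀ γ, γ y = y ↔ γ ∈ P) ∧ Dv e Δ C H ∧
      δ H = y ^ 2 - aeval (xx K Ω) p * y ∧
      ∀ k ≥ k₀, ∃ (κ : K[X]) (W : Ω), κ.natDegree = k ∧ Dv e Δ (k + C) W ∧
        δ W = aeval (xx K Ω) κ * y

/-! ### Brick O: an orthogonal basis for the trace form -/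

/-- ORT. -/
def St_ort : Prop :=
  ∀ (K Ω : Type) [Field K] [CharZero K] [Field Ω] [Algebra (RatFunc K) Ω] [Algebra K Ω]
    [IsScalarTower K (RatFunc K) Ω] [FiniteDimensional (RatFunc K) Ω] [IsGalois (RatFunc K) Ω]
    (P : Subgroup (Ω ≃ₐ[RatFunc K] Ω)),
    (∀ γ : Ω ≃ₐ[RatFunc K] Ω, ∀ (f : Equiv.Perm ((Ω ≃ₐ[RatFunc K] Ω) ⧸ P)),
      (∀ q, f q = γ • q) → ∀ (_ : Fintype ((Ω ≃ₐ[RatFunc K] Ω) ⧸ P))
        (_ : DecidableEq ((Ω ≃ₐ[RatFunc K] Ω) ⧸ P)), Equiv.Perm.sign f = 1) →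
    ∃ (e : Fin P.index → Ω) (D : Fin P.index → K[X]) (g Δ : K[X]) (C : ℕ),
      (∀ r, ∀ γ ∈ P, γ (e r) = e r) ∧
      (∀ z : Ω, (∀ γ ∈ P, γ z = z) →
        ∃ c : Fin P.index → RatFunc K, z = ∑ r, algebraMap (RatFunc K) Ω (c r) * e r) ∧
      (∀ r, D r ≠ 0) ∧ g ^ 2 = ∏ r, D r ∧ Δ ≠ 0 ∧
      ∑ r, e r ^ 2 / aeval (xx K Ω) (D r) = 1 ∧
      ∀ (B : ℕ) (z : Ω), Dv e Δ B z → ∃ a : Fin P.index → Fin P.index → K[X],
        (∀ r s, a r s = a s r) ∧ (∀ r s, (D r * D s * a r s).natDegree ≤ B + C) ∧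
        ∀ r, z * e r = aeval (xx K Ω) (D r) * ∑ s, aeval (xx K Ω) (a r s) * e s

/-! ### Brick K: Kummer theory -/

/-- KUM. -/
def St_kum : Prop :=
  ∀ (K K₀ F E Ω : Type) [Field K] [CharZero K] [Field K₀] [IsAlgClosed K₀] [Algebra K K₀]
    [Field F] [IsAlgClosed F] [Algebra K₀ F] [Algebra K F] [IsScalarTower K K₀ F]
    [Field E] [IsAlgClosed E] [Algebra F E] [Algebra K₀ E] [Algebra K E] [IsScalarTower K₀ F E]
    [IsScalarTower K F E] [IsScalarTower K K₀ E]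
    [Field Ω] [Algebra (RatFunc K) Ω] [Algebra K Ω] [IsScalarTower K (RatFunc K) Ω]
    [FiniteDimensional (RatFunc K) Ω] [IsGalois (RatFunc K) Ω],
    (∀ y : Ω, IsAlgebraic K y → y ∈ Set.range (algebraMap K Ω)) →
    ∀ (P : Subgroup (Ω ≃ₐ[RatFunc K] Ω)) (A : Type) [CommGroup A] [Finite A] (ψ : P →* A)
      [Fintype ((Ω ≃ₐ[RatFunc K] Ω) ⧸ P)],
    (∀ a : A, ∃ (γ₀ : Ω ≃ₐ[RatFunc K] Ω) (h : ∀ g : Ω ≃ₐ[RatFunc K] Ω, g⁻¹ * γ₀ * g ∈ P),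
      ∏ q : (Ω ≃ₐ[RatFunc K] Ω) ⧸ P, ψ ⟨q.out⁻¹ * γ₀ * q.out, h _⟩ = a) →
    ∀ (S : F[X]), 0 < S.natDegree →
    (∀ ξ ξ' : K₀, S.eval (algebraMap K₀ F ξ) = S.eval (algebraMap K₀ F ξ') → ξ = ξ') →
    ∀ (T : E), Transcendental F T →
    ∀ (n : ℕ) (Φ : Fin n → (Ω →ₐ[K] E)), (∀ i, aeval (Φ i (xx K Ω)) S = T) →
    (∀ i j, ∀ γ ∈ P, (∀ z, Φ i z = Φ j (γ z)) → i = j) →
    (∀ Φ' : Ω →ₐ[K] E, aeval (Φ' (xx K Ω)) S = T → ∃ i, ∃ γ ∈ P, ∀ z, Φ' z = Φ i (γ z)) →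
    ∀ a : A, ∃ (σ : E ≃ₐ[F] E) (π : Equiv.Perm (Fin n)) (γ : Fin n → P), σ T = T ∧
      (∀ i z, σ (Φ i z) = Φ (π i) ((γ i : Ω ≃ₐ[RatFunc K] Ω) z)) ∧ ∏ i, ψ (γ i) = a

/-! ### Brick V: an element of small support -/

/-- SML. -/
def St_sml : Prop :=
  ∀ (K F k E Ω : Type) [Field K] [CharZero K] [Field F] [IsAlgClosed F] [Algebra K F] [Field k]
    [IsAlgClosed k] [Algebra F k] [Algebra K k] [IsScalarTower K F k] [Field E] [IsAlgClosed E]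
    [Algebra K E] (j : PowerSeries k →+* E), Function.Injective j →
    (∀ a : K, j (PowerSeries.C (algebraMap K k a)) = algebraMap K E a) →
    (∀ z : E, ∃ p : Polynomial (PowerSeries k), p ≠ 0 ∧ (p.map j).eval z = 0) →
    ∀ [Field Ω] [Algebra (RatFunc K) Ω] [Algebra K Ω] [IsScalarTower K (RatFunc K) Ω]
    [FiniteDimensional (RatFunc K) Ω] [IsGalois (RatFunc K) Ω]
    (P : Subgroup (Ω ≃ₐ[RatFunc K] Ω)) (κt : K[X]) (κr : F[X]) (T : k) (l : ℕ),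
    κt.natDegree = l + 2 → κr.natDegree = l → Transcendental F T →
    ∀ (n : ℕ) (Φ : Fin n → (Ω →ₐ[K] E)),
    (∀ i, (adr K ((κr.map (j.comp (PowerSeries.C.comp (algebraMap F k))) +
      C (j PowerSeries.X) * κt.map (algebraMap K E)) ^ 2)).eval (Φ i (xx K Ω)) =
        j (PowerSeries.C T)) →
    (∀ i i', ∀ γ ∈ P, (∀ z, Φ i z = Φ i' (γ z)) → i = i') →
    (∀ Φ' : Ω →ₐ[K] E, (adr K ((κr.map (j.comp (PowerSeries.C.comp (algebraMap F k))) +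
      C (j PowerSeries.X) * κt.map (algebraMap K E)) ^ 2)).eval (Φ' (xx K Ω)) =
        j (PowerSeries.C T) → ∃ i, ∃ γ ∈ P, ∀ z, Φ' z = Φ i (γ z)) →
    ∃ (σ : E ≃+* E) (π : Equiv.Perm (Fin n)) (γ : Fin n → P), (∀ f, σ (j f) = j f) ∧
      (∀ i z, σ (Φ i z) = Φ (π i) ((γ i : Ω ≃ₐ[RatFunc K] Ω) z)) ∧ π ≠ 1 ∧
      {i | π i ≠ i ∨ γ i ≠ 1}.ncard ≤ 4 * P.index

end Pool.Agent.K3h17
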