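import Mathlib
import Pool.Agent.K3h17.Stm
import Pool.Agent.Y793.Se

set_option autoImplicit false
set_option linter.unusedSectionVars false
set_option linter.unusedSimpArgs false

namespace Pool.Agent.K3h17

open Polynomial Pool.Agent.H391R2 Pool.Agent.Y793

/-- The data of the construction. -/
structure Dat (K Ω ι : Type) [Field K] [Field Ω] [Algebra (RatFunc K) Ω] [Algebra K Ω]
    [Fintype ι] where
  δ : Derivation K Ω Ω
  P : Subgroup (Ω ≃ₐ[RatFunc K] Ω)
  m : ℕ
  k : ℕ
  κ : ι → K[X]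
  p : K[X]
  y : Ω
  W : ι → Ω
  H : Ω
  e : Fin m → Ω
  D : Fin m → K[X]
  g : K[X]
  aW : ι → Fin m → Fin m → K[X]
  aH : Fin m → Fin m → K[X]
  i₁ : ι
  hδx : δ (xx K Ω) = 1
  hδg : ∀ (γ : Ω ≃ₐ[RatFunc K] Ω) (z : Ω), δ (γ z) = γ (δ z)
  hPm : P.index = m
  hm : Even m
  hm0 : 0 < m
  hy : ∀ γ, γ y = y ↔ γ ∈ P
  hH : δ H = y ^ 2 - aeval (xx K Ω) p * y
  hW : ∀ i, δ (W i) = aeval (xx K Ω) (κ i) * y
  he : ∀ r, ∀ γ ∈ P, γ (e r) = e r
  hsum : ∑ r, e r ^ 2 / aeval (xx K Ω) (D r) = 1
  hD : ∀ r, D r ≠ 0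
  hg : g ^ 2 = ∏ r, D r
  haWs : ∀ i r s, aW i r s = aW i s r
  haHs : ∀ r s, aH r s = aH s r
  haW : ∀ i r, W i * e r = aeval (xx K Ω) (D r) * ∑ s, aeval (xx K Ω) (aW i r s) * e s
  haH : ∀ r, H * e r = aeval (xx K Ω) (D r) * ∑ s, aeval (xx K Ω) (aH r s) * e s
  haWd : ∀ i r s, (D r * D s * aW i r s).natDegree < 2 * k + 1
  haHd : ∀ r s, (D r * D s * aH r s).natDegree < 2 * k + 1
  hli : LinearIndependent K κ
  hκ1 : (κ i₁).natDegree = k
  hκ2 : ∀ i, i ≠ i₁ → (κ i).natDegree ≤ k - 2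
  hκ3 : ∃ i, i ≠ i₁ ∧ (κ i).natDegree = k - 2
  hk2 : 2 ≤ k
  hp : p.natDegree < k
  hcard : k + 5 < 2 * Fintype.card ι

namespace Dat

variable {K Ω ι : Type} [Field K] [Field Ω] [Algebra (RatFunc K) Ω] [Algebra K Ω] [Fintype ι]
  (d : Dat K Ω ι) {E : Type} [CommRing E] [Algebra K E]

/-- The polynomial `∑ c_i κ_i`. -/
noncomputable def lk (v : Option ι → E) : E[X] :=
  ∑ i, C (v (some i)) * (d.κ i).map (algebraMap K E)

/-- The polynomial `∑ c_i κ_i - c₀ p / 2`. -/
noncomputable def hp' (v : Option ι → E) : E[X] :=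
  d.lk v - C (v none * algebraMap K E (1 / 2)) * d.p.map (algebraMap K E)

/-- The bilinear form at a point. -/
noncomputable def BF (v v' : Option ι → E) (φ : Ω →ₐ[K] E) : E :=
  (adr K (d.hp' v * d.hp' v')).eval (φ (xx K Ω)) +
    ∑ i, (v none * v' (some i) + v' none * v (some i)) * φ (d.W i) +
    v none * v' none * φ d.H

/-- The linear form at a point. -/
noncomputable def kc (v : Option ι → E) (φ : Ω →ₐ[K] E) : E :=
  (d.hp' v).eval (φ (xx K Ω)) + v none * φ d.y

theorem lk_add (v v' : Option ι → E) : d.lk (v + v') = d.lk v + d.lk v' := by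
  unfold lk
  rw [← Finset.sum_add_distrib]
  refine Finset.sum_congr rfl fun i _ => ?_
  rw [Pi.add_apply, C_add, add_mul]

theorem lk_smul (a : E) (v : Option ι → E) : d.lk (a • v) = C a * d.lk v := by
  unfold lk
  rw [Finset.mul_sum]
  refine Finset.sum_congr rfl fun i _ => ?_
  rw [Pi.smul_apply, smul_eq_mul, C_mul, mul_assoc]

theorem lk_map {E' : Type} [CommRing E'] [Algebra K E'] (τ : E →ₐ[K] E')
    (v : Option ι → E) : (d.lk v).map (τ : E →+* E') = d.lk (fun i => τ (v i)) := by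
  unfold lk
  rw [Polynomial.map_sum]
  refine Finset.sum_congr rfl fun i _ => ?_
  rw [Polynomial.map_mul, map_C, Polynomial.map_map]
  congr 2
  exact τ.comp_algebraMap

theorem hp_add (v v' : Option ι → E) : d.hp' (v + v') = d.hp' v + d.hp' v' := by
  unfold hp'
  rw [lk_add]
  simp only [Pi.add_apply, add_mul, C_add]
  ring

theorem hp_smul (a : E) (v : Option ι → E) : d.hp' (a • v) = C a * d.hp' v := by
  unfold hp'
  rw [lk_smul]
  simp only [Pi.smul_apply, smul_eq_mul, C_mul]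
  ring

theorem hp_map {E' : Type} [CommRing E'] [Algebra K E'] (τ : E →ₐ[K] E')
    (v : Option ι → E) : (d.hp' v).map (τ : E →+* E') = d.hp' (fun i => τ (v i)) := by
  have h1 : (τ : E →+* E').comp (algebraMap K E) = algebraMap K E' := τ.comp_algebraMap
  unfold hp'
  rw [Polynomial.map_sub, lk_map, Polynomial.map_mul, map_C, Polynomial.map_map, h1, map_mul]
  congr 3
  exact congrArg _ (τ.commutes _)

theorem BF_comm (v v' : Option ι → E) (φ : Ω →ₐ[K] E) : d.BF v v' φ = d.BF v' v φ := by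
  unfold BF
  rw [mul_comm (d.hp' v), mul_comm (v none) (v' none)]
  congr 2
  refine Finset.sum_congr rfl fun i _ => ?_
  ring

theorem BF_add (v v' v'' : Option ι → E) (φ : Ω →ₐ[K] E) :
    d.BF v (v' + v'') φ = d.BF v v' φ + d.BF v v'' φ := by
  unfold BF
  rw [hp_add, mul_add, adr_add, eval_add]
  have h1 : ∑ i, (v none * (v' + v'') (some i) + (v' + v'') none * v (some i)) * φ (d.W i) =
      ∑ i, (v none * v' (some i) + v' none * v (some i)) * φ (d.W i) +
      ∑ i, (v none * v'' (some i) + v'' none * v (some i)) * φ (d.W i) := by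
    rw [← Finset.sum_add_distrib]
    refine Finset.sum_congr rfl fun i _ => ?_
    simp only [Pi.add_apply]
    ring
  rw [h1, Pi.add_apply]
  ring

theorem BF_smul (a : E) (v v' : Option ι → E) (φ : Ω →ₐ[K] E) :
    d.BF v (a • v') φ = a * d.BF v v' φ := by
  unfold BF
  rw [hp_smul, mul_left_comm, adr_C_mul, eval_mul, eval_C]
  have h1 : ∑ i, (v none * (a • v') (some i) + (a • v') none * v (some i)) * φ (d.W i) =
      a * ∑ i, (v none * v' (some i) + v' none * v (some i)) * φ (d.W i) := by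
    rw [Finset.mul_sum]
    refine Finset.sum_congr rfl fun i _ => ?_
    simp only [Pi.smul_apply, smul_eq_mul]
    ring
  rw [h1, Pi.smul_apply, smul_eq_mul]
  ring

theorem map_ev' {E' : Type} [CommRing E'] [Algebra K E'] (τ : E →ₐ[K] E') (q : E[X]) (x : E) :
    τ (q.eval x) = (q.map (τ : E →+* E')).eval (τ x) :=
  (eval_map_apply (f := (τ : E →+* E')) (p := q) (x := x)).symm

theorem BF_map {E' : Type} [CommRing E'] [Algebra K E'] (τ : E →ₐ[K] E')
    (v v' : Option ι → E) (φ : Ω →ₐ[K] E) :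
    τ (d.BF v v' φ) = d.BF (fun i => τ (v i)) (fun i => τ (v' i)) (τ.comp φ) := by
  unfold BF
  simp only [map_add, map_mul, map_ev', adr_map, Polynomial.map_mul, hp_map, map_sum,
    AlgHom.comp_apply]

theorem kc_map {E' : Type} [CommRing E'] [Algebra K E'] (τ : E →ₐ[K] E')
    (v : Option ι → E) (φ : Ω →ₐ[K] E) :
    τ (d.kc v φ) = d.kc (fun i => τ (v i)) (τ.comp φ) := by
  unfold kc
  simp only [map_add, map_mul, map_ev', hp_map, AlgHom.comp_apply]

/-- The polynomial `S`. -/
noncomputable def SS (v : Option ι → E) : E[X] := adr K (d.hp' v * d.hp' v)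

theorem SS_map {E' : Type} [CommRing E'] [Algebra K E'] (τ : E →ₐ[K] E')
    (v : Option ι → E) : (d.SS v).map (τ : E →+* E') = d.SS (fun i => τ (v i)) := by
  unfold SS
  rw [adr_map, Polynomial.map_mul, hp_map]

/-- The matrix of the function. -/
noncomputable def AA (v : Option ι → E) (r s : Fin d.m) : E[X] :=
  ∑ i, C (2 * v none * v (some i)) * (d.aW i r s).map (algebraMap K E) +
    C (v none ^ 2) * (d.aH r s).map (algebraMap K E)

theorem AA_map {E' : Type} [CommRing E'] [Algebra K E'] (τ : E →ₐ[K] E')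
    (v : Option ι → E) (r s : Fin d.m) :
    (d.AA v r s).map (τ : E →+* E') = d.AA (fun i => τ (v i)) r s := by
  have h1 : (τ : E →+* E').comp (algebraMap K E) = algebraMap K E' := τ.comp_algebraMap
  unfold AA
  rw [Polynomial.map_add, Polynomial.map_sum, Polynomial.map_mul, map_C, Polynomial.map_map, h1,
    RingHom.coe_coe, map_pow]
  congr 1
  refine Finset.sum_congr rfl fun i _ => ?_
  rw [Polynomial.map_mul, map_C, Polynomial.map_map, h1, RingHom.coe_coe]
  congr 2
  rw [map_mul, map_mul, map_ofNat]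

theorem AA_symm (v : Option ι → E) (r s : Fin d.m) : d.AA v r s = d.AA v s r := by
  unfold AA
  rw [d.haHs r s]
  congr 1
  refine Finset.sum_congr rfl fun i _ => ?_
  rw [d.haWs i r s]

theorem map_aev (φ : Ω →ₐ[K] E) (q : K[X]) :
    φ (aeval (xx K Ω) q) = (q.map (algebraMap K E)).eval (φ (xx K Ω)) := by
  rw [eval_map_algebraMap, Polynomial.aeval_algHom_apply]

/-- The values of the function and the eigenvalue equation. -/
theorem eig (v : Option ι → E) (φ : Ω →ₐ[K] E) (r : Fin d.m) :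
    (d.BF v v φ - (d.SS v).eval (φ (xx K Ω))) * φ (d.e r) =
      ((d.D r).map (algebraMap K E)).eval (φ (xx K Ω)) *
        ∑ s, (d.AA v r s).eval (φ (xx K Ω)) * φ (d.e s) := by
  have h1 : d.BF v v φ - (d.SS v).eval (φ (xx K Ω)) =
      ∑ i, (2 * v none * v (some i)) * φ (d.W i) + v none ^ 2 * φ d.H := by
    unfold BF SS
    have h2 : ∑ i, (v none * v (some i) + v none * v (some i)) * φ (d.W i) =
        ∑ i, (2 * v none * v (some i)) * φ (d.W i) :=
      Finset.sum_congr rfl fun i _ => by ring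
    rw [h2]
    ring
  have h3 : ∀ i, φ (d.W i) * φ (d.e r) = ((d.D r).map (algebraMap K E)).eval (φ (xx K Ω)) *
      ∑ s, ((d.aW i r s).map (algebraMap K E)).eval (φ (xx K Ω)) * φ (d.e s) := by
    intro i
    rw [← map_mul, d.haW, map_mul, map_aev, map_sum]
    congr 1
    refine Finset.sum_congr rfl fun s _ => ?_
    rw [map_mul, map_aev]
  have h4 : φ d.H * φ (d.e r) = ((d.D r).map (algebraMap K E)).eval (φ (xx K Ω)) *
      ∑ s, ((d.aH r s).map (algebraMap K E)).eval (φ (xx K Ω)) * φ (d.e s) := by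
    rw [← map_mul, d.haH, map_mul, map_aev, map_sum]
    congr 1
    refine Finset.sum_congr rfl fun s _ => ?_
    rw [map_mul, map_aev]
  have h5 : ∑ s, (d.AA v r s).eval (φ (xx K Ω)) * φ (d.e s) =
      ∑ i, (2 * v none * v (some i)) *
        (∑ s, ((d.aW i r s).map (algebraMap K E)).eval (φ (xx K Ω)) * φ (d.e s)) +
      v none ^ 2 * ∑ s, ((d.aH r s).map (algebraMap K E)).eval (φ (xx K Ω)) * φ (d.e s) := by
    simp only [AA, eval_add, eval_finsetSum, eval_mul, eval_C, add_mul, Finset.sum_add_distrib,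
      Finset.sum_mul, Finset.mul_sum]
    rw [Finset.sum_comm]
    simp only [mul_assoc]
  rw [h1, h5, add_mul, Finset.sum_mul, mul_add, Finset.mul_sum]
  congr 1
  · refine Finset.sum_congr rfl fun i _ => ?_
    rw [mul_assoc, h3]
    ring
  · rw [mul_assoc, h4]
    ring

/-- The characteristic polynomial. -/
noncomputable def PP (v : Option ι → E) (T : E) : E[X] :=
  Matrix.det (Matrix.of fun r s : Fin d.m =>
    (if r = s then C T - d.SS v else 0) - (d.D r).map (algebraMap K E) * d.AA v r s)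

theorem PP_map {E' : Type} [CommRing E'] [Algebra K E'] (τ : E →ₐ[K] E')
    (v : Option ι → E) (T : E) :
    (d.PP v T).map (τ : E →+* E') = d.PP (fun i => τ (v i)) (τ T) := by
  have h1 : (τ : E →+* E').comp (algebraMap K E) = algebraMap K E' := τ.comp_algebraMap
  unfold PP
  rw [← coe_mapRingHom, RingHom.map_det]
  congr 1
  ext r s : 2
  simp only [RingHom.mapMatrix_apply, Matrix.map_apply, Matrix.of_apply, coe_mapRingHom]
  rw [Polynomial.map_sub, Polynomial.map_mul, AA_map, Polynomial.map_map, h1]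
  congr 1
  split_ifs
  · rw [← SS_map, Polynomial.map_sub, map_C]
    rfl
  · rw [Polynomial.map_zero]

end Dat

end Pool.Agent.K3h17
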