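import Mathlib
import Pool.Agent.K3h17.Fa

set_option autoImplicit false
set_option linter.unusedSectionVars false
set_option linter.unusedSimpArgs false

namespace Pool.Agent.K3h17

open Polynomial Pool.Agent.H391R2 Pool.Agent.Y793

namespace Dat

section field

variable {K Ω ι : Type} [Field K] [Field Ω] [Algebra (RatFunc K) Ω] [Algebra K Ω] [Fintype ι]
  (d : Dat K Ω ι) {N : Type} [Field N] [Algebra K N]

theorem exists_e_ne : ∃ r, d.e r ≠ 0 := by
  by_contra hcon
  push Not at hcon
  have h1 := d.hsum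
  simp [hcon] at h1

/-- The coordinate of a point is a root of the characteristic polynomial. -/
theorem root (v : Option ι → N) (φ : Ω →ₐ[K] N) :
    (d.PP v (d.BF v v φ)).eval (φ (xx K Ω)) = 0 := by
  have h0 : (fun r => φ (d.e r)) ≠ 0 := by
    obtain ⟨r, hr⟩ := d.exists_e_ne
    intro h
    exact hr (φ.injective ((congrFun h r).trans (map_zero φ).symm))
  unfold PP
  rw [← coe_evalRingHom, RingHom.map_det]
  refine Matrix.exists_mulVec_eq_zero_iff.1 ⟨fun r => φ (d.e r), h0, ?_⟩
  funext r
  simp only [Matrix.mulVec, dotProduct, RingHom.mapMatrix_apply, Matrix.map_apply,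
    Matrix.of_apply, coe_evalRingHom, Pi.zero_apply]
  have h1 := d.eig v φ r
  have h2 : ∀ s, eval (φ (xx K Ω)) ((if r = s then C (d.BF v v φ) - d.SS v else 0) -
      (d.D r).map (algebraMap K N) * d.AA v r s) * φ (d.e s) =
      (if r = s then (d.BF v v φ - (d.SS v).eval (φ (xx K Ω))) * φ (d.e s) else 0) -
      ((d.D r).map (algebraMap K N)).eval (φ (xx K Ω)) *
        ((d.AA v r s).eval (φ (xx K Ω)) * φ (d.e s)) := by
    intro s
    rw [eval_sub, eval_mul, sub_mul]
    congr 1
    · split_ifs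
      · rw [eval_sub, eval_C]
      · rw [eval_zero, zero_mul]
    · ring
  simp only [h2]
  rw [Finset.sum_sub_distrib, Finset.sum_ite_eq Finset.univ r, if_pos (Finset.mem_univ _), h1,
    ← Finset.mul_sum, sub_self]

end field

section deg

variable {K Ω ι : Type} [Field K] [CharZero K] [Field Ω] [Algebra (RatFunc K) Ω] [Algebra K Ω]
  [Fintype ι] (d : Dat K Ω ι) {N : Type} [Field N] [Algebra K N]

theorem hκ (i : ι) : (d.κ i).natDegree ≤ d.k := by
  by_cases h : i = d.i₁
  · rw [h, d.hκ1]
  · exact (d.hκ2 i h).trans (Nat.sub_le _ _)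

theorem lk_deg (v : Option ι → N) : (d.lk v).natDegree ≤ d.k := by
  unfold lk
  refine natDegree_sum_le_of_forall_le _ _ fun i _ => ?_
  exact (natDegree_C_mul_le _ _).trans (natDegree_map_le.trans (d.hκ i))

theorem pp_deg (v : Option ι → N) :
    (C (v none * algebraMap K N (1 / 2)) * d.p.map (algebraMap K N)).natDegree < d.k :=
  lt_of_le_of_lt ((natDegree_C_mul_le _ _).trans natDegree_map_le) d.hp

theorem hp_deg (v : Option ι → N) : (d.hp' v).natDegree ≤ d.k :=
  (natDegree_sub_le _ _).trans (max_le (d.lk_deg v) (d.pp_deg v).le)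

theorem lk_coeff (v : Option ι → N) :
    (d.lk v).coeff d.k = v (some d.i₁) * algebraMap K N (d.κ d.i₁).leadingCoeff := by
  classical
  unfold lk
  rw [finsetSum_coeff, Finset.sum_eq_single d.i₁]
  · rw [coeff_C_mul, coeff_map, leadingCoeff, d.hκ1]
  · intro i _ hi
    rw [coeff_C_mul, coeff_map, coeff_eq_zero_of_natDegree_lt, map_zero, mul_zero]
    have h1 := d.hκ2 i hi
    have h2 := d.hk2
    omega
  · intro h
    exact absurd (Finset.mem_univ _) h

theorem hp_coeff (v : Option ι → N) :
    (d.hp' v).coeff d.k = v (some d.i₁) * algebraMap K N (d.κ d.i₁).leadingCoeff := by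
  unfold hp'
  rw [coeff_sub, lk_coeff, coeff_eq_zero_of_natDegree_lt (d.pp_deg v), sub_zero]

/-- The leading coefficient of `S`. -/
noncomputable def gam (v : Option ι → N) : N :=
  algebraMap K N ((2 * d.k : ℕ) + 1 : K)⁻¹ *
    (v (some d.i₁) * algebraMap K N (d.κ d.i₁).leadingCoeff) ^ 2

theorem gam_ne (v : Option ι → N) (hv : v (some d.i₁) ≠ 0) : d.gam v ≠ 0 := by
  unfold gam
  refine mul_ne_zero ?_ (pow_ne_zero 2 (mul_ne_zero hv ?_))
  · rw [Ne, FaithfulSMul.algebraMap_eq_zero_iff]
    exact inv_ne_zero (by exact_mod_cast Nat.succ_ne_zero (2 * d.k))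
  · rw [Ne, FaithfulSMul.algebraMap_eq_zero_iff]
    exact leadingCoeff_ne_zero.2 (d.hli.ne_zero _)

theorem SS_deg_le (v : Option ι → N) : (d.SS v).natDegree ≤ 2 * d.k + 1 := by
  rw [natDegree_le_iff_coeff_eq_zero]
  intro n hn
  obtain ⟨n, rfl⟩ : ∃ n', n = n' + 1 := ⟨n - 1, by omega⟩
  unfold SS
  rw [coeff_adr_succ, coeff_eq_zero_of_natDegree_lt, mul_zero]
  have h1 := natDegree_mul_le (p := d.hp' v) (q := d.hp' v)
  have h2 := d.hp_deg v
  omega

theorem SS_coeff (v : Option ι → N) : (d.SS v).coeff (2 * d.k + 1) = d.gam v := by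
  unfold SS
  rw [coeff_adr_succ, two_mul, coeff_mul_add_eq_of_natDegree_le (d.hp_deg v) (d.hp_deg v),
    hp_coeff, ← sq, ← two_mul]
  rfl

theorem SS_deg (v : Option ι → N) (hv : v (some d.i₁) ≠ 0) :
    (d.SS v).natDegree = 2 * d.k + 1 :=
  natDegree_eq_of_le_of_coeff_ne_zero (d.SS_deg_le v) (by rw [SS_coeff]; exact d.gam_ne v hv)

theorem AA_deg (v : Option ι → N) (r s : Fin d.m) :
    ((d.D r).map (algebraMap K N) * (d.D s).map (algebraMap K N) * d.AA v r s).natDegree <
      2 * d.k + 1 := by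
  have h1 : (d.D r).map (algebraMap K N) * (d.D s).map (algebraMap K N) * d.AA v r s =
      ∑ i, C (2 * v none * v (some i)) * (d.D r * d.D s * d.aW i r s).map (algebraMap K N) +
      C (v none ^ 2) * (d.D r * d.D s * d.aH r s).map (algebraMap K N) := by
    unfold AA
    rw [mul_add, Finset.mul_sum]
    simp only [Polynomial.map_mul]
    refine congrArg₂ (· + ·) (Finset.sum_congr rfl fun i _ => ?_) ?_
    · exact mul_left_comm _ _ _
    · exact mul_left_comm _ _ _
  have h2 : ∀ (a : N) (q : K[X]), q.natDegree < 2 * d.k + 1 →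
      (C a * q.map (algebraMap K N)).natDegree ≤ 2 * d.k := by
    intro a q hq
    have h3 := (natDegree_C_mul_le a (q.map (algebraMap K N))).trans natDegree_map_le
    omega
  rw [h1]
  refine lt_of_le_of_lt (b := 2 * d.k) ?_ (by omega)
  refine (natDegree_add_le _ _).trans (max_le ?_ ?_)
  · refine natDegree_sum_le_of_forall_le _ _ fun i _ => ?_
    exact h2 _ _ (d.haWd i r s)
  · exact h2 _ _ (d.haHd r s)

theorem DA_deg (v : Option ι → N) (r s : Fin d.m) :
    ((d.D r).map (algebraMap K N) * d.AA v r s).natDegree < 2 * d.k + 1 := by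
  by_cases h0 : (d.D r).map (algebraMap K N) * d.AA v r s = 0
  · rw [h0, natDegree_zero]
    omega
  · have h1 := d.AA_deg v r s
    have h2 : (d.D s).map (algebraMap K N) ≠ 0 :=
      (Polynomial.map_ne_zero_iff (algebraMap K N).injective).2 (d.hD s)
    have h3 : (d.D r).map (algebraMap K N) * (d.D s).map (algebraMap K N) * d.AA v r s =
      (d.D s).map (algebraMap K N) * ((d.D r).map (algebraMap K N) * d.AA v r s) := by ring
    rw [h3, natDegree_mul h2 h0] at h1
    omega

theorem PP_deg (v : Option ι → N) (T : N) (hv : v (some d.i₁) ≠ 0) :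
    (d.PP v T).natDegree = d.m * (2 * d.k + 1) := by
  classical
  set M : Matrix (Fin d.m) (Fin d.m) N[X] := Matrix.of fun r s : Fin d.m =>
    (if r = s then C T - d.SS v else 0) - (d.D r).map (algebraMap K N) * d.AA v r s with hM
  have hd : ∀ r s, (M r s).natDegree ≤ 2 * d.k + 1 := by
    intro r s
    rw [hM, Matrix.of_apply]
    refine (natDegree_sub_le _ _).trans (max_le ?_ (d.DA_deg v r s).le)
    split_ifs
    · refine (natDegree_sub_le _ _).trans (max_le ?_ (d.SS_deg_le v))
      rw [natDegree_C]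
      omega
    · rw [natDegree_zero]
      omega
  have hc : ∀ r s, (M r s).coeff (2 * d.k + 1) = if r = s then - d.gam v else 0 := by
    intro r s
    rw [hM, Matrix.of_apply, coeff_sub, coeff_eq_zero_of_natDegree_lt (d.DA_deg v r s), sub_zero]
    split_ifs
    · rw [coeff_sub, SS_coeff, coeff_C_of_ne_zero (by omega), zero_sub]
    · rw [coeff_zero]
  have hcard : (Finset.univ : Finset (Fin d.m)).card = d.m := by
    rw [Finset.card_univ, Fintype.card_fin]
  have h1 : (d.PP v T).natDegree ≤ d.m * (2 * d.k + 1) := by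
    change M.det.natDegree ≤ _
    rw [Matrix.det_apply]
    refine natDegree_sum_le_of_forall_le _ _ fun σ _ => ?_
    refine (natDegree_smul_le _ _).trans ?_
    refine (natDegree_prod_le _ _).trans ?_
    refine (Finset.sum_le_card_nsmul _ _ _ fun i _ => hd _ _).trans ?_
    rw [hcard, smul_eq_mul]
  refine natDegree_eq_of_le_of_coeff_ne_zero h1 ?_
  have h2 : (d.PP v T).coeff (d.m * (2 * d.k + 1)) = (-d.gam v) ^ d.m := by
    change M.det.coeff _ = _
    rw [Matrix.det_apply, finsetSum_coeff]
    have h3 : ∀ σ : Equiv.Perm (Fin d.m),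
        (Equiv.Perm.sign σ • ∏ i, M (σ i) i).coeff (d.m * (2 * d.k + 1)) =
        Equiv.Perm.sign σ • ∏ i, (if σ i = i then - d.gam v else 0) := by
      intro σ
      rw [coeff_smul]
      congr 1
      have h4 := coeff_prod_of_natDegree_le (s := Finset.univ) (fun i => M (σ i) i)
        (2 * d.k + 1) (fun i _ => hd _ _)
      rw [hcard] at h4
      rw [h4]
      exact Finset.prod_congr rfl fun i _ => hc _ _
    simp only [h3]
    rw [Finset.sum_eq_single 1]
    · simp [hcard]
    · intro σ _ hσ
      obtain ⟨i, hi⟩ : ∃ i, σ i ≠ i := by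
        by_contra hcon
        push Not at hcon
        exact hσ (Equiv.ext hcon)
      rw [Finset.prod_eq_zero (Finset.mem_univ i) (if_neg hi), smul_zero]
    · intro h
      exact absurd (Finset.mem_univ _) h
  rw [h2]
  exact pow_ne_zero _ (neg_ne_zero.2 (d.gam_ne v hv))

theorem derivative_SS (v : Option ι → N) : derivative (d.SS v) = d.hp' v * d.hp' v :=
  derivative_adr _

end deg

end Dat

end Pool.Agent.K3h17
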