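import Mathlib
import Pool.Agent.K3h17.Fb

set_option autoImplicit false
set_option linter.unusedSectionVars false
set_option linter.unusedSimpArgs false

namespace Pool.Agent.K3h17

open Polynomial Pool.Agent.H391R2 Pool.Agent.Y793

/-! ### Embeddings -/

section emb

variable {K Ω N : Type} [Field K] [Field Ω] [Algebra (RatFunc K) Ω] [Algebra K Ω]
  [IsScalarTower K (RatFunc K) Ω] [Field N] [Algebra K N]

theorem xpoly (φ : Ω →ₐ[K] N) (q : K[X]) :
    φ (algebraMap (RatFunc K) Ω (algebraMap K[X] (RatFunc K) q)) = aeval (φ (xx K Ω)) q := by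
  have h1 : φ (algebraMap (RatFunc K) Ω (algebraMap K[X] (RatFunc K) X)) = φ (xx K Ω) := by
    rw [RatFunc.algebraMap_X]
    rfl
  rw [← h1]
  induction q using Polynomial.induction_on' with
  | add p q hp hq => simp only [map_add, hp, hq]
  | monomial n a =>
    rw [aeval_monomial, ← C_mul_X_pow_eq_monomial, map_mul, map_mul, map_mul, map_pow, map_pow,
      map_pow]
    congr 1
    rw [RatFunc.algebraMap_C, ← RatFunc.algebraMap_eq_C, ← IsScalarTower.algebraMap_apply,
      φ.commutes]

/-- The variable is transcendental. -/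
theorem xx_trans (φ : Ω →ₐ[K] N) : Transcendental K (φ (xx K Ω)) := by
  rw [transcendental_iff]
  intro q hq
  rw [← xpoly, map_eq_zero, map_eq_zero] at hq
  exact (RatFunc.algebraMap_injective K) (by rw [hq, map_zero])

/-- The image of an embedding is algebraic over the image of the variable. -/
theorem emb_mem' [CharZero K] {k₀ : Type} [Field k₀] [Algebra K k₀] [Algebra k₀ N]
    [IsScalarTower K k₀ N] [FiniteDimensional (RatFunc K) Ω]
    (φ : Ω →ₐ[K] N) (L : IntermediateField k₀ N)
    (hL : ∀ x, IsAlgebraic L x → x ∈ L) (hwL : φ (xx K Ω) ∈ L) (z : Ω) : φ z ∈ L := by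
  have hK : ∀ a : K, algebraMap K N a ∈ L := by
    intro a
    rw [IsScalarTower.algebraMap_apply K k₀ N]
    exact L.algebraMap_mem _
  have hq : ∀ q : RatFunc K, φ (algebraMap (RatFunc K) Ω q) ∈ L := by
    intro q
    rw [← RatFunc.num_div_denom q, map_div₀, map_div₀, xpoly, xpoly]
    exact div_mem (aeval_mem' L hwL _) (aeval_mem' L hwL _)
  let ψ : RatFunc K →+* L := ((φ : Ω →+* N).comp (algebraMap (RatFunc K) Ω)).codRestrict L hq
  apply hL
  have hz : IsAlgebraic (RatFunc K) z := Algebra.IsAlgebraic.isAlgebraic z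
  obtain ⟨p, hp, hp0⟩ := hz
  refine ⟨p.map ψ, (Polynomial.map_ne_zero_iff ψ.injective).2 hp, ?_⟩
  rw [aeval_def, eval₂_map]
  have h2 : (algebraMap L N).comp ψ = (φ : Ω →+* N).comp (algebraMap (RatFunc K) Ω) := by
    apply RingHom.ext
    intro x
    rfl
  rw [h2]
  have h3 := Polynomial.hom_eval₂ p (algebraMap (RatFunc K) Ω) (φ : Ω →+* N) z
  rw [← aeval_def, hp0, map_zero] at h3
  exact h3.symm

/-- Two embeddings which agree on the variable differ by an element of the Galois group. -/
theorem comp_gal' [FiniteDimensional (RatFunc K) Ω] [IsGalois (RatFunc K) Ω]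
    (f f' : Ω →ₐ[K] N) (hx : f' (xx K Ω) = f (xx K Ω)) :
    ∃ γ : Ω ≃ₐ[RatFunc K] Ω, ∀ z, f' z = f (γ z) := by
  have hq : ∀ q : RatFunc K, f' (algebraMap (RatFunc K) Ω q) = f (algebraMap (RatFunc K) Ω q) := by
    intro q
    rw [← RatFunc.num_div_denom q, map_div₀, map_div₀, map_div₀, xpoly, xpoly, xpoly, xpoly, hx]
  let _ : Algebra Ω N := (f : Ω →+* N).toAlgebra
  let _ : Algebra (RatFunc K) N := ((f : Ω →+* N).comp (algebraMap (RatFunc K) Ω)).toAlgebra
  have t1 : IsScalarTower (RatFunc K) Ω N := .of_algebraMap_eq fun _ => rfl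
  let f'' : Ω →ₐ[RatFunc K] N := { (f' : Ω →+* N) with commutes' := fun q => hq q }
  refine ⟨f''.restrictNormal' Ω, fun z => ?_⟩
  have h1 := f''.restrictNormal_commutes Ω z
  exact h1.symm

/-- Existence of embeddings. -/
theorem exists_emb' [IsAlgClosed N] [FiniteDimensional (RatFunc K) Ω] (w : N)
    (hw : Transcendental K w) : ∃ φ : Ω →ₐ[K] N, φ (xx K Ω) = w := by
  let ψ : RatFunc K →ₐ[K] N := (IntermediateField.adjoin K {w}).val.comp
    (RatFunc.algEquivOfTranscendental _ hw : RatFunc K →ₐ[K] _)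
  have hψ : ψ RatFunc.X = w := by
    change ((RatFunc.algEquivOfTranscendental _ hw RatFunc.X :
      IntermediateField.adjoin K {w}) : N) = _
    simp
  let _ : Algebra (RatFunc K) N := (ψ : RatFunc K →+* N).toAlgebra
  have t1 : IsScalarTower K (RatFunc K) N := .of_algebraMap_eq fun x => (ψ.commutes x).symm
  let φ : Ω →ₐ[RatFunc K] N := IsAlgClosed.lift
  refine ⟨φ.restrictScalars K, ?_⟩
  change φ (xx K Ω) = w
  rw [xx, φ.commutes]
  exact hψ

/-- Restriction of the codomain. -/
def cod {k₀ : Type} [Field k₀] [Algebra K k₀] [Algebra k₀ N]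
    [IsScalarTower K k₀ N] (F : IntermediateField k₀ N) (φ : Ω →ₐ[K] N)
    (h : ∀ z, φ z ∈ F) : Ω →ₐ[K] F :=
  { (φ : Ω →+* N).codRestrict F h with
    commutes' := fun a => Subtype.ext (φ.commutes a) }

theorem cod_comp {k₀ : Type} [Field k₀] [Algebra K k₀] [Algebra k₀ N]
    [IsScalarTower K k₀ N] (F : IntermediateField k₀ N) (φ : Ω →ₐ[K] N)
    (h : ∀ z, φ z ∈ F) : (F.val.restrictScalars K).comp (cod F φ h) = φ := by
  apply AlgHom.ext
  intro z
  rfl

end emb

namespace Dat

/-! ### Linear algebra -/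

section la

/-- Extension by zero. -/
def jo (F ι : Type) [Field F] : (ι → F) →ₗ[F] (Option ι → F) where
  toFun a o := o.elim 0 a
  map_add' a b := by
    funext i
    rcases i with _ | i
    · exact (add_zero (0 : F)).symm
    · rfl
  map_smul' c a := by
    funext i
    rcases i with _ | i
    · exact (mul_zero c).symm
    · rfl

theorem finrank_comap_jo {F ι : Type} [Field F] [Fintype ι] (U : Submodule F (Option ι → F)) :
    Module.finrank F U ≤ Module.finrank F (U.comap (jo F ι)) + 1 := by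
  let π : U →ₗ[F] F :=
    { toFun := fun a => (a : Option ι → F) none
      map_add' := fun a b => rfl
      map_smul' := fun c a => rfl }
  have h1 := π.finrank_range_add_finrank_ker
  have h2 : Module.finrank F (LinearMap.range π) ≤ 1 := by
    refine (Submodule.finrank_le _).trans ?_
    simp
  have h4 : ∀ a : LinearMap.ker π, jo F ι (fun i => ((a : U) : Option ι → F) (some i)) =
      ((a : U) : Option ι → F) := by
    intro a
    funext i
    rcases i with _ | i
    · exact (LinearMap.mem_ker.1 a.2).symm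
    · rfl
  let f : LinearMap.ker π →ₗ[F] (U.comap (jo F ι)) :=
    { toFun := fun a => ⟨fun i => ((a : U) : Option ι → F) (some i), by
        rw [Submodule.mem_comap, h4]
        exact (a : U).2⟩
      map_add' := fun a b => rfl
      map_smul' := fun c a => rfl }
  have hf : Function.Injective f := by
    intro a b hab
    apply Subtype.ext
    apply Subtype.ext
    rw [← h4 a, ← h4 b]
    exact congrArg (jo F ι) (congrArg Subtype.val hab)
  have h3 := LinearMap.finrank_le_finrank_of_injective hf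
  omega

end la

section iso

variable {K Ω ι : Type} [Field K] [CharZero K] [Field Ω] [Algebra (RatFunc K) Ω] [Algebra K Ω]
  [Fintype ι] (d : Dat K Ω ι) {F : Type} [Field F] [Algebra K F]

theorem BF_jo (a : ι → F) (φ : Ω →ₐ[K] F) : d.BF (jo F ι a) (jo F ι a) φ =
    (adr K ((∑ i, C (a i) * (d.κ i).map (algebraMap K F)) ^ 2)).eval (φ (xx K Ω)) := by
  have h1 : (jo F ι a) none = 0 := rfl
  have h2 : d.hp' (jo F ι a) = ∑ i, C (a i) * (d.κ i).map (algebraMap K F) := by
    unfold hp' lk
    rw [h1, zero_mul, C_0, zero_mul, sub_zero]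
    rfl
  unfold BF
  rw [h1, h2, sq]
  simp

theorem iso' (hiso : Y793.St_iso) (φ₁ φ₂ : Ω →ₐ[K] F) (hw : φ₁ (xx K Ω) ≠ φ₂ (xx K Ω))
    (U : Submodule F (Option ι → F)) (hU : ∀ a ∈ U, d.BF a a φ₁ = d.BF a a φ₂) :
    Module.finrank F U < Fintype.card ι := by
  have h1 := finrank_comap_jo U
  have h2 := hiso K F ι d.κ d.k d.hli d.hκ _ _ hw (U.comap (jo F ι)) (fun a ha => by
    have h3 := hU _ (Submodule.mem_comap.1 ha)
    rwa [BF_jo, BF_jo] at h3)
  have h3 := d.hcard
  omega

end iso

section rel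

variable {K Ω ι : Type} [Field K] [CharZero K] [Field Ω] [Algebra (RatFunc K) Ω] [Algebra K Ω]
  [Fintype ι] (d : Dat K Ω ι)
variable {F N : Type} [Field F] [Field N] [Algebra F N] [Algebra K F] [Algebra K N]
  [IsScalarTower K F N]

theorem rel_all (hgen : Y793.St_gen) (v : Option ι → N)
    (halg : Algebra.IsAlgebraic (IntermediateField.adjoin F (Set.range v)) N)
    (U : Submodule F (Option ι → F))
    (hvU : v ∈ Submodule.span N ((fun (c : Option ι → F) (i : Option ι) =>
      algebraMap F N (c i)) '' (U : Set (Option ι → F))))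
    (htr : (Module.finrank F U : Cardinal) ≤ Algebra.trdeg F N) (φ₁ φ₂ : Ω →ₐ[K] F)
    (hrel : d.BF v v ((IsScalarTower.toAlgHom K F N).comp φ₁) =
      d.BF v v ((IsScalarTower.toAlgHom K F N).comp φ₂)) (a : Option ι → F) (ha : a ∈ U) :
    d.BF a a φ₁ = d.BF a a φ₂ := by
  let c : F →ₐ[K] MvPolynomial (Option ι) F :=
    IsScalarTower.toAlgHom K F (MvPolynomial (Option ι) F)
  let f : MvPolynomial (Option ι) F :=
    d.BF MvPolynomial.X MvPolynomial.X (c.comp φ₁) -
    d.BF MvPolynomial.X MvPolynomial.X (c.comp φ₂)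
  have h1 : ∀ (φ : Ω →ₐ[K] F), MvPolynomial.aeval v
      (d.BF MvPolynomial.X MvPolynomial.X (c.comp φ)) =
      d.BF v v ((IsScalarTower.toAlgHom K F N).comp φ) := by
    intro φ
    have h2 := d.BF_map ((MvPolynomial.aeval v : MvPolynomial (Option ι) F →ₐ[F]
      N).restrictScalars K) MvPolynomial.X MvPolynomial.X (c.comp φ)
    simp only [AlgHom.restrictScalars_apply, MvPolynomial.aeval_X] at h2
    rw [h2]
    congr 1
    apply AlgHom.ext
    intro z
    change MvPolynomial.aeval v (algebraMap F _ (φ z)) = algebraMap F N (φ z)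
    exact AlgHom.commutes _ _
  have h1' : ∀ (φ : Ω →ₐ[K] F), MvPolynomial.eval a
      (d.BF MvPolynomial.X MvPolynomial.X (c.comp φ)) = d.BF a a φ := by
    intro φ
    have h2 := d.BF_map ((MvPolynomial.aeval a : MvPolynomial (Option ι) F →ₐ[F]
      F).restrictScalars K) MvPolynomial.X MvPolynomial.X (c.comp φ)
    simp only [AlgHom.restrictScalars_apply, MvPolynomial.aeval_X] at h2
    have h3 : (((MvPolynomial.aeval a : MvPolynomial (Option ι) F →ₐ[F]
      F).restrictScalars K).comp (c.comp φ)) = φ := by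
      apply AlgHom.ext
      intro z
      change MvPolynomial.aeval a (algebraMap F _ (φ z)) = φ z
      exact AlgHom.commutes _ _
    rw [h3] at h2
    rw [← h2]
    exact (RingHom.congr_fun (MvPolynomial.coe_aeval_eq_eval a) _).symm
  have h3 := hgen F N (Option ι) v halg U hvU htr f (by
    rw [map_sub, h1, h1, hrel, sub_self]) a ha
  rw [map_sub, h1', h1', sub_eq_zero] at h3
  exact h3

theorem rel_contra (hgen : Y793.St_gen) (hiso : Y793.St_iso) (v : Option ι → N)
    (halg : Algebra.IsAlgebraic (IntermediateField.adjoin F (Set.range v)) N)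
    (U : Submodule F (Option ι → F))
    (hvU : v ∈ Submodule.span N ((fun (c : Option ι → F) (i : Option ι) =>
      algebraMap F N (c i)) '' (U : Set (Option ι → F))))
    (htr : (Module.finrank F U : Cardinal) ≤ Algebra.trdeg F N)
    (hU : Fintype.card ι ≤ Module.finrank F U) (φ₁ φ₂ : Ω →ₐ[K] F)
    (hw : φ₁ (xx K Ω) ≠ φ₂ (xx K Ω))
    (hrel : d.BF v v ((IsScalarTower.toAlgHom K F N).comp φ₁) =
      d.BF v v ((IsScalarTower.toAlgHom K F N).comp φ₂)) : False := by
  have h1 := d.iso' hiso φ₁ φ₂ hw U (fun a ha =>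
    d.rel_all hgen v halg U hvU htr φ₁ φ₂ hrel a ha)
  omega

end rel

end Dat

end Pool.Agent.K3h17
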