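import Mathlib
import Pool.Agent.K3h17.Fe

set_option autoImplicit false
set_option linter.unusedSectionVars false
set_option linter.unusedSimpArgs false

namespace Pool.Agent.K3h17

open Polynomial Pool.Agent.H391R2 Pool.Agent.Y793

/-- EXT0: extension of an automorphism of a regular extension. -/
theorem ext0 (hext : Y793.St_ext) (hstar : Y793.St_star) {K Ω N : Type} [Field K] [CharZero K]
    [Field Ω] [Algebra (RatFunc K) Ω] [Algebra K Ω]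
    [IsScalarTower K (RatFunc K) Ω] [FiniteDimensional (RatFunc K) Ω] [IsGalois (RatFunc K) Ω]
    [Field N] [IsAlgClosed N] [Algebra K N]
    (hreg : ∀ y : Ω, IsAlgebraic K y → y ∈ Set.range (algebraMap K Ω))
    (F : IntermediateField K N) (φ : Ω →ₐ[K] N) (htr : Transcendental F (φ (xx K Ω)))
    (γ : Ω ≃ₐ[RatFunc K] Ω) : ∃ τ : N ≃ₐ[F] N, ∀ z, τ (φ z) = φ (γ z) := by
  obtain ⟨t₀, ht₀⟩ := hstar K Ω
  obtain ⟨w, hw⟩ := IsAlgClosed.exists_pow_nat_eq (φ (tz K Ω t₀)) (n := 2) (by norm_num)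
  have htz : φ (tz K Ω t₀) = φ (xx K Ω) - algebraMap K N t₀ := by
    rw [tz, map_sub, map_sub]
    have h2 : algebraMap (RatFunc K) Ω (RatFunc.C t₀) = algebraMap K Ω t₀ := by
      rw [← RatFunc.algebraMap_eq_C, ← IsScalarTower.algebraMap_apply]
    rw [h2, φ.commutes]
    rfl
  obtain ⟨τ, hτ, -⟩ := hext K Ω N hreg t₀ ht₀ F φ w hw (by
    intro h1
    apply htr
    have h2 : IsAlgebraic F (w ^ 2) := h1.pow 2
    rw [hw, htz] at h2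
    have h3 : IsAlgebraic F (algebraMap K N t₀) := by
      rw [IsScalarTower.algebraMap_apply K F N]
      exact isAlgebraic_algebraMap _
    have h4 := h2.add h3
    rwa [sub_add_cancel] at h4) γ 1
  exact ⟨τ, hτ⟩

namespace Dat

section pair

variable {K Ω ι : Type} [Field K] [CharZero K] [Field Ω] [Algebra (RatFunc K) Ω] [Algebra K Ω]
  [IsScalarTower K (RatFunc K) Ω] [FiniteDimensional (RatFunc K) Ω] [IsGalois (RatFunc K) Ω]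
  [Fintype ι] (d : Dat K Ω ι)
variable {k₀ N : Type} [Field k₀] [Field N] [Algebra K k₀] [Algebra K N] [Algebra k₀ N]
  [IsScalarTower K k₀ N] [IsAlgClosed N]

theorem pair_trans (hgen : Y793.St_gen) (hiso : Y793.St_iso) (hext : Y793.St_ext)
    (hstar : Y793.St_star)
    (hreg : ∀ y : Ω, IsAlgebraic K y → y ∈ Set.range (algebraMap K Ω)) (η : Iy ι → N)
    (hη : IsTranscendenceBasis k₀ η) {φ₁ φ₂ φ₁' φ₂' : Ω →ₐ[K] N}
    (l₁ : d.Pt η φ₁) (l₂ : d.Pt η φ₂) (l₁' : d.Pt η φ₁') (l₂' : d.Pt η φ₂')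
    (hne : d.Ne' φ₁ φ₂) (hne' : d.Ne' φ₁' φ₂') :
    ∃ σ : N ≃ₐ[k₀] N, (∀ i, σ (η i) = η i) ∧
      (∀ z, σ (φ₁ z) = φ₁' z) ∧ ∀ z, σ (φ₂ z) = φ₂' z := by
  classical
  have hcN : CharZero N := charZero_of_injective_algebraMap (algebraMap K N).injective
  -- the first step
  obtain ⟨ρ, hρ₁, hρ₂⟩ : ∃ ρ : N ≃ₐ[k₀] N, ρ (φ₁ (xx K Ω)) = φ₁' (xx K Ω) ∧
      ρ (φ₂ (xx K Ω)) = φ₂' (xx K Ω) := by
    obtain ⟨e, i₀, he1, hee, hev⟩ := d.two_pts hgen hiso η hη l₁ l₂ hne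
    obtain ⟨e', i₀', he1', hee', hev'⟩ := d.two_pts hgen hiso η hη l₁' l₂' hne'
    have hb := (d.basis₂ η hη l₁ l₂ _ rfl e i₀ he1 hee (hev η hη l₁ l₂)).2
    have hb' := (d.basis₂ η hη l₁' l₂' _ rfl e' i₀' he1' hee' (hev' η hη l₁' l₂')).2
    have hcard : Nat.card {i // i ≠ i₀} = Nat.card {i // i ≠ i₀'} := by
      rw [card_sub, card_sub]
    obtain ⟨ε⟩ : Nonempty ({i // i ≠ i₀} ≃ {i // i ≠ i₀'}) := Finite.card_eq.1 hcard
    have hb'' := (isTranscendenceBasis_equiv ((Equiv.refl (Fin 2)).sumCongr ε)).2 hb'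
    obtain ⟨ρ, hρ⟩ := exists_equiv_basis _ _ hb hb''
    exact ⟨ρ, hρ (Sum.inl 0), hρ (Sum.inl 1)⟩
  -- the correction of one embedding
  have hcorr : ∀ (ψ ψ' : Ω →ₐ[K] N) (v : N), ψ (xx K Ω) = ψ' (xx K Ω) →
      ψ' (xx K Ω) ∉ cl k₀ (Set.range fun _ : Unit => v) →
      ∃ τ : N ≃ₐ[k₀] N, (∀ z, τ (ψ z) = ψ' z) ∧
        ∀ x ∈ cl k₀ (Set.range fun _ : Unit => v), τ x = x := by
    intro ψ ψ' v hψ hwv
    set L := cl k₀ (Set.range fun _ : Unit => v) with hL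
    have hKL : ∀ a : K, algebraMap K N a ∈ L.toSubfield := by
      intro a
      rw [IsScalarTower.algebraMap_apply K k₀ N]
      exact L.algebraMap_mem _
    obtain ⟨γ, hγ⟩ := comp_gal' ψ' ψ hψ
    have htr : Transcendental (L.toSubfield.toIntermediateField hKL) (ψ' (xx K Ω)) := by
      intro h1
      exact hwv (cl_closed h1)
    obtain ⟨τ, hτ1⟩ := ext0 hext hstar hreg (L.toSubfield.toIntermediateField hKL) ψ' htr γ.symm
    have hfix : ∀ x ∈ L, τ x = x := fun x hx =>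
      τ.commutes (⟨x, hx⟩ : L.toSubfield.toIntermediateField hKL)
    refine ⟨AlgEquiv.ofRingEquiv (f := τ.toRingEquiv) fun x => hfix _ (L.algebraMap_mem x),
      fun z => ?_, hfix⟩
    change τ (ψ z) = ψ' z
    rw [hγ, hτ1, AlgEquiv.symm_apply_apply]
  have hn1 : φ₁' (xx K Ω) ∉ cl k₀ (Set.range fun _ : Unit => φ₂' (xx K Ω)) :=
    Ne'.x_ne d hgen hiso η hη l₂' l₁' hne'.symm
  have hn2 : φ₂' (xx K Ω) ∉ cl k₀ (Set.range fun _ : Unit => φ₁' (xx K Ω)) :=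
    Ne'.x_ne d hgen hiso η hη l₁' l₂' hne'
  let ρK : N →ₐ[K] N := (ρ : N →ₐ[k₀] N).restrictScalars K
  obtain ⟨τ₁, a1, a3⟩ := hcorr (ρK.comp φ₁) φ₁' (φ₂' (xx K Ω)) hρ₁ hn1
  obtain ⟨τ₂, b1, b3⟩ := hcorr (ρK.comp φ₂) φ₂' (φ₁' (xx K Ω)) hρ₂ hn2
  let σ₀ : N ≃ₐ[k₀] N := (ρ.trans τ₁).trans τ₂
  have hσ₀ : ∀ x, σ₀ x = τ₂ (τ₁ (ρ x)) := fun x => rfl
  have c1 : ∀ z, σ₀ (φ₁ z) = φ₁' z := by
    intro z
    rw [hσ₀]
    have h1 : τ₁ (ρ (φ₁ z)) = φ₁' z := a1 z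
    rw [h1]
    exact b3 _ (emb_mem' φ₁' _ (fun x hx => cl_closed hx)
      (sub_cl (Set.range fun _ : Unit => φ₁' (xx K Ω)) ⟨(), rfl⟩) z)
  have c2 : ∀ z, σ₀ (φ₂ z) = φ₂' z := by
    intro z
    rw [hσ₀]
    have h1 : τ₁ (ρ (φ₂ z)) = ρ (φ₂ z) := by
      refine a3 _ (emb_mem' (ρK.comp φ₂) _ (fun x hx => cl_closed hx) ?_ z)
      change ρ (φ₂ (xx K Ω)) ∈ _
      rw [hρ₂]
      exact sub_cl (Set.range fun _ : Unit => φ₂' (xx K Ω)) ⟨(), rfl⟩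
    rw [h1]
    exact b1 z
  -- the second step
  have hη' : IsTranscendenceBasis k₀ (fun i => σ₀.symm (η i)) :=
    AlgEquiv.isTranscendenceBasis σ₀.symm hη
  have hpt : ∀ (φ φ' : Ω →ₐ[K] N), d.Pt η φ' → (∀ z, σ₀ (φ z) = φ' z) →
      d.Pt (fun i => σ₀.symm (η i)) φ := by
    intro φ φ' l' h1
    have h3 := d.BF_map ((σ₀.symm : N →ₐ[k₀] N).restrictScalars K)
      (fun i => η (Sum.inl i)) (fun i => η (Sum.inl i)) φ'
    have h4 : ((σ₀.symm : N →ₐ[k₀] N).restrictScalars K).comp φ' = φ := by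
      apply AlgHom.ext
      intro z
      change σ₀.symm (φ' z) = φ z
      rw [← h1, AlgEquiv.symm_apply_apply]
    rw [h4, l'] at h3
    exact h3.symm
  obtain ⟨τ, hτ⟩ := d.move hgen hiso η (fun i => σ₀.symm (η i)) hη hη' l₁ l₂
    (hpt φ₁ φ₁' l₁' c1) (hpt φ₂ φ₂' l₂' c2) hne
  have hfix : ∀ x ∈ cl k₀ (Set.range ![φ₁ (xx K Ω), φ₂ (xx K Ω)]), τ x = x := fun x hx =>
    τ.commutes (⟨x, hx⟩ : cl k₀ (Set.range ![φ₁ (xx K Ω), φ₂ (xx K Ω)]))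
  have m1 : φ₁ (xx K Ω) ∈ cl k₀ (Set.range ![φ₁ (xx K Ω), φ₂ (xx K Ω)]) := sub_cl _ ⟨0, rfl⟩
  have m2 : φ₂ (xx K Ω) ∈ cl k₀ (Set.range ![φ₁ (xx K Ω), φ₂ (xx K Ω)]) := sub_cl _ ⟨1, rfl⟩
  let τ' : N ≃ₐ[k₀] N := AlgEquiv.ofRingEquiv (f := τ.toRingEquiv) fun x =>
    hfix _ ((cl k₀ (Set.range ![φ₁ (xx K Ω), φ₂ (xx K Ω)])).algebraMap_mem x)
  refine ⟨τ'.trans σ₀, fun i => ?_, fun z => ?_, fun z => ?_⟩
  · change σ₀ (τ (η i)) = η i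
    rw [hτ, AlgEquiv.apply_symm_apply]
  · change σ₀ (τ (φ₁ z)) = φ₁' z
    rw [hfix _ (emb_mem' φ₁ _ (fun x hx => cl_closed hx) m1 z), c1]
  · change σ₀ (τ (φ₂ z)) = φ₂' z
    rw [hfix _ (emb_mem' φ₂ _ (fun x hx => cl_closed hx) m2 z), c2]

end pair

end Dat

end Pool.Agent.K3h17
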