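import Mathlib
import Pool.Agent.K3h17.Ff
import Pool.Agent.Y793.Fac
import Pool.Agent.Y793.Fo

set_option autoImplicit false
set_option linter.unusedSectionVars false
set_option linter.unusedSimpArgs false

namespace Pool.Agent.K3h17

open Polynomial Pool.Agent.H391R2 Pool.Agent.Y793

/-! ### The action of automorphisms on labelled points -/

/-- The action of an automorphism on the labelled solutions. -/
def Rx {K Ω N : Type} [Field K] [Field Ω] [Algebra (RatFunc K) Ω] [Algebra K Ω] [Field N]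
    [Algebra K N] {P : Subgroup (Ω ≃ₐ[RatFunc K] Ω)} {n : ℕ}
    (φ : Fin n → (Ω →ₐ[K] N)) (σ : N → N) (x : Wr P n) : Prop :=
  ∀ i z, σ (φ i z) = φ (x.right i) ((x.left (x.right i) : Ω ≃ₐ[RatFunc K] Ω) z)

section rl

variable {K Ω N : Type} [Field K] [Field Ω] [Algebra (RatFunc K) Ω] [Algebra K Ω] [Field N]
    [Algebra K N] {P : Subgroup (Ω ≃ₐ[RatFunc K] Ω)} {n : ℕ}
    {φ : Fin n → (Ω →ₐ[K] N)}

theorem Rx.mul {σ τ : N → N} {x y : Wr P n} (h1 : Rx φ σ x) (h2 : Rx φ τ y) :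
    Rx φ (fun a => σ (τ a)) (x * y) := by
  intro i z
  change σ (τ (φ i z)) = _
  rw [h2 i, h1 _, wr_mul_left, wr_mul_right]
  have h3 : x.right⁻¹ ((x.right * y.right) i) = y.right i := by simp
  rw [h3]
  rfl

theorem Rx.inv {σ τ : N → N} (hστ : ∀ a, τ (σ a) = a) {x : Wr P n} (h1 : Rx φ σ x) :
    Rx φ τ x⁻¹ := by
  intro i z
  obtain ⟨j, rfl⟩ := x.right.surjective i
  have h3 : x⁻¹.right (x.right j) = j := by simp
  rw [h3, wr_inv_left]
  have h2 := h1 j (((x.left (x.right j) : Ω ≃ₐ[RatFunc K] Ω))⁻¹ z)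
  have h4 : ((x.left (x.right j) : Ω ≃ₐ[RatFunc K] Ω))
      (((x.left (x.right j) : Ω ≃ₐ[RatFunc K] Ω))⁻¹ z) = z := by
    change (((x.left (x.right j) : Ω ≃ₐ[RatFunc K] Ω)) *
      ((x.left (x.right j) : Ω ≃ₐ[RatFunc K] Ω))⁻¹) z = z
    rw [mul_inv_cancel]
    rfl
  rw [h4] at h2
  rw [← h2, hστ]
  rfl

theorem Rx.one : Rx φ (fun a : N => a) (1 : Wr P n) := fun _ _ => rfl

/-- The element of the wreath product given by a permutation and labels. -/
def mkW (π : Equiv.Perm (Fin n)) (γ : Fin n → P) : Wr P n := ⟨fun j => γ (π.symm j), π⟩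

theorem Rx.mk {σ : N → N} (π : Equiv.Perm (Fin n)) (γ : Fin n → P)
    (h : ∀ i z, σ (φ i z) = φ (π i) ((γ i : Ω ≃ₐ[RatFunc K] Ω) z)) : Rx φ σ (mkW π γ) := by
  intro i z
  change σ (φ i z) = φ (π i) ((γ (π.symm (π i)) : Ω ≃ₐ[RatFunc K] Ω) z)
  rw [Equiv.symm_apply_apply]
  exact h i z

end rl

namespace Dat

section pts

variable {K Ω ι : Type} [Field K] [CharZero K] [Field Ω] [Algebra (RatFunc K) Ω] [Algebra K Ω]
  [IsScalarTower K (RatFunc K) Ω] [FiniteDimensional (RatFunc K) Ω] [IsGalois (RatFunc K) Ω]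
  [Fintype ι] (d : Dat K Ω ι)
variable {k₀ N : Type} [Field k₀] [Field N] [Algebra K k₀] [Algebra K N] [Algebra k₀ N]
  [IsScalarTower K k₀ N]

/-- A complete family of inequivalent points. -/
structure Sy (η : Iy ι → N) (n : ℕ) (φ : Fin n → (Ω →ₐ[K] N)) : Prop where
  pt : ∀ i, d.Pt η (φ i)
  ne : ∀ i j, ∀ γ ∈ d.P, (∀ z, φ i z = φ j (γ z)) → i = j
  ex : ∀ φ', d.Pt η φ' → ∃ i, ∃ γ ∈ d.P, ∀ z, φ' z = φ i (γ z)

variable (η : Iy ι → N) (hη : IsTranscendenceBasis k₀ η)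

include hη

omit [IsScalarTower K k₀ N] in
theorem η_ne (i : Iy ι) : η i ≠ 0 := hη.1.ne_zero i

theorem PP_ne : d.PP (fun i => η (Sum.inl i)) (η (Sum.inr ())) ≠ 0 := by
  intro h0
  have h1 := d.PP_deg (fun i => η (Sum.inl i)) (η (Sum.inr ())) (η_ne η hη _)
  rw [h0, natDegree_zero] at h1
  have h2 := d.hm0
  have h3 : 0 < d.m * (2 * d.k + 1) := Nat.mul_pos h2 (Nat.succ_pos _)
  omega

theorem x_inj (hgen : Y793.St_gen) (hiso : Y793.St_iso) {n : ℕ} (φ : Fin n → (Ω →ₐ[K] N))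
    (hp : ∀ i, d.Pt η (φ i)) (hne : ∀ i j, ∀ γ ∈ d.P, (∀ z, φ i z = φ j (γ z)) → i = j) :
    Function.Injective fun i => φ i (xx K Ω) := by
  intro i j hij
  obtain ⟨γ, hγ, h⟩ := d.sep η hη hgen hiso (φ j) (φ i) (hp j) (hp i) (by
    change φ i (xx K Ω) = φ j (xx K Ω) at hij
    rw [hij]
    exact sub_cl _ ⟨(), rfl⟩)
  exact hne i j γ hγ h

/-- The upper bound for the number of points. -/
theorem upper (hgen : Y793.St_gen) (hiso : Y793.St_iso) {n : ℕ} (φ : Fin n → (Ω →ₐ[K] N))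
    (hp : ∀ i, d.Pt η (φ i)) (hne : ∀ i j, ∀ γ ∈ d.P, (∀ z, φ i z = φ j (γ z)) → i = j) :
    n ≤ d.m * (2 * d.k + 1) := by
  classical
  have h1 := d.x_inj η hη hgen hiso φ hp hne
  have h2 : (Finset.univ.image fun i => φ i (xx K Ω)) ⊆
      (d.PP (fun i => η (Sum.inl i)) (η (Sum.inr ()))).roots.toFinset := by
    intro x hx
    obtain ⟨i, -, rfl⟩ := Finset.mem_image.1 hx
    rw [Multiset.mem_toFinset, mem_roots (d.PP_ne η hη)]
    have h3 := d.root (fun i => η (Sum.inl i)) (φ i)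
    rw [hp i] at h3
    exact h3
  have h3 := Finset.card_le_card h2
  rw [Finset.card_image_of_injective _ h1, Finset.card_univ, Fintype.card_fin] at h3
  have h4 := Multiset.toFinset_card_le (d.PP (fun i => η (Sum.inl i)) (η (Sum.inr ()))).roots
  have h5 := card_roots' (d.PP (fun i => η (Sum.inl i)) (η (Sum.inr ())))
  rw [d.PP_deg _ _ (η_ne η hη _)] at h5
  omega

omit [IsScalarTower K k₀ N] hη in
theorem ne_symm {φ₁ φ₂ : Ω →ₐ[K] N} {γ : Ω ≃ₐ[RatFunc K] Ω} (hγ : γ ∈ d.P)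
    (h : ∀ z, φ₁ z = φ₂ (γ z)) : ∃ γ' ∈ d.P, ∀ z, φ₂ z = φ₁ (γ' z) := by
  refine ⟨γ⁻¹, inv_mem hγ, fun z => ?_⟩
  rw [h]
  congr 1
  exact (γ.apply_symm_apply z).symm

/-- A family of the maximal size is complete. -/
theorem sy_of (hgen : Y793.St_gen) (hiso : Y793.St_iso)
    (φ : Fin (d.m * (2 * d.k + 1)) → (Ω →ₐ[K] N))
    (hp : ∀ i, d.Pt η (φ i)) (hne : ∀ i j, ∀ γ ∈ d.P, (∀ z, φ i z = φ j (γ z)) → i = j) :
    d.Sy η _ φ := by
  refine ⟨hp, hne, fun φ' hφ' => ?_⟩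
  by_contra hcon
  push Not at hcon
  have h1 := d.upper η hη hgen hiso (Fin.cons φ' φ : Fin (d.m * (2 * d.k + 1) + 1) → _) ?_ ?_
  · omega
  · intro i
    refine Fin.cases ?_ (fun i => ?_) i
    · rw [Fin.cons_zero]
      exact hφ'
    · rw [Fin.cons_succ]
      exact hp i
  · intro i j γ hγ h
    revert h
    refine Fin.cases ?_ (fun i => ?_) i
    · refine Fin.cases ?_ (fun j => ?_) j
      · intro _
        rfl
      · intro h
        simp only [Fin.cons_zero, Fin.cons_succ] at h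
        obtain ⟨z, hz⟩ := hcon j γ hγ
        exact absurd (h z) hz
    · refine Fin.cases ?_ (fun j => ?_) j
      · intro h
        simp only [Fin.cons_zero, Fin.cons_succ] at h
        obtain ⟨γ', hγ', h'⟩ := d.ne_symm hγ h
        obtain ⟨z, hz⟩ := hcon i γ' hγ'
        exact absurd (h' z) hz
      · intro h
        simp only [Fin.cons_succ] at h
        rw [hne i j γ hγ h]

omit [IsScalarTower K k₀ N] [Field k₀] [Algebra K k₀] [Algebra k₀ N] hη in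
/-- Automorphisms act on the labelled points. -/
theorem exists_x0 {n : ℕ}
    {φ : Fin n → (Ω →ₐ[K] N)} (S : d.Sy η n φ) (σ : N ≃ₐ[K] N)
    (hσ : ∀ i, σ (η i) = η i) : ∃ x : Wr d.P n, Rx φ σ x := by
  have hstep : ∀ i, ∃ j, ∃ γ : d.P, ∀ z, σ (φ i z) = φ j ((γ : Ω ≃ₐ[RatFunc K] Ω) z) := by
    intro i
    have p : d.Pt η ((σ : N →ₐ[K] N).comp (φ i)) := by
      have h3 := d.BF_map (σ : N →ₐ[K] N) (fun i => η (Sum.inl i)) (fun i => η (Sum.inl i)) (φ i)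
      rw [S.pt i] at h3
      have h4 : (fun i => (σ : N →ₐ[K] N) (η (Sum.inl i))) = fun i : Option ι => η (Sum.inl i) :=
        funext fun i => hσ _
      rw [h4] at h3
      have h5 : (σ : N →ₐ[K] N) (η (Sum.inr ())) = η (Sum.inr ()) := hσ _
      rw [h5] at h3
      exact h3.symm
    obtain ⟨j, γ, hγ, h⟩ := S.ex _ p
    exact ⟨j, ⟨γ, hγ⟩, h⟩
  choose π γ hγ using hstep
  have hπinj : Function.Injective π := by
    intro i j hij
    refine S.ne i j (((γ j)⁻¹ * γ i : d.P) : Ω ≃ₐ[RatFunc K] Ω) ((γ j)⁻¹ * γ i).2 fun z => ?_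
    apply σ.injective
    rw [hγ, hγ, hij]
    congr 1
    exact ((γ j : Ω ≃ₐ[RatFunc K] Ω).apply_symm_apply ((γ i : Ω ≃ₐ[RatFunc K] Ω) z)).symm
  let π' : Equiv.Perm (Fin n) := Equiv.ofBijective π (Finite.injective_iff_bijective.1 hπinj)
  exact ⟨mkW π' γ, Rx.mk π' γ hγ⟩

end pts

end Dat

end Pool.Agent.K3h17
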