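import Mathlib
import Pool.Agent.K3h17.Fg

set_option autoImplicit false
set_option linter.unusedSectionVars false
set_option linter.unusedSimpArgs false

namespace Pool.Agent.K3h17

open Polynomial Pool.Agent.H391R2 Pool.Agent.Y793

namespace Dat

section der

variable {K Ω ι : Type} [Field K] [CharZero K] [Field Ω] [Algebra (RatFunc K) Ω] [Algebra K Ω]
  [IsScalarTower K (RatFunc K) Ω] [FiniteDimensional (RatFunc K) Ω] [IsGalois (RatFunc K) Ω]
  [Fintype ι] (d : Dat K Ω ι)

theorem aev_ne {q : K[X]} (hq : q ≠ 0) : aeval (xx K Ω) q ≠ 0 := fun h =>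
  hq (transcendental_iff.1 (xx_trans (AlgHom.id K Ω)) _ h)

theorem δ_aev (q : K[X]) : d.δ (aeval (xx K Ω) q) = aeval (xx K Ω) (derivative q) := by
  rw [Derivation.map_aeval, d.hδx, smul_eq_mul, mul_one]

/-- The derivative of an element in terms of its matrix. -/
theorem tr_id (z : Ω) (a : Fin d.m → Fin d.m → K[X]) (ha : ∀ r s, a r s = a s r)
    (hz : ∀ r, z * d.e r = aeval (xx K Ω) (d.D r) * ∑ s, aeval (xx K Ω) (a r s) * d.e s) :
    ∑ r, ∑ s, aeval (xx K Ω) (derivative (d.D r)) / aeval (xx K Ω) (d.D r) * d.e r *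
      aeval (xx K Ω) (a r s) * d.e s +
      ∑ r, ∑ s, aeval (xx K Ω) (derivative (a r s)) * d.e r * d.e s = d.δ z := by
  have hD : ∀ r, aeval (xx K Ω) (d.D r) ≠ 0 := fun r => aev_ne (d.hD r)
  have h1 : ∀ r, z * d.δ (d.e r) + d.e r * d.δ z =
      aeval (xx K Ω) (d.D r) * (∑ s, (aeval (xx K Ω) (a r s) * d.δ (d.e s) +
        d.e s * aeval (xx K Ω) (derivative (a r s)))) +
      (∑ s, aeval (xx K Ω) (a r s) * d.e s) * aeval (xx K Ω) (derivative (d.D r)) := by
    intro r
    have h2 := congrArg d.δ (hz r)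
    rw [Derivation.leibniz, Derivation.leibniz, map_sum, δ_aev] at h2
    simp only [Derivation.leibniz, δ_aev, smul_eq_mul] at h2
    exact h2
  have h3 : ∀ r, z * d.e r / aeval (xx K Ω) (d.D r) = ∑ s, aeval (xx K Ω) (a r s) * d.e s := by
    intro r
    rw [hz, mul_div_cancel_left₀ _ (hD r)]
  have h4 : ∀ r, d.e r ^ 2 / aeval (xx K Ω) (d.D r) * d.δ z =
      ∑ s, aeval (xx K Ω) (derivative (d.D r)) / aeval (xx K Ω) (d.D r) * d.e r *
        aeval (xx K Ω) (a r s) * d.e s +
      ∑ s, aeval (xx K Ω) (derivative (a r s)) * d.e r * d.e s +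
      (∑ s, aeval (xx K Ω) (a r s) * d.e r * d.δ (d.e s) -
        ∑ s, aeval (xx K Ω) (a r s) * d.e s * d.δ (d.e r)) := by
    intro r
    have e1 : ∑ s, aeval (xx K Ω) (derivative (d.D r)) / aeval (xx K Ω) (d.D r) * d.e r *
        aeval (xx K Ω) (a r s) * d.e s =
        aeval (xx K Ω) (derivative (d.D r)) / aeval (xx K Ω) (d.D r) * d.e r *
          ∑ s, aeval (xx K Ω) (a r s) * d.e s := by
      rw [Finset.mul_sum]
      exact Finset.sum_congr rfl fun s _ => by ring
    have e2 : ∑ s, aeval (xx K Ω) (derivative (a r s)) * d.e r * d.e s =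
        d.e r * ∑ s, d.e s * aeval (xx K Ω) (derivative (a r s)) := by
      rw [Finset.mul_sum]
      exact Finset.sum_congr rfl fun s _ => by ring
    have e3 : ∑ s, aeval (xx K Ω) (a r s) * d.e r * d.δ (d.e s) =
        d.e r * ∑ s, aeval (xx K Ω) (a r s) * d.δ (d.e s) := by
      rw [Finset.mul_sum]
      exact Finset.sum_congr rfl fun s _ => by ring
    have e4 : ∑ s, aeval (xx K Ω) (a r s) * d.e s * d.δ (d.e r) =
        (∑ s, aeval (xx K Ω) (a r s) * d.e s) * d.δ (d.e r) := by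
      rw [Finset.sum_mul]
    have h5 := h1 r
    rw [Finset.sum_add_distrib] at h5
    rw [e1, e2, e3, e4]
    have h6 := hz r
    field_simp [hD r]
    linear_combination d.e r * h5 - (d.δ (d.e r)) * h6
  have h5 : (∑ r, d.e r ^ 2 / aeval (xx K Ω) (d.D r)) * d.δ z = d.δ z := by
    rw [d.hsum, one_mul]
  rw [Finset.sum_mul] at h5
  simp only [h4] at h5
  rw [Finset.sum_add_distrib, Finset.sum_add_distrib, Finset.sum_sub_distrib] at h5
  have h6 : ∑ r, ∑ s, aeval (xx K Ω) (a r s) * d.e r * d.δ (d.e s) =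
      ∑ r, ∑ s, aeval (xx K Ω) (a r s) * d.e s * d.δ (d.e r) := by
    rw [Finset.sum_comm]
    refine Finset.sum_congr rfl fun r _ => Finset.sum_congr rfl fun s _ => ?_
    rw [ha s r]
  rw [h6, sub_self, add_zero] at h5
  exact h5

variable {N : Type} [Field N] [Algebra K N]

omit [Field K] [CharZero K] [Field Ω] [Algebra (RatFunc K) Ω] [Algebra K Ω]
  [IsScalarTower K (RatFunc K) Ω] [FiniteDimensional (RatFunc K) Ω] [IsGalois (RatFunc K) Ω] 
  [Algebra K N] in
theorem sum_id {m : ℕ} (A C : Fin m → Fin m → N) (B : ι → Fin m → Fin m → N)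
    (b : Fin m → Fin m → N) (c : ι → N) (c' : N) :
    ∑ r, ∑ s, A r s * (∑ i, c i * B i r s + c' * b r s) * C r s =
      ∑ i, c i * ∑ r, ∑ s, A r s * B i r s * C r s + c' * ∑ r, ∑ s, A r s * b r s * C r s := by
  have e1 : ∀ r s, A r s * (∑ i, c i * B i r s + c' * b r s) * C r s =
      ∑ i, c i * (A r s * B i r s * C r s) + c' * (A r s * b r s * C r s) := by
    intro r s
    rw [mul_add, add_mul, Finset.mul_sum, Finset.sum_mul]
    refine congrArg₂ (· + ·) (Finset.sum_congr rfl fun i _ => ?_) ?_ <;> ring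
  simp only [e1, Finset.sum_add_distrib, Finset.mul_sum]
  refine congrArg₂ (· + ·) ?_ rfl
  rw [Finset.sum_congr rfl (fun r _ => Finset.sum_comm), Finset.sum_comm]

/-- The relation between the derivative and the linear form. -/
theorem derf (v : Option ι → N) (φ : Ω →ₐ[K] N) :
    (derivative (d.SS v)).eval (φ (xx K Ω)) *
      ∑ r, φ (d.e r) ^ 2 / ((d.D r).map (algebraMap K N)).eval (φ (xx K Ω)) +
    ∑ r, ∑ s, (derivative ((d.D r).map (algebraMap K N))).eval (φ (xx K Ω)) /
      ((d.D r).map (algebraMap K N)).eval (φ (xx K Ω)) * φ (d.e r) *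
      (d.AA v r s).eval (φ (xx K Ω)) * φ (d.e s) +
    ∑ r, ∑ s, (derivative (d.AA v r s)).eval (φ (xx K Ω)) * φ (d.e r) * φ (d.e s) =
    d.kc v φ ^ 2 := by
  have h1 : ∑ r, φ (d.e r) ^ 2 / ((d.D r).map (algebraMap K N)).eval (φ (xx K Ω)) = 1 := by
    rw [← map_one φ, ← d.hsum, map_sum]
    refine Finset.sum_congr rfl fun r _ => ?_
    rw [map_div₀, map_pow, map_aev]
  have key : ∀ (z : Ω) (a : Fin d.m → Fin d.m → K[X]), (∀ r s, a r s = a s r) →
      (∀ r, z * d.e r = aeval (xx K Ω) (d.D r) * ∑ s, aeval (xx K Ω) (a r s) * d.e s) →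
      ∑ r, ∑ s, ((derivative (d.D r)).map (algebraMap K N)).eval (φ (xx K Ω)) /
        ((d.D r).map (algebraMap K N)).eval (φ (xx K Ω)) * φ (d.e r) *
        ((a r s).map (algebraMap K N)).eval (φ (xx K Ω)) * φ (d.e s) +
      ∑ r, ∑ s, ((derivative (a r s)).map (algebraMap K N)).eval (φ (xx K Ω)) * φ (d.e r) *
        φ (d.e s) = φ (d.δ z) := by
    intro z a ha hz
    rw [← d.tr_id z a ha hz, map_add, map_sum, map_sum]
    simp only [map_sum, map_mul, map_div₀, map_aev]
  have h2 : ∀ r s, (d.AA v r s).eval (φ (xx K Ω)) =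
      ∑ i, (2 * v none * v (some i)) * ((d.aW i r s).map (algebraMap K N)).eval (φ (xx K Ω)) +
      v none ^ 2 * ((d.aH r s).map (algebraMap K N)).eval (φ (xx K Ω)) := by
    intro r s
    simp only [AA, eval_add, eval_finsetSum, eval_mul, eval_C]
  have h3 : ∀ r s, (derivative (d.AA v r s)).eval (φ (xx K Ω)) =
      ∑ i, (2 * v none * v (some i)) *
        ((derivative (d.aW i r s)).map (algebraMap K N)).eval (φ (xx K Ω)) +
      v none ^ 2 * ((derivative (d.aH r s)).map (algebraMap K N)).eval (φ (xx K Ω)) := by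
    intro r s
    simp only [AA, derivative_add, derivative_sum, derivative_C_mul, derivative_map, eval_add,
      eval_finsetSum, eval_mul, eval_C]
  have h4 : ∑ r, ∑ s, (derivative ((d.D r).map (algebraMap K N))).eval (φ (xx K Ω)) /
      ((d.D r).map (algebraMap K N)).eval (φ (xx K Ω)) * φ (d.e r) *
      (d.AA v r s).eval (φ (xx K Ω)) * φ (d.e s) +
    ∑ r, ∑ s, (derivative (d.AA v r s)).eval (φ (xx K Ω)) * φ (d.e r) * φ (d.e s) =
    ∑ i, (2 * v none * v (some i)) * φ (d.δ (d.W i)) + v none ^ 2 * φ (d.δ d.H) := by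
    have h5 : ∀ i, (2 * v none * v (some i)) * φ (d.δ (d.W i)) = (2 * v none * v (some i)) *
        (∑ r, ∑ s, ((derivative (d.D r)).map (algebraMap K N)).eval (φ (xx K Ω)) /
        ((d.D r).map (algebraMap K N)).eval (φ (xx K Ω)) * φ (d.e r) *
        ((d.aW i r s).map (algebraMap K N)).eval (φ (xx K Ω)) * φ (d.e s)) +
        (2 * v none * v (some i)) *
        ∑ r, ∑ s, ((derivative (d.aW i r s)).map (algebraMap K N)).eval (φ (xx K Ω)) *
          φ (d.e r) * φ (d.e s) := by
      intro i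
      rw [← mul_add, key (d.W i) (d.aW i) (d.haWs i) (d.haW i)]
    rw [Finset.sum_congr rfl fun i _ => h5 i, ← key d.H d.aH d.haHs d.haH, mul_add,
      Finset.sum_add_distrib]
    simp only [h2, h3, derivative_map]
    have h6 := sum_id (m := d.m) (ι := ι) (N := N)
    have h7 := h6 (fun r _ => ((derivative (d.D r)).map (algebraMap K N)).eval (φ (xx K Ω)) /
        ((d.D r).map (algebraMap K N)).eval (φ (xx K Ω)) * φ (d.e r)) (fun _ s => φ (d.e s))
      (fun i r s => ((d.aW i r s).map (algebraMap K N)).eval (φ (xx K Ω)))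
      (fun r s => ((d.aH r s).map (algebraMap K N)).eval (φ (xx K Ω)))
      (fun i => 2 * v none * v (some i)) (v none ^ 2)
    have h8 := h6 (fun _ _ => 1) (fun r s => φ (d.e r) * φ (d.e s))
      (fun i r s => ((derivative (d.aW i r s)).map (algebraMap K N)).eval (φ (xx K Ω)))
      (fun r s => ((derivative (d.aH r s)).map (algebraMap K N)).eval (φ (xx K Ω)))
      (fun i => 2 * v none * v (some i)) (v none ^ 2)
    simp only [one_mul, ← mul_assoc] at h7 h8 ⊢
    rw [h7, h8]
    exact add_add_add_comm _ _ _ _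
  rw [h1, mul_one, add_assoc, h4, derivative_SS, d.hH]
  have h5 : ∀ i, φ (d.δ (d.W i)) = ((d.κ i).map (algebraMap K N)).eval (φ (xx K Ω)) * φ d.y := by
    intro i
    rw [d.hW, map_mul, map_aev]
  simp only [h5, map_sub, map_mul, map_pow, map_aev]
  have h6 : ∑ i, (2 * v none * v (some i)) *
      (((d.κ i).map (algebraMap K N)).eval (φ (xx K Ω)) * φ d.y) =
      2 * v none * (d.lk v).eval (φ (xx K Ω)) * φ d.y := by
    unfold lk
    rw [eval_finsetSum, Finset.mul_sum, Finset.sum_mul]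
    refine Finset.sum_congr rfl fun i _ => ?_
    rw [eval_mul, eval_C]
    ring
  rw [h6]
  unfold kc hp'
  simp only [eval_mul, eval_sub, eval_C]
  have h7 : (2 : N) * algebraMap K N (1 / 2) = 1 := by
    rw [← map_ofNat (algebraMap K N) 2, ← map_mul]
    norm_num
  linear_combination (v none ^ 2 * (d.p.map (algebraMap K N)).eval (φ (xx K Ω)) * φ d.y) * h7

end der

end Dat

end Pool.Agent.K3h17
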