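import Mathlib
import Pool.Agent.K3h17.Fk

set_option autoImplicit false
set_option linter.unusedSectionVars false
set_option linter.unusedSimpArgs false

namespace Pool.Agent.K3h17

open Polynomial Pool.Agent.H391R2 Pool.Agent.Y793

section alg

variable {K₀ N E : Type} [Field K₀] [Field N] [IsAlgClosed N] [Algebra K₀ N] [Field E]
  [Algebra K₀ E] (j : N →ₐ[K₀] E)

theorem range_closed {x : E} (hx : IsAlgebraic j.fieldRange x) : x ∈ j.fieldRange := by
  have h1 : IsAlgClosed j.fieldRange := by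
    have e : N ≃ₐ[K₀] j.fieldRange := AlgEquiv.ofInjectiveField j
    exact IsAlgClosed.of_ringEquiv N _ e.toRingEquiv
  exact mem_of_alg j.fieldRange hx

theorem root_mem {f : N[X]} (hf : f ≠ 0) {x : E} (hx : (f.map (j : N →+* E)).eval x = 0) :
    x ∈ j.fieldRange := by
  apply range_closed
  let e : N ≃ₐ[K₀] j.fieldRange := AlgEquiv.ofInjectiveField j
  refine ⟨f.map (e : N →+* j.fieldRange), ?_, ?_⟩
  · exact (Polynomial.map_ne_zero_iff e.injective).2 hf
  · rw [aeval_def, eval₂_map]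
    rw [eval_map] at hx
    exact hx

/-- An automorphism of the big field fixing the parameters induces an automorphism. -/
theorem restrict_aut {J : Type} (η : J → N) (hη : IsTranscendenceBasis K₀ η) (σ : E ≃ₐ[K₀] E)
    (hσ : ∀ i, σ (j (η i)) = j (η i)) :
    ∃ τ : N ≃ₐ[K₀] N, (∀ z, j (τ z) = σ (j z)) ∧ ∀ i, τ (η i) = η i := by
  let e : N ≃ₐ[K₀] j.fieldRange := AlgEquiv.ofInjectiveField j
  have hje : ∀ x, j x = (e x : E) := fun x => rfl
  have key : ∀ (σ : E ≃ₐ[K₀] E), (∀ i, σ (j (η i)) = j (η i)) → ∀ z, σ (j z) ∈ j.fieldRange := by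
    intro σ hσ z
    let F' : IntermediateField K₀ N := (j.fieldRange.comap ((σ : E →ₐ[K₀] E).comp j))
    have h1 : z ∈ F' := by
      refine basis_top η hη F' (fun x => F'.algebraMap_mem x) (fun v => ?_) (fun y hy => ?_) z
      · change σ (j (η v)) ∈ j.fieldRange
        rw [hσ]
        exact ⟨η v, rfl⟩
      · change σ (j y) ∈ j.fieldRange
        apply range_closed
        obtain ⟨p, hp, hp0⟩ := hy
        let g : F' →+* j.fieldRange :=
          { toFun := fun x => ⟨σ (j x), x.2⟩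
            map_one' := Subtype.ext (by simp)
            map_mul' := fun a b => Subtype.ext (by simp)
            map_zero' := Subtype.ext (by simp)
            map_add' := fun a b => Subtype.ext (by simp) }
        refine ⟨p.map g, (Polynomial.map_ne_zero_iff g.injective).2 hp, ?_⟩
        rw [aeval_def, eval₂_map]
        have h2 := Polynomial.hom_eval₂ p (algebraMap F' N)
          (((σ : E →ₐ[K₀] E).comp j : N →ₐ[K₀] E) : N →+* E) y
        rw [← aeval_def, hp0, map_zero] at h2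
        exact h2.symm
    exact h1
  have hσ' : ∀ i, σ.symm (j (η i)) = j (η i) := fun i => by
    rw [AlgEquiv.symm_apply_eq, hσ]
  let τ : N →ₐ[K₀] N := (e.symm : j.fieldRange →ₐ[K₀] N).comp
    (AlgHom.codRestrict ((σ : E →ₐ[K₀] E).comp j) j.fieldRange.toSubalgebra (key σ hσ))
  let τ' : N →ₐ[K₀] N := (e.symm : j.fieldRange →ₐ[K₀] N).comp
    (AlgHom.codRestrict ((σ.symm : E →ₐ[K₀] E).comp j) j.fieldRange.toSubalgebra
      (key σ.symm hσ'))
  have hτ : ∀ z, j (τ z) = σ (j z) := by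
    intro z
    rw [hje]
    change ((e (e.symm ⟨σ (j z), key σ hσ z⟩) : j.fieldRange) : E) = _
    rw [AlgEquiv.apply_symm_apply]
  have hτ' : ∀ z, j (τ' z) = σ.symm (j z) := by
    intro z
    rw [hje]
    change ((e (e.symm ⟨σ.symm (j z), key σ.symm hσ' z⟩) : j.fieldRange) : E) = _
    rw [AlgEquiv.apply_symm_apply]
  refine ⟨AlgEquiv.ofAlgHom τ τ' ?_ ?_, hτ, fun i => j.injective ((hτ _).trans (hσ i))⟩
  · apply AlgHom.ext
    intro z
    apply j.injective
    change j (τ (τ' z)) = j z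
    rw [hτ, hτ', AlgEquiv.apply_symm_apply]
  · apply AlgHom.ext
    intro z
    apply j.injective
    change j (τ' (τ z)) = j z
    rw [hτ', hτ, AlgEquiv.symm_apply_apply]

end alg

namespace Dat

section desc

variable {K Ω ι : Type} [Field K] [CharZero K] [Field Ω] [Algebra (RatFunc K) Ω] [Algebra K Ω]
  [IsScalarTower K (RatFunc K) Ω] [FiniteDimensional (RatFunc K) Ω] [IsGalois (RatFunc K) Ω]
  [Fintype ι] (d : Dat K Ω ι)
variable {K₀ N E : Type} [Field K₀] [Algebra K K₀] [Field N] [IsAlgClosed N] [Algebra K₀ N]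
  [Algebra K N] [IsScalarTower K K₀ N] [Field E] [Algebra K₀ E] [Algebra K E]
  [IsScalarTower K K₀ E] (η : Iy ι → N) (hη : IsTranscendenceBasis K₀ η) (j : N →ₐ[K₀] E)

include hη

/-- Descent of a point. -/
theorem descend (φ' : Ω →ₐ[K] E)
    (h : d.BF (fun i => j (η (Sum.inl i))) (fun i => j (η (Sum.inl i))) φ' = j (η (Sum.inr ()))) :
    ∃ φ : Ω →ₐ[K] N, (∀ z, j (φ z) = φ' z) ∧ d.Pt η φ := by
  let e : N ≃ₐ[K₀] j.fieldRange := AlgEquiv.ofInjectiveField j
  have hje : ∀ x, j x = (e x : E) := fun x => rfl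
  have h1 := d.root (fun i => j (η (Sum.inl i))) φ'
  rw [h] at h1
  have h2 := d.PP_map (j.restrictScalars K) (fun i => η (Sum.inl i)) (η (Sum.inr ()))
  have h3 : φ' (xx K Ω) ∈ j.fieldRange := by
    refine root_mem j (d.PP_ne η hη) ?_
    change (d.PP (fun i => η (Sum.inl i)) (η (Sum.inr ()))).map (j : N →+* E) = _ at h2
    rw [h2]
    exact h1
  have h4 : ∀ z, φ' z ∈ j.fieldRange := emb_mem' φ' j.fieldRange (fun x hx => range_closed j hx) h3
  let φ : Ω →ₐ[K] N := ((e.symm : j.fieldRange →ₐ[K₀] N).restrictScalars K).comp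
    (cod j.fieldRange φ' h4)
  have h5 : ∀ z, j (φ z) = φ' z := by
    intro z
    rw [hje]
    change ((e (e.symm ⟨φ' z, h4 z⟩) : j.fieldRange) : E) = _
    rw [AlgEquiv.apply_symm_apply]
  refine ⟨φ, h5, ?_⟩
  apply j.injective
  have h6 := d.BF_map (j.restrictScalars K) (fun i => η (Sum.inl i)) (fun i => η (Sum.inl i)) φ
  have h7 : (j.restrictScalars K).comp φ = φ' := AlgHom.ext h5
  rw [h7] at h6
  exact h6.trans h

end desc

section deg

variable {K Ω ι : Type} [Field K] [CharZero K] [Field Ω] [Algebra (RatFunc K) Ω] [Algebra K Ω]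
  [IsScalarTower K (RatFunc K) Ω] [FiniteDimensional (RatFunc K) Ω] [IsGalois (RatFunc K) Ω]
  [Fintype ι] (d : Dat K Ω ι)
variable {K₀ k : Type} [Field K₀] [Algebra K K₀] [Field k] [IsAlgClosed k] [Algebra K₀ k]
  [Algebra K k] [IsScalarTower K K₀ k] (c : ι ⊕ Unit → k) (hc : AlgebraicIndependent K₀ c)

/-- A point of the degenerate family. -/
def SPt (Φ : Ω →ₐ[K] k) : Prop := (d.SS (cS c)).eval (Φ (xx K Ω)) = c (Sum.inr ())

include hc

theorem cS_mem (o : Option ι) : cS c o ∈ cl K₀ (c '' (Set.range Sum.inl)) := by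
  rcases o with _ | i
  · exact IntermediateField.zero_mem _
  · exact sub_cl _ ⟨Sum.inl i, ⟨i, rfl⟩, rfl⟩

theorem c_ne : cS c (some d.i₁) ≠ 0 := hc.ne_zero _

theorem S_root_not_mem' {x : k} (hx : (d.SS (cS c)).eval x = c (Sum.inr ())) :
    x ∉ cl K₀ (c '' (Set.range Sum.inl)) := by
  intro h1
  refine not_mem_cl hc (s := Set.range Sum.inl) (i := Sum.inr ()) (by simp) ?_
  rw [← hx]
  exact d.SS_eval_mem _ _ (cS_mem c hc) h1

theorem hp_ne {x : k} (hx : (d.SS (cS c)).eval x = c (Sum.inr ())) :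
    (d.hp' (cS c)).eval x ≠ 0 := fun h0 =>
  d.S_root_not_mem' c hc hx (cl_closed (d.root_hp _ _ (cS_mem c hc) (d.c_ne c hc) h0))

theorem exists_s' : ∃ s : Fin (2 * d.k + 1) → k, Function.Injective s ∧
    ∀ j, (d.SS (cS c)).eval (s j) = c (Sum.inr ()) := by
  have h1 := d.SS_deg (cS c) (d.c_ne c hc)
  have h2 : (d.SS (cS c) - C (c (Sum.inr ()))).natDegree = 2 * d.k + 1 := by
    rw [natDegree_sub_C, h1]
  have h3 : d.SS (cS c) - C (c (Sum.inr ())) ≠ 0 := by
    intro h0
    rw [h0, natDegree_zero] at h2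
    omega
  obtain ⟨a, ha, hp⟩ := fac_simple _ h3 _ h2 (fun x hx => by
    rw [eval_sub, eval_C, sub_eq_zero] at hx
    rw [derivative_sub, derivative_C, sub_zero, derivative_SS, eval_mul]
    exact mul_ne_zero (d.hp_ne c hc hx) (d.hp_ne c hc hx))
  refine ⟨a, ha, fun j => ?_⟩
  have h4 : (d.SS (cS c) - C (c (Sum.inr ()))).eval (a j) = 0 := by
    rw [hp, eval_mul, eval_prod]
    apply mul_eq_zero_of_right
    exact Finset.prod_eq_zero (Finset.mem_univ j) (by simp)
  rwa [eval_sub, eval_C, sub_eq_zero] at h4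

/-- The points of the degenerate family. -/
theorem exists_SPt : ∃ Φ : Fin (d.m * (2 * d.k + 1)) → (Ω →ₐ[K] k), (∀ i, d.SPt c (Φ i)) ∧
    ∀ i i', ∀ γ ∈ d.P, (∀ z, Φ i z = Φ i' (γ z)) → i = i' := by
  classical
  obtain ⟨s, hs, hs2⟩ := d.exists_s' c hc
  have htr : ∀ j, Transcendental K (s j) := fun j h1 =>
    d.S_root_not_mem' c hc (hs2 j) (cl_closed ((h1.tower_top K₀).tower_top _))
  have hex := fun j => exists_emb' (Ω := Ω) (s j) (htr j)
  choose Ψ hΨ using hex
  have hfin : Finite ((Ω ≃ₐ[RatFunc K] Ω) ⧸ d.P) := inferInstance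
  have hcard : Nat.card (((Ω ≃ₐ[RatFunc K] Ω) ⧸ d.P) × Fin (2 * d.k + 1)) =
      d.m * (2 * d.k + 1) := by
    rw [Nat.card_prod, Nat.card_fin, ← d.hPm]
    rfl
  let e : Fin (d.m * (2 * d.k + 1)) ≃ ((Ω ≃ₐ[RatFunc K] Ω) ⧸ d.P) × Fin (2 * d.k + 1) :=
    (Finite.equivFinOfCardEq hcard).symm
  let Φ : Fin (d.m * (2 * d.k + 1)) → (Ω →ₐ[K] k) := fun i => (Ψ (e i).2).comp
    (((e i).1.out : Ω →ₐ[RatFunc K] Ω).restrictScalars K)
  have hx : ∀ i, Φ i (xx K Ω) = s (e i).2 := by
    intro i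
    change Ψ (e i).2 ((e i).1.out (xx K Ω)) = _
    rw [xx, AlgEquiv.commutes]
    exact hΨ _
  refine ⟨Φ, fun i => ?_, fun i i' γ hγ h => ?_⟩
  · unfold SPt
    rw [hx]
    exact hs2 _
  · have h1 : (e i).2 = (e i').2 := by
      apply hs
      rw [← hx, ← hx, h (xx K Ω)]
      congr 1
      rw [xx, AlgEquiv.commutes]
    apply e.injective
    refine Prod.ext ?_ h1
    have h2 : (e i).1.out = (e i').1.out * γ := by
      apply AlgEquiv.ext
      intro z
      apply (Ψ (e i').2).injective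
      have h3 := h z
      change Ψ (e i).2 ((e i).1.out z) = Ψ (e i').2 ((e i').1.out (γ z)) at h3
      rw [h1] at h3
      exact h3
    rw [← QuotientGroup.out_eq' (e i).1, ← QuotientGroup.out_eq' (e i').1, QuotientGroup.eq, h2]
    have h3 : ((e i').1.out * γ)⁻¹ * (e i').1.out = γ⁻¹ := by group
    rw [h3]
    exact inv_mem hγ

end deg

end Dat

end Pool.Agent.K3h17
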