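import Mathlib
import Pool.Agent.K3h17.Fo

set_option autoImplicit false
set_option linter.unusedSectionVars false
set_option linter.unusedSimpArgs false

namespace Pool.Agent.K3h17

open Polynomial Pool.Agent.H391R2 Pool.Agent.Y793

/-- SML, with the additional hypothesis `κr ≠ 0`. -/
def St_sml' : Prop :=
  ∀ (K F k E Ω : Type) [Field K] [CharZero K] [Field F] [IsAlgClosed F] [Algebra K F] [Field k]
    [IsAlgClosed k] [Algebra F k] [Algebra K k] [IsScalarTower K F k] [Field E] [IsAlgClosed E]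
    [Algebra K E] (j : PowerSeries k →+* E), Function.Injective j →
    (∀ a : K, j (PowerSeries.C (algebraMap K k a)) = algebraMap K E a) →
    (∀ z : E, ∃ p : Polynomial (PowerSeries k), p ≠ 0 ∧ (p.map j).eval z = 0) →
    ∀ [Field Ω] [Algebra (RatFunc K) Ω] [Algebra K Ω] [IsScalarTower K (RatFunc K) Ω]
    [FiniteDimensional (RatFunc K) Ω] [IsGalois (RatFunc K) Ω]
    (P : Subgroup (Ω ≃ₐ[RatFunc K] Ω)) (κt : K[X]) (κr : F[X]) (T : k) (l : ℕ),
    κt.natDegree = l + 2 → κr.natDegree = l → κr ≠ 0 → Transcendental F T →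
    ∀ (n : ℕ) (Φ : Fin n → (Ω →ₐ[K] E)),
    (∀ i, (adr K ((κr.map (j.comp (PowerSeries.C.comp (algebraMap F k))) +
      C (j PowerSeries.X) * κt.map (algebraMap K E)) ^ 2)).eval (Φ i (xx K Ω)) =
        j (PowerSeries.C T)) →
    (∀ i i', ∀ γ ∈ P, (∀ z, Φ i z = Φ i' (γ z)) → i = i') →
    (∀ Φ' : Ω →ₐ[K] E, (adr K ((κr.map (j.comp (PowerSeries.C.comp (algebraMap F k))) +
      C (j PowerSeries.X) * κt.map (algebraMap K E)) ^ 2)).eval (Φ' (xx K Ω)) =
        j (PowerSeries.C T) → ∃ i, ∃ γ ∈ P, ∀ z, Φ' z = Φ i (γ z)) →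
    ∃ (σ : E ≃+* E) (π : Equiv.Perm (Fin n)) (γ : Fin n → P), (∀ f, σ (j f) = j f) ∧
      (∀ i z, σ (Φ i z) = Φ (π i) ((γ i : Ω ≃ₐ[RatFunc K] Ω) z)) ∧ π ≠ 1 ∧
      {i | π i ≠ i ∨ γ i ≠ 1}.ncard ≤ 4 * P.index

namespace Dat

section app

variable {K Ω ι : Type} [Field K] [CharZero K] [Field Ω] [Algebra (RatFunc K) Ω] [Algebra K Ω]
  [IsScalarTower K (RatFunc K) Ω] [FiniteDimensional (RatFunc K) Ω] [IsGalois (RatFunc K) Ω]
  [Fintype ι] (d : Dat K Ω ι)
variable {K₀ N : Type} [Field K₀] [Algebra K K₀] [Field N] [IsAlgClosed N] [Algebra K₀ N]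
  [Algebra K N] [IsScalarTower K K₀ N] (η : Iy ι → N) (hη : IsTranscendenceBasis K₀ η)

/-- The degree of the truncated polynomial. -/
theorem kr_deg [DecidableEq ι] {F : Type} [Field F] [Algebra K₀ F] [Algebra K F]
    [IsScalarTower K K₀ F] (b : ι → F) (hb : LinearIndependent K₀ b) :
    (∑ i ∈ Finset.univ.erase d.i₁, C (b i) * (d.κ i).map (algebraMap K F)).natDegree =
      d.k - 2 ∧ (∑ i ∈ Finset.univ.erase d.i₁, C (b i) * (d.κ i).map (algebraMap K F)) ≠ 0 := by
  have hc : (∑ i ∈ Finset.univ.erase d.i₁,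
      C (b i) * (d.κ i).map (algebraMap K F)).coeff (d.k - 2) ≠ 0 := by
    intro h0
    obtain ⟨i₂, h1, h2⟩ := d.hκ3
    rw [finsetSum_coeff] at h0
    have h3 := linearIndependent_iff'.1 hb (Finset.univ.erase d.i₁)
      (fun i => algebraMap K K₀ ((d.κ i).coeff (d.k - 2))) (by
        rw [← h0]
        refine Finset.sum_congr rfl fun i _ => ?_
        rw [coeff_C_mul, coeff_map, Algebra.smul_def, ← IsScalarTower.algebraMap_apply, mul_comm])
      i₂ (Finset.mem_erase.2 ⟨h1, Finset.mem_univ _⟩)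
    rw [FaithfulSMul.algebraMap_eq_zero_iff, ← h2] at h3
    exact leadingCoeff_ne_zero.2 (d.hli.ne_zero i₂) h3
  refine ⟨natDegree_eq_of_le_of_coeff_ne_zero ?_ hc, fun h0 => ?_⟩
  · refine natDegree_sum_le_of_forall_le _ _ fun i hi => ?_
    exact (natDegree_C_mul_le _ _).trans (natDegree_map_le.trans
      (d.hκ2 i (Finset.ne_of_mem_erase hi)))
  · rw [h0, coeff_zero] at hc
    exact hc rfl

include hη

/-- The element of small support. -/
theorem HH_sml (hgen : Y793.St_gen) (hiso : Y793.St_iso) (hl : K3h17.St_lift)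
    (hsml : K3h17.St_sml')
    {φ : Fin (d.m * (2 * d.k + 1)) → (Ω →ₐ[K] N)} (S : d.Sy η _ φ) :
    ∃ x ∈ HH η d.P φ K₀, x.right ≠ 1 ∧
      {i | x.right i ≠ i ∨ x.left i ≠ 1}.ncard ≤ 4 * d.m := by
  classical
  obtain ⟨k, i1, i2, i3, b, hb⟩ := exists_trb K₀ (ι ⊕ Unit)
  let i4 : Algebra K k := ((algebraMap K₀ k).comp (algebraMap K K₀)).toAlgebra
  have i5 : IsScalarTower K K₀ k := .of_algebraMap_eq fun _ => rfl
  have i6 : CharZero k := charZero_of_injective_algebraMap (algebraMap K k).injective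
  obtain ⟨E, j1, j2, j3, j, hB⟩ := exists_big K₀ k
  let j4 : Algebra K E := ((algebraMap K₀ E).comp (algebraMap K K₀)).toAlgebra
  have j5 : IsScalarTower K K₀ E := .of_algebraMap_eq fun _ => rfl
  have j6 : CharZero E := charZero_of_injective_algebraMap (algebraMap K E).injective
  -- the parameters
  let e : ι ⊕ Unit → Option ι ⊕ Unit := Sum.elim
    (fun i => if i = d.i₁ then Sum.inl none else Sum.inl (some i)) (fun _ => Sum.inr ())
  have he : Function.Injective e := by
    rintro (x | x) (y | y) hxy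
    · change (if x = d.i₁ then Sum.inl none else Sum.inl (some x) : Option ι ⊕ Unit) =
        if y = d.i₁ then Sum.inl none else Sum.inl (some y) at hxy
      split_ifs at hxy with h1 h2 h2
      · rw [h1, h2]
      · simp at hxy
      · simp at hxy
      · have h3 : x = y := by simpa using hxy
        rw [h3]
    · change (if x = d.i₁ then Sum.inl none else Sum.inl (some x) : Option ι ⊕ Unit) =
        Sum.inr () at hxy
      split_ifs at hxy
    · change Sum.inr () =
        (if y = d.i₁ then Sum.inl none else Sum.inl (some y) : Option ι ⊕ Unit) at hxy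
      split_ifs at hxy
    · rfl
  let c : ι ⊕ Unit → E := ηE j b ∘ e
  have hc : AlgebraicIndependent K₀ c := (ηE_indep hB b hb.1).comp e he
  have hc1 : c (Sum.inl d.i₁) = j PowerSeries.X := by
    change ηE j b (if d.i₁ = d.i₁ then Sum.inl none else Sum.inl (some d.i₁)) = _
    rw [if_pos rfl]
    rfl
  have hc2 : ∀ i, i ≠ d.i₁ → c (Sum.inl i) = j (PowerSeries.C (b (Sum.inl i))) := by
    intro i hi
    change ηE j b (if i = d.i₁ then Sum.inl none else Sum.inl (some i)) = _
    rw [if_neg hi]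
    rfl
  have hc3 : c (Sum.inr ()) = j (PowerSeries.C (b (Sum.inr ()))) := rfl
  obtain ⟨Φ, h1, h2, h3, h4⟩ := d.lemL' η hη c hc hgen hiso hl φ S
  set F := cl K₀ (b '' (Set.range Sum.inl)) with hF
  have hFc : IsAlgClosed F := cl_isAlgClosed _
  have hT : Transcendental F (b (Sum.inr ())) := by
    intro h5
    exact not_mem_cl hb.1 (s := Set.range Sum.inl) (i := Sum.inr ()) (by simp) (cl_closed h5)
  let bF : ι → F := fun i => ⟨b (Sum.inl i), sub_cl _ ⟨Sum.inl i, ⟨i, rfl⟩, rfl⟩⟩
  have hbF : LinearIndependent K₀ bF := by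
    have h5 : LinearIndependent K₀ (fun i : ι => b (Sum.inl i)) :=
      (hb.1.comp Sum.inl Sum.inl_injective).linearIndependent
    exact LinearIndependent.of_comp (F.val : F →ₐ[K₀] k).toLinearMap h5
  let κr : F[X] := ∑ i ∈ Finset.univ.erase d.i₁, C (bF i) * (d.κ i).map (algebraMap K F)
  obtain ⟨hκr, hκr0⟩ : κr.natDegree = d.k - 2 ∧ κr ≠ 0 := d.kr_deg bF hbF
  have hjF : (j : PowerSeries k →+* E).comp (PowerSeries.C.comp
      ((algebraMap F k).comp (algebraMap K F))) = algebraMap K E := by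
    apply RingHom.ext
    intro a
    change j (PowerSeries.C (algebraMap K k a)) = algebraMap K₀ E (algebraMap K K₀ a)
    rw [← j.commutes, PowerSeries.algebraMap_apply]
    rfl
  have hpoly : κr.map ((j : PowerSeries k →+* E).comp (PowerSeries.C.comp (algebraMap F k))) +
      C (j PowerSeries.X) * (d.κ d.i₁).map (algebraMap K E) = d.hp' (cS c) := by
    rw [hp_cS, Polynomial.map_sum, ← Finset.sum_erase_add _ _ (Finset.mem_univ d.i₁), hc1]
    refine congrArg₂ (· + ·) (Finset.sum_congr rfl fun i hi => ?_) rfl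
    rw [Polynomial.map_mul, map_C, Polynomial.map_map, hc2 i (Finset.ne_of_mem_erase hi)]
    refine congrArg₂ (· * ·) rfl ?_
    congr 1
  have hS : ∀ Φ' : Ω →ₐ[K] E, (adr K ((κr.map ((j : PowerSeries k →+* E).comp
      (PowerSeries.C.comp (algebraMap F k))) +
      C ((j : PowerSeries k →+* E) PowerSeries.X) *
        (d.κ d.i₁).map (algebraMap K E)) ^ 2)).eval (Φ' (xx K Ω)) =
      (j : PowerSeries k →+* E) (PowerSeries.C (b (Sum.inr ()))) ↔ d.SPt c Φ' := by
    intro Φ'
    unfold SPt SS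
    rw [← sq, ← hpoly, hc3]
    rfl
  obtain ⟨σ, π, γ, e1, e2, e3, e4⟩ := hsml K F k E Ω (j : PowerSeries k →+* E) hB.inj (fun a => by
      have h5 := RingHom.congr_fun hjF a
      exact h5) hB.alg d.P (d.κ d.i₁) κr (b (Sum.inr ())) (d.k - 2)
    (by rw [d.hκ1]; have := d.hk2; omega) hκr hκr0 hT _ Φ
    (fun i => (hS _).2 (h1 i)) h2 (fun Φ' h5 => h3 Φ' ((hS _).1 h5))
  obtain ⟨τ, hτ, hτ2⟩ := h4 σ (fun a => by
      have h5 : algebraMap K₀ E a = j (algebraMap K₀ (PowerSeries k) a) := (j.commutes a).symm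
      rw [h5]
      exact e1 _) (fun i => by
      rcases i with i | ⟨⟩
      · by_cases hi : i = d.i₁
        · rw [hi, hc1]
          exact e1 _
        · rw [hc2 i hi]
          exact e1 _
      · rw [hc3]
        exact e1 _) π γ e2
  refine ⟨mkW π γ, ⟨τ, hτ, Rx.mk π γ hτ2⟩, e3, ?_⟩
  have h5 : {i | (mkW π γ).right i ≠ i ∨ (mkW π γ).left i ≠ 1} =
      π '' {i | π i ≠ i ∨ γ i ≠ 1} := by
    ext i
    simp only [Set.mem_ofPred_eq, Set.mem_image]
    constructor
    · intro h
      refine ⟨π.symm i, ?_, π.apply_symm_apply i⟩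
      rcases h with h | h
      · left
        rw [π.apply_symm_apply]
        intro h6
        apply h
        change π i = i
        conv_lhs => rw [h6]
        exact π.apply_symm_apply i
      · right
        exact h
    · rintro ⟨l, h, rfl⟩
      rcases h with h | h
      · left
        intro h6
        exact h (π.injective h6)
      · right
        change γ (π.symm (π l)) ≠ 1
        rw [π.symm_apply_apply]
        exact h
  have h6 : 4 * d.P.index = 4 * d.m := by rw [d.hPm]
  rw [h5, Set.ncard_image_of_injective _ π.injective]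
  exact e4.trans h6.le

end app

end Dat

end Pool.Agent.K3h17
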