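import Mathlib
import Pool.Agent.K3h17.Fp
import Pool.Agent.Y793.Stm2
import Pool.Agent.H391R2.T4.Utl

set_option autoImplicit false
set_option linter.unusedSectionVars false
set_option linter.unusedSimpArgs false

namespace Pool.Agent.K3h17

open Polynomial Pool.Agent.H391R2 Pool.Agent.H391R2.T4 Pool.Agent.Y793

section grp

variable {P G : Type} [Group P] [Group G]

/-- The morphism of wreath products induced by a morphism. -/
def wrMap (ψ : P →* G) (n : ℕ) : Wr P n →* Wr G n where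
  toFun x := ⟨fun i => ψ (x.left i), x.right⟩
  map_one' := SemidirectProduct.ext (funext fun _ => map_one ψ) rfl
  map_mul' _ _ := SemidirectProduct.ext (funext fun _ => map_mul ψ _ _) rfl

/-- The class of an element of the wreath product. -/
def wcl (G : Type) [Group G] (n : ℕ) : Wr G n →* Abelianization G where
  toFun x := ∏ i, Abelianization.of (x.left i)
  map_one' := by
    refine Finset.prod_eq_one fun i _ => ?_
    exact map_one _
  map_mul' x y := by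
    rw [← Equiv.prod_comp x.right⁻¹ (fun i => Abelianization.of (y.left i)),
      ← Finset.prod_mul_distrib]
    refine Finset.prod_congr rfl fun i _ => ?_
    rw [wr_mul_left, map_mul]

/-- The conclusion of the group theory. -/
theorem grp_concl (hgrp : K3h17.St_grp) [Finite G] (n s : ℕ) (hn : 9 ≤ n) (hs : s ^ 4 + 4 < n)
    (ψ : P →* G) (hψ : Function.Surjective ψ) (H : Subgroup (Wr P n))
    (h1 : ∀ a b a' b' : Fin n, a ≠ b → a' ≠ b' → ∀ g h : P, ∃ w ∈ H,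
      w.right a = a' ∧ w.right b = b' ∧ w.left a' = g ∧ w.left b' = h)
    (h2 : ∃ x ∈ H, x.right ≠ 1 ∧ {i | x.right i ≠ i ∨ x.left i ≠ 1}.ncard ≤ s)
    (h3 : ∀ x ∈ H, Equiv.Perm.sign x.right = 1)
    (h4 : ∀ a : Abelianization G, ∃ x ∈ H, ∏ i, Abelianization.of (ψ (x.left i)) = a)
    (w : Wr G n) (hw : w ∈ AWr G n) : ∃ x ∈ H, wrMap ψ n x = w := by
  obtain ⟨x, hx, hx1, hx2⟩ := h2
  have key : ∀ w : Wr G n, ∏ i, Abelianization.of (w.left i) = 1 →
      Equiv.Perm.sign w.right = 1 → w ∈ H.map (wrMap ψ n) := by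
    refine hgrp G n s hn hs (H.map (wrMap ψ n)) ?_ (wrMap ψ n x) ⟨x, hx, rfl⟩ hx1 ?_
    · intro a b a' b' hab hab' g h
      obtain ⟨g, rfl⟩ := hψ g
      obtain ⟨h, rfl⟩ := hψ h
      obtain ⟨w, hw, e1, e2, e3, e4⟩ := h1 a b a' b' hab hab' g h
      exact ⟨wrMap ψ n w, ⟨w, hw, rfl⟩, e1, e2, congrArg ψ e3, congrArg ψ e4⟩
    · refine le_trans (Set.ncard_le_ncard ?_ (Set.toFinite _)) hx2
      intro i hi
      rcases hi with hi | hi
      · exact Or.inl hi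
      · refine Or.inr fun h0 => hi ?_
        change ψ (x.left i) = 1
        rw [h0, map_one]
  obtain ⟨z, hz, hz2⟩ := h4 (wcl G n w)
  have h5 : (wrMap ψ n z)⁻¹ * w ∈ H.map (wrMap ψ n) := by
    apply key
    · change wcl G n ((wrMap ψ n z)⁻¹ * w) = 1
      have h6 : wcl G n (wrMap ψ n z) = wcl G n w := hz2
      rw [map_mul, map_inv, h6, inv_mul_cancel]
    · have h6 : (wrMap ψ n z) ∈ AWr G n := h3 z hz
      exact mul_mem (inv_mem h6) hw
  have h6 := mul_mem (⟨z, hz, rfl⟩ : wrMap ψ n z ∈ H.map (wrMap ψ n)) h5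
  rw [mul_inv_cancel_left] at h6
  obtain ⟨y, hy, hy2⟩ := h6
  exact ⟨y, hy, hy2⟩

end grp

/-- An element with a given stabilizer. -/
theorem exists_theta {F Ω : Type} [Field F] [CharZero F] [Field Ω] [Algebra F Ω]
    [FiniteDimensional F Ω] [IsGalois F Ω] (Q : Subgroup (Ω ≃ₐ[F] Ω)) :
    ∃ θ : Ω, ∀ γ, γ θ = θ ↔ γ ∈ Q := by
  obtain ⟨θ, hθ⟩ := Field.exists_primitive_element F (IntermediateField.fixedField Q)
  refine ⟨(θ : Ω), fun γ => ⟨fun h => ?_, fun h => ?_⟩⟩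
  · rw [← IntermediateField.fixingSubgroup_fixedField Q, IntermediateField.mem_fixingSubgroup_iff]
    intro z hz
    have h2 : (⟨z, hz⟩ : IntermediateField.fixedField Q) ∈ IntermediateField.adjoin F {θ} := by
      rw [hθ]
      exact IntermediateField.mem_top
    exact eq_on_adjoin ((γ : Ω →ₐ[F] Ω).comp (IntermediateField.fixedField Q).val)
      (IntermediateField.fixedField Q).val {θ} (by
        rintro s hs
        rw [Set.mem_singleton_iff.1 hs]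
        exact h) _ h2
  · exact (θ : IntermediateField.fixedField Q).2 ⟨γ, h⟩

namespace Dat

section core

variable {K Ω ι : Type} [Field K] [CharZero K] [Field Ω] [Algebra (RatFunc K) Ω] [Algebra K Ω]
  [IsScalarTower K (RatFunc K) Ω] [FiniteDimensional (RatFunc K) Ω] [IsGalois (RatFunc K) Ω]
  [Fintype ι] (d : Dat K Ω ι)

theorem core (hgen : Y793.St_gen) (hiso : Y793.St_iso) (hext : Y793.St_ext)
    (hstar : Y793.St_star) (hari : Y793.St_arith) (hl : K3h17.St_lift) (hsml : K3h17.St_sml')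
    (hkum : K3h17.St_kum) (hevn : K3h17.St_evn) (hgrp : K3h17.St_grp)
    (hreg : ∀ y : Ω, IsAlgebraic K y → y ∈ Set.range (algebraMap K Ω))
    (G : Type) [Group G] [Finite G] (ψ : d.P →* G) (hψ : Function.Surjective ψ)
    [Fintype ((Ω ≃ₐ[RatFunc K] Ω) ⧸ d.P)]
    (hψ2 : ∀ a : Abelianization G, ∃ (γ₀ : Ω ≃ₐ[RatFunc K] Ω)
      (h : ∀ g : Ω ≃ₐ[RatFunc K] Ω, g⁻¹ * γ₀ * g ∈ d.P),
      ∏ q : (Ω ≃ₐ[RatFunc K] Ω) ⧸ d.P,
        Abelianization.of (ψ ⟨q.out⁻¹ * γ₀ * q.out, h _⟩) = a)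
    (hn : (4 * d.m) ^ 4 + 4 < d.m * (2 * d.k + 1)) :
    RegSol K K (AWr G (d.m * (2 * d.k + 1))) 1 := by
  classical
  let K₀ := AlgebraicClosure K
  obtain ⟨N, i1, i2, i3, η, hη⟩ := exists_trb K₀ (Iy ι)
  let i4 : Algebra K N := ((algebraMap K₀ N).comp (algebraMap K K₀)).toAlgebra
  have i5 : IsScalarTower K K₀ N := .of_algebraMap_eq fun _ => rfl
  obtain ⟨φ, S⟩ := d.ex_sy η hη hgen hiso hl
  have hn9 : 9 ≤ d.m * (2 * d.k + 1) := by
    have h1 := d.hm0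
    have h2 : 1 ≤ 4 * d.m := by omega
    have h3 : (4 * d.m) ^ 4 ≥ 4 ^ 4 := Nat.pow_le_pow_left (by omega) 4
    omega
  have hgeo := fun w hw => grp_concl (P := d.P) (G := G) hgrp (d.m * (2 * d.k + 1)) (4 * d.m)
    hn9 hn ψ hψ (HH η d.P φ K₀)
    (fun a b a' b' hab hab' g h => d.HH_pair η hη hgen hiso hext hstar hreg S a b a' b' hab hab'
      g h) (d.HH_sml η hη hgen hiso hl hsml S)
    (fun x hx => by
      obtain ⟨σ, h1, h2⟩ := hx
      exact d.even_x η hη hevn hgen hiso S (σ.restrictScalars K) h1 x h2)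
    (fun a => d.HH_kum η hη hgen hiso hl hkum hreg (Abelianization G)
      (Abelianization.of.comp ψ) hψ2 S a) w hw
  obtain ⟨θ, hθ⟩ := exists_theta (ψ.ker.map d.P.subtype)
  have hθ' : ∀ γ : d.P, (γ : Ω ≃ₐ[RatFunc K] Ω) θ = θ ↔ ψ γ = 1 := by
    intro γ
    rw [hθ]
    constructor
    · rintro ⟨γ', h1, h2⟩
      have h3 : γ' = γ := Subtype.ext h2
      rw [← h3]
      exact h1
    · intro h
      exact ⟨γ, h, rfl⟩
  let s : G → d.P := Function.surjInv hψ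
  have hs : ∀ g, ψ (s g) = g := Function.surjInv_eq hψ
  have hval : ∀ (γ γ' : d.P), ψ γ = ψ γ' ↔
      (γ : Ω ≃ₐ[RatFunc K] Ω) θ = (γ' : Ω ≃ₐ[RatFunc K] Ω) θ := by
    intro γ γ'
    have h1 := hθ' (γ'⁻¹ * γ)
    rw [map_mul, map_inv, inv_mul_eq_one] at h1
    rw [show (ψ γ = ψ γ') = (ψ γ' = ψ γ) from propext eq_comm, ← h1]
    change (γ' : Ω ≃ₐ[RatFunc K] Ω)⁻¹ ((γ : Ω ≃ₐ[RatFunc K] Ω) θ) = θ ↔ _
    constructor
    · intro h
      have h2 := congrArg (γ' : Ω ≃ₐ[RatFunc K] Ω) h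
      have h3 : (γ' : Ω ≃ₐ[RatFunc K] Ω) ((γ' : Ω ≃ₐ[RatFunc K] Ω)⁻¹
          ((γ : Ω ≃ₐ[RatFunc K] Ω) θ)) = (γ : Ω ≃ₐ[RatFunc K] Ω) θ :=
        (γ' : Ω ≃ₐ[RatFunc K] Ω).apply_symm_apply _
      rw [h3] at h2
      exact h2
    · intro h
      rw [h]
      exact (γ' : Ω ≃ₐ[RatFunc K] Ω).symm_apply_apply _
  have hact : ∀ (σ : N → N) (x : Wr d.P (d.m * (2 * d.k + 1))), Rx φ σ x → ∀ i,
      σ (φ i (xx K Ω)) = φ (x.right i) (xx K Ω) ∧
      ∀ g, σ (φ i ((s g : Ω ≃ₐ[RatFunc K] Ω) θ)) =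
        φ (x.right i) ((s ((wrMap ψ _ x).left ((wrMap ψ _ x).right i) * g) :
          Ω ≃ₐ[RatFunc K] Ω) θ) := by
    intro σ x hx i
    refine ⟨?_, fun g => ?_⟩
    · rw [hx i]
      congr 1
      rw [xx, AlgEquiv.commutes]
    · rw [hx i]
      congr 1
      have h1 : ψ (x.left (x.right i) * s g) =
          ψ (s ((wrMap ψ _ x).left ((wrMap ψ _ x).right i) * g)) := by
        rw [hs, map_mul, hs]
        rfl
      exact (hval _ _).1 h1
  refine hari K K₀ N (Iy ι) η hη G _ (AWr G (d.m * (2 * d.k + 1))) (fun i => φ i (xx K Ω))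
    (d.x_inj η hη hgen hiso φ S.pt S.ne)
    (fun i g => φ i ((s g : Ω ≃ₐ[RatFunc K] Ω) θ)) ?_ ?_ ?_
  · intro i g g' h
    have h1 : (s g : Ω ≃ₐ[RatFunc K] Ω) θ = (s g' : Ω ≃ₐ[RatFunc K] Ω) θ := (φ i).injective h
    have h2 := (hval _ _).2 h1
    rwa [hs, hs] at h2
  · intro σ hσ
    obtain ⟨x, hx⟩ := d.exists_x0 η S σ hσ
    refine ⟨wrMap ψ _ x, d.even_x η hη hevn hgen hiso S σ hσ x hx, fun i => ?_⟩
    exact hact σ x hx i
  · intro w hw
    obtain ⟨x, ⟨σ, h1, h2⟩, rfl⟩ := hgeo w hw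
    exact ⟨σ, h1, fun i => hact σ x h2 i⟩

end core

end Dat

end Pool.Agent.K3h17
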