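import Mathlib
import Pool.Agent.K3h17.Fa

set_option autoImplicit false
set_option linter.unusedSectionVars false
set_option linter.unusedSimpArgs false

namespace Pool.Agent.K3h17

open Polynomial Pool.Agent.H391R2 Pool.Agent.Y793

section mk

variable {K Ω : Type} [Field K] [CharZero K] [Field Ω] [Algebra (RatFunc K) Ω] [Algebra K Ω]
  [IsScalarTower K (RatFunc K) Ω] [FiniteDimensional (RatFunc K) Ω] [IsGalois (RatFunc K) Ω]

/-- Existence of the data. -/
theorem exists_dat (hder : K3h17.St_der) (hfam : K3h17.St_fam) (hort : K3h17.St_ort)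
    (hreg : ∀ y : Ω, IsAlgebraic K y → y ∈ Set.range (algebraMap K Ω))
    (P : Subgroup (Ω ≃ₐ[RatFunc K] Ω)) (hm : Even P.index)
    (hev : ∀ γ : Ω ≃ₐ[RatFunc K] Ω, ∀ (f : Equiv.Perm ((Ω ≃ₐ[RatFunc K] Ω) ⧸ P)),
      (∀ q, f q = γ • q) → ∀ (_ : Fintype ((Ω ≃ₐ[RatFunc K] Ω) ⧸ P))
        (_ : DecidableEq ((Ω ≃ₐ[RatFunc K] Ω) ⧸ P)), Equiv.Perm.sign f = 1) :
    ∃ k₁ : ℕ, ∀ k ≥ k₁, ∃ (ι : Type) (_ : Fintype ι) (d : Dat K Ω ι), d.P = P ∧ d.k = k := by
  classical
  obtain ⟨δ, hδ1, hδ2, -⟩ := hder K Ω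
  obtain ⟨e, D, g, Δ, C, he, hspan, hD, hg, hΔ, hsum, hmat⟩ := hort K Ω P hev
  obtain ⟨y, p, H, C', k₀, hy, hDvH, hH, hW⟩ := hfam K Ω hreg δ hδ1 hδ2 P P.index e he hspan Δ hΔ
  choose κ W hκ hDvW hδW using hW
  have hi0 : 0 < P.index := Nat.pos_of_ne_zero Subgroup.index_ne_zero_of_finite
  refine ⟨2 * k₀ + 8 + C + C' + p.natDegree, fun k hk => ?_⟩
  obtain ⟨aH, haHs, haHd, haH⟩ := hmat C' H hDvH
  have hW2 := fun (k' : ℕ) (h : k' ≥ k₀) => hmat (k' + C') (W k' h) (hDvW k' h)
  choose aW haWs haWd haW using hW2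
  let ι := Option (Fin (k - 2 - k₀))
  let dg : ι → ℕ := fun i => i.elim k (fun j => k₀ + 1 + j)
  have hdg1 : ∀ i, dg i ≥ k₀ + 1 := by
    rintro (_ | j)
    · change k ≥ k₀ + 1
      omega
    · change k₀ + 1 + (j : ℕ) ≥ k₀ + 1
      omega
  have hdg : ∀ i, dg i ≥ k₀ := fun i => (Nat.le_succ _).trans (hdg1 i)
  have hdgk2 : ∀ i, i ≠ none → dg i ≤ k - 2 := by
    rintro (_ | j) hj
    · exact absurd rfl hj
    · change k₀ + 1 + (j : ℕ) ≤ k - 2
      have := j.2
      omega
  have hdgk : ∀ i, dg i ≤ k := by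
    rintro (_ | j)
    · exact le_rfl
    · exact (hdgk2 (some j) (by simp)).trans (Nat.sub_le _ _)
  have hdginj : Function.Injective dg := by
    rintro (_ | i) (_ | j) hij
    · rfl
    · exfalso
      change k = k₀ + 1 + (j : ℕ) at hij
      have := j.2
      omega
    · exfalso
      change k₀ + 1 + (i : ℕ) = k at hij
      have := i.2
      omega
    · change k₀ + 1 + (i : ℕ) = k₀ + 1 + (j : ℕ) at hij
      have h1 : i = j := Fin.ext (by omega)
      rw [h1]
  let sq : Polynomial.Sequence K :=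
    { elems' := fun n => if h : n ≥ k₀ + 1 then κ n ((Nat.le_succ _).trans h) else X ^ n
      degree_eq' := fun n => by
        split_ifs with h
        · have h1 := hκ n ((Nat.le_succ _).trans h)
          have h2 : κ n ((Nat.le_succ _).trans h) ≠ 0 := by
            intro h0
            rw [h0, natDegree_zero] at h1
            omega
          rw [degree_eq_natDegree h2, h1]
        · rw [degree_X_pow] }
  have hsq : ∀ i, sq (dg i) = κ (dg i) (hdg i) := by
    intro i
    change (if h : dg i ≥ k₀ + 1 then κ (dg i) ((Nat.le_succ _).trans h) else X ^ (dg i)) = _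
    rw [dif_pos (hdg1 i)]
  have hli : LinearIndependent K (fun i => κ (dg i) (hdg i)) := by
    have h1 := sq.linearIndependent.comp dg hdginj
    have h2 : (fun n => (sq n : K[X])) ∘ dg = fun i => κ (dg i) (hdg i) := funext hsq
    rw [h2] at h1
    exact h1
  let d : Dat K Ω ι :=
    { δ := δ
      P := P
      m := P.index
      k := k
      κ := fun i => κ (dg i) (hdg i)
      p := p
      y := y
      W := fun i => W (dg i) (hdg i)
      H := H
      e := e
      D := D
      g := g
      aW := fun i => aW (dg i) (hdg i)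
      aH := aH
      i₁ := none
      hδx := hδ1
      hδg := hδ2
      hPm := rfl
      hm := hm
      hm0 := hi0
      hy := hy
      hH := hH
      hW := fun i => hδW (dg i) (hdg i)
      he := he
      hsum := hsum
      hD := hD
      hg := hg
      haWs := fun i => haWs (dg i) (hdg i)
      haHs := haHs
      haW := fun i => haW (dg i) (hdg i)
      haH := haH
      haWd := fun i r s => by
        refine lt_of_le_of_lt (haWd (dg i) (hdg i) r s) ?_
        have := hdgk i
        omega
      haHd := fun r s => by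
        refine lt_of_le_of_lt (haHd r s) ?_
        omega
      hli := hli
      hκ1 := hκ _ _
      hκ2 := fun i hi => by
        rw [hκ]
        exact hdgk2 i hi
      hκ3 := by
        refine ⟨some ⟨k - 3 - k₀, by omega⟩, by simp, ?_⟩
        rw [hκ]
        change k₀ + 1 + (k - 3 - k₀) = k - 2
        omega
      hk2 := by omega
      hp := by omega
      hcard := by
        change k + 5 < 2 * Fintype.card (Option (Fin (k - 2 - k₀)))
        rw [Fintype.card_option, Fintype.card_fin]
        omega }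
  exact ⟨ι, inferInstance, d, rfl, rfl⟩

end mk

end Pool.Agent.K3h17
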