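import Mathlib
import Pool.Agent.H391R2.WrGrp

set_option autoImplicit false
set_option linter.unusedSectionVars false
set_option linter.unusedSimpArgs false

namespace Pool.Agent.K3h17

open Pool.Agent.H391R2

/-- The wreath product for an index set. -/
abbrev WrS (G S : Type) [Group G] : Type := (S → G) ⋊[mulAutArrow] Equiv.Perm S

section lam

variable {X G S : Type} [Group X] [Group G] (Λ : X →* WrS G S) (s₀ : S)

/-- The stabilizer of a point. -/
def Pst : Subgroup X where
  carrier := {x | (Λ x).right s₀ = s₀}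
  one_mem' := by
    change (Λ 1).right s₀ = s₀
    rw [map_one]
    rfl
  mul_mem' {x y} hx hy := by
    change (Λ (x * y)).right s₀ = s₀
    rw [map_mul, SemidirectProduct.mul_right, Equiv.Perm.mul_apply]
    rw [show (Λ y).right s₀ = s₀ from hy, show (Λ x).right s₀ = s₀ from hx]
  inv_mem' {x} hx := by
    change (Λ x⁻¹).right s₀ = s₀
    rw [map_inv, SemidirectProduct.inv_right, Equiv.Perm.inv_eq_iff_eq]
    exact (show (Λ x).right s₀ = s₀ from hx).symm

theorem mem_Pst {x : X} : x ∈ Pst Λ s₀ ↔ (Λ x).right s₀ = s₀ := Iff.rfl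

theorem mulS_left (a b : WrS G S) (s : S) : (a * b).left s = a.left s * b.left (a.right⁻¹ s) :=
  rfl

theorem invS_left (a : WrS G S) (s : S) : a⁻¹.left s = (a.left (a.right s))⁻¹ := by
  rw [SemidirectProduct.inv_left]
  change (a.left⁻¹) ((a.right⁻¹)⁻¹ • s) = _
  rw [inv_inv]
  rfl

/-- The label at the point. -/
def psi : Pst Λ s₀ →* G where
  toFun x := (Λ x).left s₀
  map_one' := by
    change (Λ 1).left s₀ = 1
    rw [map_one]
    rfl
  map_mul' x y := by
    change (Λ (x * y)).left s₀ = _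
    have h : (Λ x).right⁻¹ s₀ = s₀ := by
      rw [Equiv.Perm.inv_eq_iff_eq]
      exact (show (Λ x).right s₀ = s₀ from x.2).symm
    rw [map_mul, mulS_left, h]

variable (htr : ∀ s, ∃ x, (Λ x).right s₀ = s)

/-- The cosets and the points. -/
noncomputable def eS : (X ⧸ Pst Λ s₀) ≃ S :=
  Equiv.ofBijective (Quotient.lift (fun x => (Λ x).right s₀) (fun x y h => by
      have h1 : x⁻¹ * y ∈ Pst Λ s₀ := QuotientGroup.leftRel_apply.1 h
      rw [mem_Pst, map_mul, map_inv, SemidirectProduct.mul_right, SemidirectProduct.inv_right,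
        Equiv.Perm.mul_apply, Equiv.Perm.inv_eq_iff_eq] at h1
      exact h1.symm))
    ⟨by
      rintro ⟨x⟩ ⟨y⟩ h
      apply Quotient.sound
      apply QuotientGroup.leftRel_apply.2
      rw [mem_Pst, map_mul, map_inv, SemidirectProduct.mul_right, SemidirectProduct.inv_right,
        Equiv.Perm.mul_apply, Equiv.Perm.inv_eq_iff_eq]
      exact (show (Λ x).right s₀ = (Λ y).right s₀ from h).symm, fun s => by
      obtain ⟨x, hx⟩ := htr s
      exact ⟨QuotientGroup.mk x, hx⟩⟩

theorem eS_mk (x : X) : eS Λ s₀ htr (QuotientGroup.mk x) = (Λ x).right s₀ := rfl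

theorem eS_out (q : X ⧸ Pst Λ s₀) : (Λ q.out).right s₀ = eS Λ s₀ htr q := by
  rw [← eS_mk Λ s₀ htr, QuotientGroup.out_eq']

theorem eS_smul (x : X) (q : X ⧸ Pst Λ s₀) :
    eS Λ s₀ htr (x • q) = (Λ x).right (eS Λ s₀ htr q) := by
  obtain ⟨y, rfl⟩ := QuotientGroup.mk_surjective q
  rw [MulAction.Quotient.smul_mk, eS_mk, eS_mk, smul_eq_mul, map_mul]
  rfl

include htr in
theorem index_Pst : (Pst Λ s₀).index = Nat.card S := by
  rw [Subgroup.index]
  exact Nat.card_congr (eS Λ s₀ htr)

include htr in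
theorem even_Pst [Fintype S] [DecidableEq S] (hev : ∀ x, Equiv.Perm.sign (Λ x).right = 1)
    (x : X) (f : Equiv.Perm (X ⧸ Pst Λ s₀)) (hf : ∀ q, f q = x • q)
    (_ : Fintype (X ⧸ Pst Λ s₀)) (_ : DecidableEq (X ⧸ Pst Λ s₀)) :
    Equiv.Perm.sign f = 1 := by
  rw [← hev x]
  refine Equiv.Perm.sign_eq_sign_of_equiv f (Λ x).right (eS Λ s₀ htr) fun q => ?_
  rw [hf, eS_smul]

theorem psi_surj [DecidableEq S]
    (hb : ∀ g : G, ∃ x, Λ x = SemidirectProduct.inl (Pi.mulSingle s₀ g)) :
    Function.Surjective (psi Λ s₀) := by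
  intro g
  obtain ⟨x, hx⟩ := hb g
  refine ⟨⟨x, ?_⟩, ?_⟩
  · rw [mem_Pst, hx]
    rfl
  · change (Λ x).left s₀ = g
    rw [hx]
    simp

include htr in
/-- The condition for the Kummer part. -/
theorem kum_Pst [DecidableEq S] [Fintype (X ⧸ Pst Λ s₀)]
    (hb : ∀ g : G, ∃ x, Λ x = SemidirectProduct.inl (Pi.mulSingle s₀ g))
    (a : Abelianization G) : ∃ (γ₀ : X) (h : ∀ g : X, g⁻¹ * γ₀ * g ∈ Pst Λ s₀),
      ∏ q : X ⧸ Pst Λ s₀, Abelianization.of (psi Λ s₀ ⟨q.out⁻¹ * γ₀ * q.out, h _⟩) = a := by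
  classical
  obtain ⟨g, rfl⟩ := QuotientGroup.mk_surjective a
  obtain ⟨γ₀, hγ₀⟩ := hb g
  have hr : ∀ x : X, (Λ (x⁻¹ * γ₀ * x)).right = 1 := by
    intro x
    rw [map_mul, map_mul, map_inv, SemidirectProduct.mul_right, SemidirectProduct.mul_right,
      SemidirectProduct.inv_right, hγ₀, SemidirectProduct.right_inl, mul_one, inv_mul_cancel]
  have hl : ∀ x : X, Abelianization.of ((Λ (x⁻¹ * γ₀ * x)).left s₀) =
      Abelianization.of ((Pi.mulSingle s₀ g : S → G) ((Λ x).right s₀)) := by
    intro x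
    rw [map_mul, map_mul, map_inv, mulS_left, mulS_left, invS_left, hγ₀]
    simp only [SemidirectProduct.mul_right, SemidirectProduct.inv_right,
      SemidirectProduct.right_inl, SemidirectProduct.left_inl, mul_one, inv_inv]
    rw [map_mul, map_mul, map_inv, mul_comm, mul_inv_cancel_left]
  refine ⟨γ₀, fun x => ?_, ?_⟩
  · rw [mem_Pst, hr]
    rfl
  · have h1 : ∀ q : X ⧸ Pst Λ s₀, ∀ h : q.out⁻¹ * γ₀ * q.out ∈ Pst Λ s₀,
        Abelianization.of (psi Λ s₀ ⟨q.out⁻¹ * γ₀ * q.out, h⟩) =
        Abelianization.of ((Pi.mulSingle s₀ g : S → G) (eS Λ s₀ htr q)) := by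
      intro q h
      have h2 := hl q.out
      rw [eS_out Λ s₀ htr] at h2
      exact h2
    rw [Finset.prod_congr rfl fun q _ => h1 q _]
    rw [Finset.prod_eq_single ((eS Λ s₀ htr).symm s₀)]
    · rw [Equiv.apply_symm_apply, Pi.mulSingle_eq_same]
      rfl
    · intro q _ hq
      rw [Pi.mulSingle_eq_of_ne, map_one]
      intro h2
      apply hq
      exact (Equiv.eq_symm_apply _).2 h2
    · intro h
      exact absurd (Finset.mem_univ _) h

end lam

section V

variable (G V : Type) [Group G] [Group V]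

/-- The regular wreath product. -/
abbrev RW : Type := (V → G) ⋊[mulAutArrow] V

variable {G V} {r : ℕ}

/-- The permutation of the points. -/
def permL (w : Wr (RW G V) r) : Equiv.Perm (Fin r × V) where
  toFun s := (w.right s.1, (w.left (w.right s.1)).right * s.2)
  invFun s := (w.right⁻¹ s.1, (w.left s.1).right⁻¹ * s.2)
  left_inv s := by
    ext
    · simp
    · simp
  right_inv s := by
    ext
    · simp
    · simp

/-- The embedding in the wreath product. -/
def Lam : Wr (RW G V) r →* WrS G (Fin r × V) where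
  toFun w := ⟨fun s => (w.left s.1).left s.2, permL w⟩
  map_one' := by
    apply SemidirectProduct.ext
    · rfl
    · ext s
      · rfl
      · change (1 : V) * s.2 = s.2
        rw [one_mul]
  map_mul' a b := by
    apply SemidirectProduct.ext
    · rfl
    · ext s
      · rfl
      · change ((a * b).left ((a * b).right s.1)).right * s.2 =
          (a.left (a.right (b.right s.1))).right * ((b.left (b.right s.1)).right * s.2)
        have h : a.right⁻¹ (a.right (b.right s.1)) = b.right s.1 := a.right.symm_apply_apply _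
        rw [wr_mul_left, wr_mul_right, Equiv.Perm.mul_apply, h,
          SemidirectProduct.mul_right, mul_assoc]

theorem Lam_tr (i₀ : Fin r) (s : Fin r × V) :
    ∃ x : Wr (RW G V) r, (Lam x).right (i₀, 1) = s := by
  refine ⟨⟨fun _ => ⟨1, s.2⟩, Equiv.swap i₀ s.1⟩, ?_⟩
  change (Equiv.swap i₀ s.1 i₀, s.2 * 1) = s
  rw [Equiv.swap_apply_left, mul_one]

theorem Lam_base [DecidableEq V] (i₀ : Fin r) (g : G) :
    ∃ x : Wr (RW G V) r, Lam x = SemidirectProduct.inl (Pi.mulSingle (i₀, 1) g) := by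
  refine ⟨SemidirectProduct.inl (Pi.mulSingle i₀ (SemidirectProduct.inl (Pi.mulSingle 1 g))), ?_⟩
  apply SemidirectProduct.ext
  · funext s
    obtain ⟨i, v⟩ := s
    change ((Pi.mulSingle i₀ (SemidirectProduct.inl (Pi.mulSingle 1 g)) : Fin r → RW G V) i).left v
      = (Pi.mulSingle (i₀, 1) g : Fin r × V → G) (i, v)
    by_cases hi : i = i₀
    · subst hi
      rw [Pi.mulSingle_eq_same, SemidirectProduct.left_inl]
      by_cases hv : v = 1
      · subst hv
        rw [Pi.mulSingle_eq_same, Pi.mulSingle_eq_same]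
      · rw [Pi.mulSingle_eq_of_ne hv, Pi.mulSingle_eq_of_ne]
        intro h
        exact hv (congrArg Prod.snd h)
    · rw [Pi.mulSingle_eq_of_ne hi, Pi.mulSingle_eq_of_ne]
      · rfl
      · intro h
        exact hi (congrArg Prod.fst h)
  · ext s
    · rfl
    · change ((Pi.mulSingle i₀ (SemidirectProduct.inl (Pi.mulSingle 1 g)) :
        Fin r → RW G V) s.1).right * s.2 = s.2
      by_cases hi : s.1 = i₀
      · rw [hi, Pi.mulSingle_eq_same, SemidirectProduct.right_inl, one_mul]
      · rw [Pi.mulSingle_eq_of_ne hi]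
        change (1 : V) * s.2 = s.2
        rw [one_mul]

theorem Lam_sign [Fintype V] [DecidableEq V] (hV : Even (Fintype.card V))
    (hV2 : ∀ v : V, Equiv.Perm.sign (Equiv.mulLeft v) = 1) (w : Wr (RW G V) r) :
    Equiv.Perm.sign (Lam w).right = 1 := by
  have h1 : (Lam w).right = Equiv.prodCongrRight (fun i => Equiv.mulLeft (w.left i).right) *
      Equiv.prodCongrLeft (fun _ => w.right) := by
    ext s
    · rfl
    · rfl
  rw [h1, map_mul, Equiv.Perm.sign_prodCongrRight, Equiv.Perm.sign_prodCongrLeft]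
  simp only [hV2, Finset.prod_const_one, one_mul, Finset.prod_const, Finset.card_univ]
  obtain ⟨a, ha⟩ := hV
  rw [ha, ← two_mul, pow_mul, Int.units_sq, one_pow]

end V

/-- The Klein four-group. -/
abbrev V4 : Type := Multiplicative (ZMod 2) × Multiplicative (ZMod 2)

theorem V4_card : Fintype.card V4 = 4 := rfl

theorem V4_sign : ∀ v : V4, Equiv.Perm.sign (Equiv.mulLeft v) = 1 := by
  decide

end Pool.Agent.K3h17
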