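import Mathlib
import Pool.Agent.K3h17.Fq
import Pool.Agent.K3h17.Fr
import Pool.Agent.K3h17.Fs
import Pool.Agent.Y793.Fin
import Pool.Agent.K3h53.Evn.Main
import Pool.Agent.K3h71.IgpGrp
import Pool.Agent.K3h79.IGP.Lift
import Pool.Agent.K3h79.IGP.Der
import Pool.Agent.K3h53.Cyc.Main
import Pool.Agent.K3h53.Fam.Main
import Pool.Agent.K3h37.IGP.Ort2
import Pool.Agent.K3h79.IGP.Sml
import Pool.Agent.K3h73.Kum

set_option autoImplicit false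
set_option linter.unusedSectionVars false
set_option linter.unusedSimpArgs false

namespace Pool.Agent.K3h17

open Polynomial Pool.Agent.H391R2 Pool.Agent.H391R2.T4 Pool.Agent.Y793

section core

variable {K Ω ι : Type} [Field K] [CharZero K] [Field Ω] [Algebra (RatFunc K) Ω] [Algebra K Ω]
  [IsScalarTower K (RatFunc K) Ω] [FiniteDimensional (RatFunc K) Ω] [IsGalois (RatFunc K) Ω]
  [Fintype ι] (d : Dat K Ω ι)

theorem core' (hreg : ∀ y : Ω, IsAlgebraic K y → y ∈ Set.range (algebraMap K Ω))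
    (P : Subgroup (Ω ≃ₐ[RatFunc K] Ω)) (hPd : d.P = P)
    (G : Type) [Group G] [Finite G] (ψ : P →* G) (hψ : Function.Surjective ψ)
    [Fintype ((Ω ≃ₐ[RatFunc K] Ω) ⧸ P)]
    (hψ2 : ∀ a : Abelianization G, ∃ (γ₀ : Ω ≃ₐ[RatFunc K] Ω)
      (h : ∀ g : Ω ≃ₐ[RatFunc K] Ω, g⁻¹ * γ₀ * g ∈ P),
      ∏ q : (Ω ≃ₐ[RatFunc K] Ω) ⧸ P,
        Abelianization.of (ψ ⟨q.out⁻¹ * γ₀ * q.out, h _⟩) = a)
    (hn : (4 * d.m) ^ 4 + 4 < d.m * (2 * d.k + 1)) :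
    RegSol K K (AWr G (d.m * (2 * d.k + 1))) 1 := by
  subst hPd
  exact d.core Y203.J.t_gen Y203.J.t_iso Y241.WR.t_ext Y241.WR.t_star Y203.J.Ari.t_arith
    K3h79.IGP.t_lift K3h79.IGP.t_sml K3h73.t_kum K3h53.Evn.t_evn K3h71.IG.t_grp hreg G ψ hψ hψ2 hn

end core

/-- The main theorem. -/
theorem main (K : Type) [Field K] [CharZero K] (G : Type) [Group G] [Finite G] :
    ∃ r₀ : ℕ, ∀ r ≥ r₀, ∃ k₀ : ℕ, ∀ k ≥ k₀, RegSol K K (AWr G (4 * r * (2 * k + 1))) 1 := by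
  classical
  have hfin : Finite (RW G V4) := Finite.of_equiv ((V4 → G) × V4)
    { toFun := fun p => ⟨p.1, p.2⟩
      invFun := fun w => (w.left, w.right)
      left_inv := fun _ => rfl
      right_inv := fun _ => rfl }
  obtain ⟨n₀, hn₀⟩ := reg_wr K (RW G V4)
  refine ⟨n₀ + 1, fun r hr => ?_⟩
  have hΓ := hn₀ r (by omega)
  obtain ⟨Z, i1, i2, i3, i4, i5, i6, i7, i8, γ, -, hreg⟩ := hΓ
  have h34 : i3 = i4 := Algebra.algebra_ext i3 i4 (fun x =>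
    (@IsScalarTower.algebraMap_apply K K Z _ _ _ _ i3 i4 i6 x).symm)
  subst h34
  let Λ : (Z ≃ₐ[RatFunc K] Z) →* WrS G (Fin r × V4) := Lam.comp (γ : (Z ≃ₐ[RatFunc K] Z) →* _)
  let i₀ : Fin r := ⟨0, by omega⟩
  let s₀ : Fin r × V4 := (i₀, 1)
  have htr : ∀ s, ∃ x, (Λ x).right s₀ = s := by
    intro s
    obtain ⟨x, hx⟩ := Lam_tr (G := G) i₀ s
    refine ⟨γ.symm x, ?_⟩
    change (Lam (γ (γ.symm x))).right s₀ = s
    rw [MulEquiv.apply_symm_apply]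
    exact hx
  have hb : ∀ g : G, ∃ x, Λ x = SemidirectProduct.inl (Pi.mulSingle s₀ g) := by
    intro g
    obtain ⟨x, hx⟩ := Lam_base (V := V4) i₀ g
    refine ⟨γ.symm x, ?_⟩
    change Lam (γ (γ.symm x)) = _
    rw [MulEquiv.apply_symm_apply]
    exact hx
  have hsign : ∀ x, Equiv.Perm.sign (Λ x).right = 1 := fun x =>
    Lam_sign ⟨2, rfl⟩ V4_sign _
  have hind : (Pst Λ s₀).index = 4 * r := by
    rw [index_Pst Λ s₀ htr, Nat.card_eq_fintype_card, Fintype.card_prod, Fintype.card_fin,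
      V4_card, mul_comm]
  obtain ⟨k₁, hk₁⟩ := exists_dat K3h79.IGP.t_der K3h53.Fam.t_fam K3h37.Ort.t_ort hreg (Pst Λ s₀)
    (by rw [hind]; exact ⟨2 * r, by ring⟩) (fun x f hf j1 j2 => even_Pst Λ s₀ htr hsign x f hf j1 j2)
  refine ⟨k₁ + (4 * (4 * r)) ^ 4 + 4, fun k hk => ?_⟩
  obtain ⟨ι, i9, d, hP, hdk⟩ := hk₁ k (by omega)
  have hm : d.m = 4 * r := by rw [← d.hPm, hP, hind]
  let i10 : Fintype ((Z ≃ₐ[RatFunc K] Z) ⧸ Pst Λ s₀) := Fintype.ofFinite _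
  have h1 := core' d hreg (Pst Λ s₀) hP G (psi Λ s₀) (psi_surj Λ s₀ hb)
    (kum_Pst Λ s₀ htr hb) (by
      rw [hm, hdk]
      have h2 : 1 * (2 * k + 1) ≤ 4 * r * (2 * k + 1) := Nat.mul_le_mul_right _ (by omega)
      omega)
  have h2 : d.m * (2 * d.k + 1) = 4 * r * (2 * k + 1) := by rw [hm, hdk]
  rw [h2] at h1
  exact h1

end Pool.Agent.K3h17
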