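import Mathlib
import Pool.Agent.K3h17.Fr
import Pool.Agent.Y793.E.Core

set_option autoImplicit false
set_option linter.unusedSectionVars false
set_option linter.unusedSimpArgs false

/-!
Base change of the data from `K` to `L`.
-/

namespace Pool.Agent.K3h17

open Polynomial Pool.Agent.H391R2 Pool.Agent.H391R2.T4 Pool.Agent.Y793

section der

variable {K L Z : Type} [Field K] [CharZero K] [Field L] [Algebra K L] [FiniteDimensional K L]
  [Field Z] [Algebra L Z] [Algebra K Z] [IsScalarTower K L Z]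

theorem der_const (δ : Derivation K Z Z) (l : L) : δ (algebraMap L Z l) = 0 := by
  have h1 : aeval l (minpoly K l) = 0 := minpoly.aeval K l
  have hsep : (minpoly K l).Separable := (minpoly.irreducible
    (Algebra.IsIntegral.isIntegral l)).separable
  have h2 : aeval l (derivative (minpoly K l)) ≠ 0 := hsep.aeval_derivative_ne_zero h1
  have h3 : aeval (algebraMap L Z l) (minpoly K l) = 0 := by
    rw [aeval_algebraMap_apply, h1, map_zero]
  have h4 := congrArg δ h3
  rw [Derivation.map_aeval, map_zero, smul_eq_mul, aeval_algebraMap_apply] at h4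
  rcases mul_eq_zero.1 h4 with h5 | h5
  · exact absurd ((map_eq_zero (algebraMap L Z)).1 h5) h2
  · exact h5

/-- The derivation over `L`. -/
def derL (L : Type) [Field L] [Algebra K L] [FiniteDimensional K L] [Algebra L Z]
    [IsScalarTower K L Z] (δ : Derivation K Z Z) : Derivation L Z Z where
  toFun := δ
  map_add' := δ.map_add
  map_smul' := by
    intro l z
    change δ (l • z) = l • δ z
    rw [Algebra.smul_def, Derivation.leibniz, der_const, smul_zero, add_zero, smul_eq_mul,
      Algebra.smul_def]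
  map_one_eq_zero' := δ.map_one_eq_zero
  leibniz' := δ.leibniz

theorem derL_apply (δ : Derivation K Z Z) (z : Z) : derL L δ z = δ z := rfl

end der

section bc

variable {K L Z : Type} [Field K] [Field L] [Algebra K L] [Field Z]
  [Algebra (RatFunc K) Z] [Algebra L Z] [Algebra K Z] [IsScalarTower K (RatFunc K) Z]
  [IsScalarTower K L Z] [Algebra (RatFunc K) (RatFunc L)] [Algebra (RatFunc L) Z]
  [IsScalarTower (RatFunc K) (RatFunc L) Z] [IsScalarTower L (RatFunc L) Z]
  (hp : ∀ p : K[X], algebraMap (RatFunc K) (RatFunc L) (algebraMap K[X] (RatFunc K) p) =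
        algebraMap L[X] (RatFunc L) (p.map (algebraMap K L)))

include hp

theorem xx_bc : xx L Z = xx K Z := by
  have h1 := pol_bc (Z := Z) hp (X : K[X])
  rw [mpL, map_X, RatFunc.algebraMap_X, RatFunc.algebraMap_X] at h1
  exact h1

theorem aev_bc (p : K[X]) : aeval (xx L Z) (mpL K L p) = aeval (xx K Z) p := by
  rw [xx_bc hp, mpL, aeval_map_algebraMap]

end bc

section grp

variable {K L Z : Type} [Field K] [Field L] [Algebra K L] [Field Z]
  [Algebra (RatFunc K) Z] [Algebra L Z] [Algebra K Z] [IsScalarTower K (RatFunc K) Z]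
  [IsScalarTower K L Z] [Algebra (RatFunc K) (RatFunc L)] [Algebra (RatFunc L) Z]
  [IsScalarTower (RatFunc K) (RatFunc L) Z] [IsScalarTower L (RatFunc L) Z]

/-- The subgroup over `L`. -/
noncomputable def PL (P : Subgroup (Z ≃ₐ[RatFunc K] Z)) : Subgroup (Z ≃ₐ[RatFunc L] Z) :=
  P.comap (AlgEquiv.restrictScalarsHom (RatFunc K))

theorem mem_PL (P : Subgroup (Z ≃ₐ[RatFunc K] Z)) (γ : Z ≃ₐ[RatFunc L] Z) :
    γ ∈ PL P ↔ γ.restrictScalars (RatFunc K) ∈ P := Iff.rfl

variable (hp : ∀ p : K[X], algebraMap (RatFunc K) (RatFunc L) (algebraMap K[X] (RatFunc K) p) =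
        algebraMap L[X] (RatFunc L) (p.map (algebraMap K L)))
  (π : (Z ≃ₐ[RatFunc K] Z) →* (L ≃ₐ[K] L))
  (hπ : ∀ (σ : Z ≃ₐ[RatFunc K] Z) (x : L), σ (algebraMap L Z x) = algebraMap L Z (π σ x))

include hp hπ

theorem range_res : (AlgEquiv.restrictScalarsHom (RatFunc K) :
    (Z ≃ₐ[RatFunc L] Z) →* (Z ≃ₐ[RatFunc K] Z)).range = π.ker := by
  ext γ
  rw [MonoidHom.mem_range, MonoidHom.mem_ker]
  constructor
  · rintro ⟨γ', rfl⟩
    exact ker_restrict π hπ γ'
  · intro h
    obtain ⟨γ', hγ'⟩ := lift_ker hp π hπ γ h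
    exact ⟨γ', AlgEquiv.ext hγ'⟩

theorem index_PL [Finite (Z ≃ₐ[RatFunc K] Z)] (P : Subgroup (Z ≃ₐ[RatFunc K] Z))
    (hP : P.map π = ⊤) : (PL (L := L) P).index = P.index := by
  rw [PL, Subgroup.index_comap, range_res hp π hπ]
  have h1 : P ⊔ π.ker = ⊤ := by
    rw [Subgroup.eq_top_iff']
    intro γ
    have h2 : π γ ∈ P.map π := by
      rw [hP]
      exact Subgroup.mem_top _
    obtain ⟨q, hq, hq2⟩ := Subgroup.mem_map.1 h2
    have h3 : q⁻¹ * γ ∈ π.ker := by
      rw [MonoidHom.mem_ker, map_mul, map_inv, hq2, inv_mul_cancel]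
    have h4 : γ = q * (q⁻¹ * γ) := by rw [mul_inv_cancel_left]
    rw [h4]
    exact Subgroup.mul_mem_sup hq h3
  have e1 : π.ker.relIndex (P ⊔ π.ker) = π.ker.relIndex P := Subgroup.relIndex_sup_right _ _
  rw [h1, Subgroup.relIndex_top_right] at e1
  have c1 : (P ⊓ π.ker).relIndex P * P.index = (P ⊓ π.ker).index :=
    Subgroup.relIndex_mul_index inf_le_left
  have c2 : (P ⊓ π.ker).relIndex π.ker * π.ker.index = (P ⊓ π.ker).index :=
    Subgroup.relIndex_mul_index inf_le_right
  have hk : 0 < π.ker.index := Nat.pos_of_ne_zero Subgroup.index_ne_zero_of_finite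
  rw [Subgroup.inf_relIndex_left, ← e1] at c1
  rw [Subgroup.inf_relIndex_right, ← c1, mul_comm π.ker.index] at c2
  exact Nat.eq_of_mul_eq_mul_right hk c2

end grp

end Pool.Agent.K3h17
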