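import Mathlib
import Pool.Agent.K3h17.Ga

set_option autoImplicit false
set_option linter.unusedSectionVars false
set_option linter.unusedSimpArgs false

/-!
Base change of the data from `K` to `L`.
-/

namespace Pool.Agent.K3h17

open Polynomial Pool.Agent.H391R2 Pool.Agent.H391R2.T4 Pool.Agent.Y793

theorem li_bc {K L ι : Type} [Field K] [Field L] [Algebra K L] [Fintype ι] (κ : ι → K[X])
    (h : LinearIndependent K κ) : LinearIndependent L (fun i => mpL K L (κ i)) := by
  rw [Fintype.linearIndependent_iff]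
  intro c hc i
  let b := Module.Basis.ofVectorSpace K L
  have h1 : ∀ s, ∑ i, C (b.repr (c i) s) * κ i = 0 := by
    intro s
    ext n
    have h2 := congrArg (fun p => b.repr (p.coeff n) s) hc
    simp only [finsetSum_coeff, coeff_smul, coeff_map, smul_eq_mul, coeff_zero, map_zero,
      map_sum, Finsupp.finsetSum_apply, Finsupp.coe_zero, Pi.zero_apply] at h2
    simp only [finsetSum_coeff, coeff_C_mul, coeff_zero]
    rw [← h2]
    refine Finset.sum_congr rfl fun j _ => ?_
    rw [mul_comm (c j), ← Algebra.smul_def, map_smul, Finsupp.smul_apply, smul_eq_mul, mul_comm]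
  have h3 : ∀ s, b.repr (c i) s = 0 := by
    intro s
    refine Fintype.linearIndependent_iff.1 h (fun i => b.repr (c i) s) ?_ i
    rw [← h1 s]
    refine Finset.sum_congr rfl fun j _ => ?_
    rw [smul_eq_C_mul]
  have h4 : b.repr (c i) = 0 := Finsupp.ext h3
  exact b.repr.map_eq_zero_iff.1 h4

section bc

variable {K L Z ι : Type} [Field K] [CharZero K] [Field L] [Algebra K L] [FiniteDimensional K L]
  [Field Z]
  [Algebra (RatFunc K) Z] [Algebra L Z] [Algebra K Z] [IsScalarTower K (RatFunc K) Z]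
  [IsScalarTower K L Z] [Algebra (RatFunc K) (RatFunc L)] [Algebra (RatFunc L) Z]
  [IsScalarTower (RatFunc K) (RatFunc L) Z] [IsScalarTower L (RatFunc L) Z]
  [FiniteDimensional (RatFunc K) Z] [Fintype ι]
  (hp : ∀ p : K[X], algebraMap (RatFunc K) (RatFunc L) (algebraMap K[X] (RatFunc K) p) =
        algebraMap L[X] (RatFunc L) (p.map (algebraMap K L)))
  (π : (Z ≃ₐ[RatFunc K] Z) →* (L ≃ₐ[K] L))
  (hπ : ∀ (σ : Z ≃ₐ[RatFunc K] Z) (x : L), σ (algebraMap L Z x) = algebraMap L Z (π σ x))

include hp hπ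

/-- The data over `L`. -/
noncomputable def Dat.bc (d : Dat K Z ι) (hP : d.P.map π = ⊤) : Dat L Z ι where
  δ := derL L d.δ
  P := PL d.P
  m := d.m
  k := d.k
  κ i := mpL K L (d.κ i)
  p := mpL K L d.p
  y := d.y
  W := d.W
  H := d.H
  e := d.e
  D r := mpL K L (d.D r)
  g := mpL K L d.g
  aW i r s := mpL K L (d.aW i r s)
  aH r s := mpL K L (d.aH r s)
  i₁ := d.i₁
  hδx := by
    change d.δ (xx L Z) = 1
    rw [xx_bc hp]
    exact d.hδx
  hδg γ z := d.hδg (γ.restrictScalars (RatFunc K)) z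
  hPm := by
    rw [index_PL hp π hπ d.P hP]
    exact d.hPm
  hm := d.hm
  hm0 := d.hm0
  hy γ := d.hy (γ.restrictScalars (RatFunc K))
  hH := by
    rw [aev_bc hp]
    exact d.hH
  hW i := by
    rw [aev_bc hp]
    exact d.hW i
  he r γ hγ := d.he r (γ.restrictScalars (RatFunc K)) hγ
  hsum := by
    rw [← d.hsum]
    refine Finset.sum_congr rfl fun r _ => ?_
    rw [aev_bc hp]
  hD r := (Polynomial.map_ne_zero_iff (algebraMap K L).injective).2 (d.hD r)
  hg := by
    have h := congrArg (Polynomial.map (algebraMap K L)) d.hg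
    rw [Polynomial.map_pow, Polynomial.map_prod] at h
    exact h
  haWs i r s := by rw [d.haWs]
  haHs r s := by rw [d.haHs]
  haW i r := by
    rw [aev_bc hp, d.haW]
    congr 1
    refine Finset.sum_congr rfl fun s _ => ?_
    rw [aev_bc hp]
  haH r := by
    rw [aev_bc hp, d.haH]
    congr 1
    refine Finset.sum_congr rfl fun s _ => ?_
    rw [aev_bc hp]
  haWd i r s := by
    have h := d.haWd i r s
    rw [← natDegree_map (algebraMap K L), Polynomial.map_mul, Polynomial.map_mul] at h
    exact h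
  haHd r s := by
    have h := d.haHd r s
    rw [← natDegree_map (algebraMap K L), Polynomial.map_mul, Polynomial.map_mul] at h
    exact h
  hli := li_bc d.κ d.hli
  hκ1 := by
    rw [mpL, natDegree_map]
    exact d.hκ1
  hκ2 i hi := by
    rw [mpL, natDegree_map]
    exact d.hκ2 i hi
  hκ3 := by
    obtain ⟨i, hi, h⟩ := d.hκ3
    refine ⟨i, hi, ?_⟩
    rw [mpL, natDegree_map]
    exact h
  hk2 := d.hk2
  hp := by
    rw [mpL, natDegree_map]
    exact d.hp
  hcard := d.hcard

end bc

section bf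

variable {K L Z ι : Type} [Field K] [CharZero K] [Field L] [Algebra K L] [FiniteDimensional K L]
  [Field Z]
  [Algebra (RatFunc K) Z] [Algebra L Z] [Algebra K Z] [IsScalarTower K (RatFunc K) Z]
  [IsScalarTower K L Z] [Algebra (RatFunc K) (RatFunc L)] [Algebra (RatFunc L) Z]
  [IsScalarTower (RatFunc K) (RatFunc L) Z] [IsScalarTower L (RatFunc L) Z]
  [FiniteDimensional (RatFunc K) Z] [Fintype ι]
  (hp : ∀ p : K[X], algebraMap (RatFunc K) (RatFunc L) (algebraMap K[X] (RatFunc K) p) =
        algebraMap L[X] (RatFunc L) (p.map (algebraMap K L)))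
  (π : (Z ≃ₐ[RatFunc K] Z) →* (L ≃ₐ[K] L))
  (hπ : ∀ (σ : Z ≃ₐ[RatFunc K] Z) (x : L), σ (algebraMap L Z x) = algebraMap L Z (π σ x))
  (d : Dat K Z ι) (hP : d.P.map π = ⊤)
  {E : Type} [CommRing E] [Algebra K E] [Algebra L E] [IsScalarTower K L E]

theorem hp'_bc (v : Option ι → E) : (d.bc hp π hπ hP).hp' v = d.hp' v := by
  have h1 : algebraMap L E (1 / 2) = algebraMap K E (1 / 2) := by
    rw [IsScalarTower.algebraMap_apply K L E]
    congr 1
    rw [map_div₀, map_one, map_ofNat]
  unfold Dat.hp' Dat.lk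
  rw [h1]
  congr 1
  · refine Finset.sum_congr rfl fun i _ => ?_
    congr 1
    exact mpL_map _
  · congr 1
    exact mpL_map _

theorem BF_bc (v v' : Option ι → E) (φ : Z →ₐ[L] E) :
    (d.bc hp π hπ hP).BF v v' φ = d.BF v v' (φ.restrictScalars K) := by
  unfold Dat.BF
  rw [hp'_bc, hp'_bc, adr_bc (K := K), xx_bc hp]
  rfl

end bf

end Pool.Agent.K3h17
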