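import Mathlib
import Pool.Agent.K3h17.Ft
import Pool.Agent.K3h17.Gb
import Pool.Agent.Y576.AE.Ari

set_option autoImplicit false
set_option linter.unusedSectionVars false
set_option linter.unusedSimpArgs false

/-!
The alternating fibre powers: the core.
-/

namespace Pool.Agent.K3h17

open Polynomial Pool.Agent.H391R2 Pool.Agent.H391R2.T4 Pool.Agent.Y793

section geo

variable {K Ω ι : Type} [Field K] [CharZero K] [Field Ω] [Algebra (RatFunc K) Ω] [Algebra K Ω]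
  [IsScalarTower K (RatFunc K) Ω] [FiniteDimensional (RatFunc K) Ω] [IsGalois (RatFunc K) Ω]
  [Fintype ι] (d : Dat K Ω ι)
variable {K₀ N : Type} [Field K₀] [IsAlgClosed K₀] [Algebra K K₀] [Field N] [IsAlgClosed N]
  [Algebra K₀ N] [Algebra K N] [IsScalarTower K K₀ N] (η : Iy ι → N)
  (hη : IsTranscendenceBasis K₀ η)

include hη

/-- The geometric group is everything. -/
theorem geo (hreg : ∀ y : Ω, IsAlgebraic K y → y ∈ Set.range (algebraMap K Ω))
    (G : Type) [Group G] [Finite G] (ψ : d.P →* G) (hψ : Function.Surjective ψ)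
    [Fintype ((Ω ≃ₐ[RatFunc K] Ω) ⧸ d.P)]
    (hψ2 : ∀ a : Abelianization G, ∃ (γ₀ : Ω ≃ₐ[RatFunc K] Ω)
      (h : ∀ g : Ω ≃ₐ[RatFunc K] Ω, g⁻¹ * γ₀ * g ∈ d.P),
      ∏ q : (Ω ≃ₐ[RatFunc K] Ω) ⧸ d.P,
        Abelianization.of (ψ ⟨q.out⁻¹ * γ₀ * q.out, h _⟩) = a)
    (hn : (4 * d.m) ^ 4 + 4 < d.m * (2 * d.k + 1))
    {φ : Fin (d.m * (2 * d.k + 1)) → (Ω →ₐ[K] N)} (S : d.Sy η _ φ)
    (w : Wr G (d.m * (2 * d.k + 1))) (hw : w ∈ AWr G (d.m * (2 * d.k + 1))) :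
    ∃ x ∈ Dat.HH η d.P φ K₀, wrMap ψ _ x = w := by
  classical
  have hn9 : 9 ≤ d.m * (2 * d.k + 1) := by
    have h1 := d.hm0
    have h2 : 1 ≤ 4 * d.m := by omega
    have h3 : (4 * d.m) ^ 4 ≥ 4 ^ 4 := Nat.pow_le_pow_left (by omega) 4
    omega
  exact grp_concl (P := d.P) (G := G) K3h71.IG.t_grp (d.m * (2 * d.k + 1)) (4 * d.m)
    hn9 hn ψ hψ (Dat.HH η d.P φ K₀)
    (fun a b a' b' hab hab' g h => d.HH_pair η hη Y203.J.t_gen Y203.J.t_iso Y241.WR.t_ext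
      Y241.WR.t_star hreg S a b a' b' hab hab' g h)
    (d.HH_sml η hη Y203.J.t_gen Y203.J.t_iso K3h79.IGP.t_lift K3h79.IGP.t_sml S)
    (fun x hx => by
      obtain ⟨σ, h1, h2⟩ := hx
      exact d.even_x η hη K3h53.Evn.t_evn Y203.J.t_gen Y203.J.t_iso S (σ.restrictScalars K) h1 x h2)
    (fun a => d.HH_kum η hη Y203.J.t_gen Y203.J.t_iso K3h79.IGP.t_lift K3h73.t_kum hreg
      (Abelianization G) (Abelianization.of.comp ψ) hψ2 S a) w hw

end geo

section coreL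

variable {K L Z : Type} [Field K] [CharZero K] [Field L] [Algebra K L] [FiniteDimensional K L]
  [IsGalois K L] [Field Z] [Algebra (RatFunc K) Z] [Algebra L Z] [Algebra K Z]
  [IsScalarTower K (RatFunc K) Z] [IsScalarTower K L Z] [FiniteDimensional (RatFunc K) Z]
  [IsGalois (RatFunc K) Z]

/-- The core: `Z / K(x)` is Galois, `L` is the algebraic closure of `K` in `Z`, `π` is the
restriction to `L` and the labels of the stabilizer `P` of a point are in the group `B` over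
`Gal(L / K)`. -/
theorem coreL {ι : Type} [Fintype ι] (d : Dat K Z ι)
    (π : (Z ≃ₐ[RatFunc K] Z) →* (L ≃ₐ[K] L))
    (hπ : ∀ (σ : Z ≃ₐ[RatFunc K] Z) (x : L), σ (algebraMap L Z x) = algebraMap L Z (π σ x))
    (hreg : ∀ y : Z, IsAlgebraic L y → y ∈ Set.range (algebraMap L Z))
    (P : Subgroup (Z ≃ₐ[RatFunc K] Z)) (hPd : d.P = P) (hP : P.map π = ⊤)
    (B : Type) [Group B] [Finite B] (α : B →* (L ≃ₐ[K] L)) (ψ : P →* B)
    (hα : ∀ γ : P, α (ψ γ) = π γ) (hψ : Function.Surjective ψ)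
    [Fintype ((Z ≃ₐ[RatFunc K] Z) ⧸ P)]
    (hψ2 : ∀ g : B, α g = 1 → ∃ γ₀ : Z ≃ₐ[RatFunc K] Z, π γ₀ = 1 ∧
      ∃ (h : ∀ g : Z ≃ₐ[RatFunc K] Z, g⁻¹ * γ₀ * g ∈ P),
      ψ ⟨γ₀, by simpa using h 1⟩ = g ∧
      ∀ g : Z ≃ₐ[RatFunc K] Z, g ∉ P → ψ ⟨g⁻¹ * γ₀ * g, h g⟩ = 1)
    (hn : (4 * d.m) ^ 4 + 4 < d.m * (2 * d.k + 1)) :
    RegSol K L (AltEP α (d.m * (2 * d.k + 1))) (altProj α (d.m * (2 * d.k + 1))) := by
  classical
  subst hPd
  have hcL : CharZero L := charZero_of_injective_algebraMap (algebraMap K L).injective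
  have hcZ : CharZero Z := charZero_of_injective_algebraMap (algebraMap K Z).injective
  obtain ⟨iKL, iLZ, t1, t2, hfd, hgal, hp⟩ := exists_ratL (K := K) (L := L) (F := Z)
  -- the data over `L`
  let dL : Dat L Z ι := d.bc hp π hπ hP
  let k₀ := AlgebraicClosure K
  let jL : L →ₐ[K] k₀ := IsAlgClosed.lift
  let iL : Algebra L k₀ := jL.toRingHom.toAlgebra
  have tKL : IsScalarTower K L k₀ := .of_algebraMap_eq fun x => (jL.commutes x).symm
  obtain ⟨N, i1, i2, i3, η, hη⟩ := exists_trb k₀ (Iy ι)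
  let i4 : Algebra K N := ((algebraMap k₀ N).comp (algebraMap K k₀)).toAlgebra
  let i4L : Algebra L N := ((algebraMap k₀ N).comp (algebraMap L k₀)).toAlgebra
  have i5 : IsScalarTower K k₀ N := .of_algebraMap_eq fun _ => rfl
  have i5L : IsScalarTower L k₀ N := .of_algebraMap_eq fun _ => rfl
  have i6 : IsScalarTower K L N := .of_algebraMap_eq fun x => by
    rw [IsScalarTower.algebraMap_apply K k₀ N, IsScalarTower.algebraMap_apply K L k₀,
      ← IsScalarTower.algebraMap_apply L k₀ N]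
  obtain ⟨φ, S⟩ := dL.ex_sy η hη Y203.J.t_gen Y203.J.t_iso K3h79.IGP.t_lift
  set n := d.m * (2 * d.k + 1) with hnn
  let φK : Fin n → (Z →ₐ[K] N) := fun i => (φ i).restrictScalars K
  have hφK : ∀ i z, φK i z = φ i z := fun _ _ => rfl
  have hφL : ∀ i (b : L), φK i (algebraMap L Z b) = algebraMap L N b := fun i b =>
    (φ i).commutes b
  have SK : d.Sy η n φK := by
    refine d.sy_of η hη Y203.J.t_gen Y203.J.t_iso φK (fun i => ?_) (fun i j γ hγ h => ?_)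
    · have h1 := S.pt i
      unfold Dat.Pt at h1 ⊢
      rw [← h1]
      exact (BF_bc hp π hπ d hP _ _ (φ i)).symm
    · have h1 : π γ = 1 := by
        apply AlgEquiv.ext
        intro b
        apply (algebraMap L N).injective
        have h2 := h (algebraMap L Z b)
        rw [hπ, hφL, hφL] at h2
        exact h2.symm
      obtain ⟨γ', hγ'⟩ := lift_ker hp π hπ γ h1
      refine S.ne i j γ' ?_ fun z => ?_
      · change γ'.restrictScalars (RatFunc K) ∈ d.P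
        have h3 : γ'.restrictScalars (RatFunc K) = γ := AlgEquiv.ext hγ'
        rw [h3]
        exact hγ
      · rw [hγ']
        exact h z
  -- the labels over `L`
  let ψL : dL.P →* α.ker :=
    { toFun := fun γ => ⟨ψ ⟨γ.1.restrictScalars (RatFunc K), γ.2⟩, by
        rw [MonoidHom.mem_ker, hα]
        exact ker_restrict π hπ γ.1⟩
      map_one' := Subtype.ext (map_one ψ)
      map_mul' := fun a b => Subtype.ext (map_mul ψ ⟨a.1.restrictScalars (RatFunc K), a.2⟩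
        ⟨b.1.restrictScalars (RatFunc K), b.2⟩) }
  have hψL : Function.Surjective ψL := by
    rintro ⟨g, hg⟩
    obtain ⟨γ, rfl⟩ := hψ g
    have h1 : π γ = 1 := by
      rw [← hα]
      exact hg
    obtain ⟨γ', hγ'⟩ := lift_ker hp π hπ γ.1 h1
    have h3 : γ'.restrictScalars (RatFunc K) = γ := AlgEquiv.ext hγ'
    refine ⟨⟨γ', ?_⟩, ?_⟩
    · change γ'.restrictScalars (RatFunc K) ∈ d.P
      rw [h3]
      exact γ.2
    · apply Subtype.ext
      exact congrArg ψ (Subtype.ext h3)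
  have hfinL : Finite (Z ≃ₐ[RatFunc L] Z) := inferInstance
  let j1 : Fintype ((Z ≃ₐ[RatFunc L] Z) ⧸ dL.P) := Fintype.ofFinite _
  have hψ2L : ∀ a : Abelianization α.ker, ∃ (γ₀ : Z ≃ₐ[RatFunc L] Z)
      (h : ∀ g : Z ≃ₐ[RatFunc L] Z, g⁻¹ * γ₀ * g ∈ dL.P),
      ∏ q : (Z ≃ₐ[RatFunc L] Z) ⧸ dL.P,
        Abelianization.of (ψL ⟨q.out⁻¹ * γ₀ * q.out, h _⟩) = a := by
    intro a
    obtain ⟨g, rfl⟩ := QuotientGroup.mk_surjective a
    obtain ⟨γ₀, h0, h1, h2, h3⟩ := hψ2 g.1 g.2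
    obtain ⟨γ', hγ'⟩ := lift_ker hp π hπ γ₀ h0
    have e1 : ∀ q : Z ≃ₐ[RatFunc L] Z, (q⁻¹ * γ' * q).restrictScalars (RatFunc K) =
        (q.restrictScalars (RatFunc K))⁻¹ * γ₀ * q.restrictScalars (RatFunc K) := by
      intro q
      apply AlgEquiv.ext
      intro z
      change q⁻¹ (γ' (q z)) = (q.restrictScalars (RatFunc K))⁻¹ (γ₀ (q z))
      rw [hγ']
      rfl
    have hmem : ∀ q : Z ≃ₐ[RatFunc L] Z, q⁻¹ * γ' * q ∈ dL.P := by
      intro q
      change (q⁻¹ * γ' * q).restrictScalars (RatFunc K) ∈ d.P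
      rw [e1]
      exact h1 _
    refine ⟨γ', hmem, ?_⟩
    have e2 : ∀ q : Z ≃ₐ[RatFunc L] Z, (ψL ⟨q⁻¹ * γ' * q, hmem q⟩ : B) =
        ψ ⟨(q.restrictScalars (RatFunc K))⁻¹ * γ₀ * q.restrictScalars (RatFunc K), h1 _⟩ :=
      fun q => congrArg ψ (Subtype.ext (e1 q))
    rw [Finset.prod_eq_single (QuotientGroup.mk 1 : (Z ≃ₐ[RatFunc L] Z) ⧸ dL.P)]
    · have h4 : (QuotientGroup.mk 1 : (Z ≃ₐ[RatFunc L] Z) ⧸ dL.P).out ∈ dL.P := by
        have h5 : (QuotientGroup.mk (QuotientGroup.mk 1 : (Z ≃ₐ[RatFunc L] Z) ⧸ dL.P).out :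
            (Z ≃ₐ[RatFunc L] Z) ⧸ dL.P) = QuotientGroup.mk 1 := QuotientGroup.out_eq' _
        rw [QuotientGroup.eq, mul_one] at h5
        exact inv_mem_iff.1 h5
      set q₀ := (QuotientGroup.mk 1 : (Z ≃ₐ[RatFunc L] Z) ⧸ dL.P).out
      have h6 : γ' ∈ dL.P := by
        have h7 := hmem 1
        rwa [inv_one, one_mul, mul_one] at h7
      have h8 : (⟨q₀⁻¹ * γ' * q₀, hmem q₀⟩ : dL.P) = (⟨q₀, h4⟩ : dL.P)⁻¹ * ⟨γ', h6⟩ * ⟨q₀, h4⟩ :=
        rfl
      have h9 : ∀ (F : dL.P →* Abelianization α.ker) (u v : dL.P), F (u⁻¹ * v * u) = F v := by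
        intro F u v
        rw [map_mul, map_mul, map_inv, mul_comm (F u)⁻¹, inv_mul_cancel_right]
      have h10 := h9 (Abelianization.of.comp ψL) ⟨q₀, h4⟩ ⟨γ', h6⟩
      refine (congrArg (Abelianization.of.comp ψL) h8).trans (h10.trans ?_)
      change Abelianization.of (ψL ⟨γ', h6⟩) = Abelianization.of g
      congr 1
      apply Subtype.ext
      rw [← h2]
      exact congrArg ψ (Subtype.ext (AlgEquiv.ext hγ'))
    · intro q _ hq
      have h4 : q.out ∉ dL.P := by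
        intro h5
        apply hq
        rw [← QuotientGroup.out_eq' q, QuotientGroup.eq, mul_one]
        exact inv_mem h5
      have h5 : ψL ⟨q.out⁻¹ * γ' * q.out, hmem q.out⟩ = 1 := by
        apply Subtype.ext
        rw [e2]
        exact h3 (q.out.restrictScalars (RatFunc K)) h4
      rw [h5, map_one]
    · intro h
      exact absurd (Finset.mem_univ _) h
  have hgeo := fun w hw => geo (K := L) (Ω := Z) dL η hη hreg α.ker ψL hψL hψ2L hn S w hw
  -- the function `θ`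
  obtain ⟨θ, hθ⟩ := exists_theta (ψ.ker.map d.P.subtype)
  have hθ' : ∀ γ : d.P, (γ : Z ≃ₐ[RatFunc K] Z) θ = θ ↔ ψ γ = 1 := by
    intro γ
    rw [hθ]
    constructor
    · rintro ⟨γ', h1, h2⟩
      have h3 : γ' = γ := Subtype.ext h2
      rw [← h3]
      exact h1
    · intro h
      exact ⟨γ, h, rfl⟩
  let s : B → d.P := Function.surjInv hψ
  have hs : ∀ g, ψ (s g) = g := Function.surjInv_eq hψ
  have hval : ∀ (γ γ' : d.P), ψ γ = ψ γ' ↔
      (γ : Z ≃ₐ[RatFunc K] Z) θ = (γ' : Z ≃ₐ[RatFunc K] Z) θ := by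
    intro γ γ'
    have h1 := hθ' (γ'⁻¹ * γ)
    rw [map_mul, map_inv, inv_mul_eq_one] at h1
    rw [show (ψ γ = ψ γ') = (ψ γ' = ψ γ) from propext eq_comm, ← h1]
    change (γ' : Z ≃ₐ[RatFunc K] Z)⁻¹ ((γ : Z ≃ₐ[RatFunc K] Z) θ) = θ ↔ _
    constructor
    · intro h
      have h2 := congrArg (γ' : Z ≃ₐ[RatFunc K] Z) h
      have h3 : (γ' : Z ≃ₐ[RatFunc K] Z) ((γ' : Z ≃ₐ[RatFunc K] Z)⁻¹
          ((γ : Z ≃ₐ[RatFunc K] Z) θ)) = (γ : Z ≃ₐ[RatFunc K] Z) θ :=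
        (γ' : Z ≃ₐ[RatFunc K] Z).apply_symm_apply _
      rw [h3] at h2
      exact h2
    · intro h
      rw [h]
      exact (γ' : Z ≃ₐ[RatFunc K] Z).symm_apply_apply _
  have hact : ∀ (σ : N → N) (x : Wr d.P n), Rx φK σ x → ∀ i,
      σ (φK i (xx K Z)) = φK (x.right i) (xx K Z) ∧
      ∀ g, σ (φK i ((s g : Z ≃ₐ[RatFunc K] Z) θ)) =
        φK (x.right i) ((s ((wrMap ψ _ x).left ((wrMap ψ _ x).right i) * g) :
          Z ≃ₐ[RatFunc K] Z) θ) := by
    intro σ x hx i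
    refine ⟨?_, fun g => ?_⟩
    · rw [hx i]
      congr 1
      rw [xx, AlgEquiv.commutes]
    · rw [hx i]
      congr 1
      have h1 : ψ (x.left (x.right i) * s g) =
          ψ (s ((wrMap ψ _ x).left ((wrMap ψ _ x).right i) * g)) := by
        rw [hs, map_mul, hs]
        rfl
      exact (hval _ _).1 h1
  have hn0 : 0 < n := Nat.mul_pos d.hm0 (Nat.succ_pos _)
  refine Y576.AE.Ari.t_arithL K L k₀ N (Iy ι) η hη B α n (fun i => φK i (xx K Z))
    (d.x_inj η hη Y203.J.t_gen Y203.J.t_iso φK SK.pt SK.ne)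
    (fun i g => φK i ((s g : Z ≃ₐ[RatFunc K] Z) θ)) ?_ ?_ ?_
  · intro i g g' h
    have h1 : (s g : Z ≃ₐ[RatFunc K] Z) θ = (s g' : Z ≃ₐ[RatFunc K] Z) θ := (φK i).injective h
    have h2 := (hval _ _).2 h1
    rwa [hs, hs] at h2
  · intro σ hσ
    obtain ⟨x, hx⟩ := d.exists_x0 η SK σ hσ
    have key : ∀ i (b : L), σ (algebraMap L N b) =
        algebraMap L N (π (x.left (x.right i) : Z ≃ₐ[RatFunc K] Z) b) := by
      intro i b
      have h5 := hx i (algebraMap L Z b)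
      rw [hφL, hπ, hφL] at h5
      exact h5
    have i₀ : Fin n := ⟨0, hn0⟩
    refine ⟨(wrMap ψ _ x, π (x.left (x.right i₀) : Z ≃ₐ[RatFunc K] Z)),
      Subgroup.mem_inf.2 ⟨?_, ?_⟩, key i₀, fun i => hact σ x hx i⟩
    · intro j
      obtain ⟨i, rfl⟩ := x.right.surjective j
      change α (ψ (x.left (x.right i))) = π (x.left (x.right i₀) : Z ≃ₐ[RatFunc K] Z)
      rw [hα]
      apply AlgEquiv.ext
      intro b
      apply (algebraMap L N).injective
      rw [← key i b, ← key i₀ b]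
    · exact d.even_x η hη K3h53.Evn.t_evn Y203.J.t_gen Y203.J.t_iso SK σ hσ x hx
  · intro x hx hx1
    obtain ⟨x', ⟨σ, hσ, hR⟩, hx'⟩ := hgeo ⟨fun i => ⟨x.left i, hx1 i⟩, x.right⟩ hx
    let x'' : Wr d.P n := ⟨fun i => ⟨(x'.left i).1.restrictScalars (RatFunc K), (x'.left i).2⟩,
      x'.right⟩
    have hR2 : Rx φK σ x'' := fun i z => hR i z
    have hx2 : wrMap ψ n x'' = x := by
      apply SemidirectProduct.ext
      · funext i
        exact congrArg (fun w : Wr α.ker n => ((w.left i : α.ker) : B)) hx'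
      · exact congrArg (fun w : Wr α.ker n => w.right) hx'
    refine ⟨σ, hσ, fun i => ?_⟩
    have h3 := hact σ x'' hR2 i
    rw [hx2] at h3
    have h4 : x''.right = x.right := congrArg (fun w : Wr B n => w.right) hx2
    rw [h4] at h3
    exact h3

end coreL

end Pool.Agent.K3h17
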