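import Mathlib
import Pool.Agent.K3h17.Stm

/-!
Statements (NOT results) of the bricks of the project on alternating fibre powers of ALL finite
embedding problems over number fields (owner helper17, problem MP_dadaab_nt).
-/

set_option autoImplicit false

namespace Pool.Agent.K3h17

open Polynomial Pool.Agent.H391R2 Pool.Agent.Y793

/-- FAM without any hypothesis on the constants of `Ω` (`K` need not be algebraically closed in
`Ω`). -/
def St_fam2 : Prop :=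
  ∀ (K Ω : Type) [Field K] [CharZero K] [Field Ω] [Algebra (RatFunc K) Ω] [Algebra K Ω]
    [IsScalarTower K (RatFunc K) Ω] [FiniteDimensional (RatFunc K) Ω] [IsGalois (RatFunc K) Ω],
    ∀ (δ : Derivation K Ω Ω), δ (xx K Ω) = 1 →
    (∀ (γ : Ω ≃ₐ[RatFunc K] Ω) (z : Ω), δ (γ z) = γ (δ z)) →
    ∀ (P : Subgroup (Ω ≃ₐ[RatFunc K] Ω)) (m : ℕ) (e : Fin m → Ω),
    (∀ r, ∀ γ ∈ P, γ (e r) = e r) →
    (∀ z : Ω, (∀ γ ∈ P, γ z = z) →
      ∃ c : Fin m → RatFunc K, z = ∑ r, algebraMap (RatFunc K) Ω (c r) * e r) →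
    ∀ Δ : K[X], Δ ≠ 0 →
    ∃ (y : Ω) (p : K[X]) (H : Ω) (C k₀ : ℕ), (∀ γ, γ y = y ↔ γ ∈ P) ∧ Dv e Δ C H ∧
      δ H = y ^ 2 - aeval (xx K Ω) p * y ∧
      ∀ k ≥ k₀, ∃ (κ : K[X]) (W : Ω), κ.natDegree = k ∧ Dv e Δ (k + C) W ∧
        δ W = aeval (xx K Ω) κ * y

end Pool.Agent.K3h17
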