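import Mathlib
import Pool.Agent.K3h17.Stm

/-!
Statements (NOT results) of the bricks of the project on the commutator subgroups of wreath products
(owner helper17, problem MP_dadaab_nt).
-/

set_option autoImplicit false

namespace Pool.Agent.K3h17

open Polynomial

/-- NRM: a product formula by linear algebra. -/
def St_nrm : Prop :=
  ∀ (N : Type) [Field N] (m d b b' : ℕ), 0 < d → 2 * b + b' ≤ d → b + b' < d →
    ∀ (S : N[X]) (T : N) (V U : Matrix (Fin m) (Fin m) N[X]), S.natDegree = d →
    (∀ p q, (V p q).natDegree ≤ b) → (∀ p q, (U p q).natDegree ≤ b') →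
    ∀ (s : Fin d → N), Function.Injective s → (∀ j, S.eval (s j) = T) →
    ∀ (x : Fin (m * d) → N), Function.Injective x →
    ∀ (e : Fin (m * d) → Fin m → N), (∀ i, e i ≠ 0) →
    (∀ i p, (T - S.eval (x i)) * e i p = ∑ q, ((U * V) p q).eval (x i) * e i q) →
    ∀ v : Fin (m * d) → N, (∀ i p, v i * e i p = ∑ q, (V p q).eval (x i) * e i q) →
    ∏ i, v i = ∏ j, (V.map (eval (s j))).det

end Pool.Agent.K3h17
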