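import Mathlib
import Pool.Agent.K3h17.Stm

/-!
Statements (NOT results) of the bricks of the project on the groups between the commutator subgroup
of `G ≀ S_n` and `G ≀ S_n` (owner helper17, problem MP_dadaab_nt).
-/

set_option autoImplicit false

namespace Pool.Agent.K3h17

open Polynomial

/-- EVN with a sign: `g` is only invariant up to the sign `ε`. -/
def St_evn2 : Prop :=
  ∀ (N : Type) [Field N] [CharZero N] (m d : ℕ), Even m → 0 < d →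
    ∀ (σ : N ≃+* N) (S : N[X]) (T : N) (g : N[X]) (D : Fin m → N[X]) (a : Fin m → Fin m → N[X])
      (ε : ℤˣ),
    S.natDegree = d → g ^ 2 = ∏ p, D p → (∀ p, D p ≠ 0) → (∀ p q, a p q = a q p) →
    (∀ p q, (D p * D q * a p q).natDegree < d) →
    ∀ (s : Fin d → N), Function.Injective s → (∀ j, S.eval (s j) = T) →
    (∀ j p, (D p).eval (s j) ≠ 0) →
    ∀ (x : Fin (m * d) → N), Function.Injective x → (∀ i, S.eval (x i) ≠ T) →
    (∀ i p, (D p).eval (x i) ≠ 0) →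
    ∀ (e : Fin (m * d) → Fin m → N) (h : Fin (m * d) → N), (∀ i, h i ≠ 0) →
    (∀ i p, (T - S.eval (x i)) * e i p =
      (D p).eval (x i) * ∑ q, (a p q).eval (x i) * e i q) →
    (∀ i, (derivative S).eval (x i) * ∑ p, e i p ^ 2 / (D p).eval (x i) +
      ∑ p, ∑ q, (derivative (D p)).eval (x i) / (D p).eval (x i) * e i p *
        (a p q).eval (x i) * e i q +
      ∑ p, ∑ q, (derivative (a p q)).eval (x i) * e i p * e i q = h i ^ 2) →
    S.map (σ : N →+* N) = S → σ T = T → g.map (σ : N →+* N) = C (((ε : ℤˣ) : ℤ) : N) * g →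
    (∀ p, (D p).map (σ : N →+* N) = D p) → (∀ p q, (a p q).map (σ : N →+* N) = a p q) →
    ∀ π : Equiv.Perm (Fin (m * d)), (∀ i, σ (x i) = x (π i)) →
    (∀ i p, σ (e i p) = e (π i) p) → (∀ i, σ (h i) = h (π i)) → Equiv.Perm.sign π = ε ^ d

/-- ORT without the hypothesis that the group acts evenly on the cosets. -/
def St_ort2 : Prop :=
  ∀ (K Ω : Type) [Field K] [CharZero K] [Field Ω] [Algebra (RatFunc K) Ω] [Algebra K Ω]
    [IsScalarTower K (RatFunc K) Ω] [FiniteDimensional (RatFunc K) Ω] [IsGalois (RatFunc K) Ω]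
    (P : Subgroup (Ω ≃ₐ[RatFunc K] Ω)),
    ∃ (e : Fin P.index → Ω) (D : Fin P.index → K[X]) (g : Ω) (Δ : K[X]) (C : ℕ),
      (∀ r, ∀ γ ∈ P, γ (e r) = e r) ∧
      (∀ z : Ω, (∀ γ ∈ P, γ z = z) →
        ∃ c : Fin P.index → RatFunc K, z = ∑ r, algebraMap (RatFunc K) Ω (c r) * e r) ∧
      (∀ r, D r ≠ 0) ∧ g ^ 2 = ∏ r, aeval (xx K Ω) (D r) ∧
      (∀ (γ : Ω ≃ₐ[RatFunc K] Ω) (f : Equiv.Perm ((Ω ≃ₐ[RatFunc K] Ω) ⧸ P)),
        (∀ q, f q = γ • q) → ∀ (_ : Fintype ((Ω ≃ₐ[RatFunc K] Ω) ⧸ P))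
          (_ : DecidableEq ((Ω ≃ₐ[RatFunc K] Ω) ⧸ P)),
          γ g = (((Equiv.Perm.sign f : ℤˣ) : ℤ) : Ω) * g) ∧ Δ ≠ 0 ∧
      ∑ r, e r ^ 2 / aeval (xx K Ω) (D r) = 1 ∧
      (∀ γ : Ω ≃ₐ[RatFunc K] Ω, γ ∉ P → ∑ r, e r * γ (e r) / aeval (xx K Ω) (D r) = 0) ∧
      ∀ (B : ℕ) (z : Ω), Dv e Δ B z → ∃ a : Fin P.index → Fin P.index → K[X],
        (∀ r s, a r s = a s r) ∧ (∀ r s, (D r * D s * a r s).natDegree ≤ B + C) ∧
        ∀ r, z * e r = aeval (xx K Ω) (D r) * ∑ s, aeval (xx K Ω) (a r s) * e s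

end Pool.Agent.K3h17
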